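import Pool.Agent.Lib.MP_e5111b_co.FF.BridgeA

namespace Pool.Agent.Lib.MP_e5111b_co.FF

open Filter QuadraticAlgebra ComplexConjugate

theorem br_real (v w : ℂ) (hv : v ≠ 0) (h : conj w = conj v / v * w) : ∃ s : ℝ, w = s * v := by
  have hc : conj v ≠ 0 := by simpa using hv
  have : conj (w / v) = w / v := by
    rw [map_div₀, h]
    field_simp
  obtain ⟨s, hs⟩ := Complex.conj_eq_iff_real.1 this
  exact ⟨s, by rw [← hs]; field_simp⟩

theorem br_sym (y v w u : ℂ) (hv : v ≠ 0)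
    (h : u = conj v / v * w + (conj y - conj v / v * y)) :
    conj w = conj v / v * conj u + (conj y - conj v / v * y) := by
  have hc : conj v ≠ 0 := by simpa using hv
  rw [h]
  simp only [map_add, map_mul, map_sub, map_div₀, Complex.conj_conj]
  field_simp
  ring

theorem br_conc (y v : Fin 3 → ℂ) (hv : ∀ i, v i ≠ 0) (α β : Fin 3 → ℂ)
    (hα : ∀ i, α i = conj (v i) / v i) (hβ : ∀ i, β i = conj (y i) - α i * y i) (j : Fin 3)
    (hj : α j ≠ α 0) (h : ∀ k, (α j - α 0) * (β k - β 0) = (α k - α 0) * (β j - β 0)) :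
    ∃ w, ∀ i, ∃ s : ℝ, w = y i + s * v i := by
  have h0 : α j - α 0 ≠ 0 := sub_ne_zero.2 hj
  obtain ⟨w, hw⟩ : ∃ w, (α j - α 0) * w + (β j - β 0) = 0 :=
    ⟨-(β j - β 0) / (α j - α 0), by field_simp; ring⟩
  have h1 : ∀ k, α 0 * w + β 0 = α k * w + β k := fun k => by
    apply mul_left_cancel₀ h0
    linear_combination (-1) * h k - (α k - α 0) * hw
  have h2 : ∀ k, conj w = α k * conj (α 0 * w + β 0) + β k := fun k => by
    have := br_sym (y k) (v k) w (α 0 * w + β 0) (hv k) (by rw [h1 k, hβ k, hα k])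
    rw [this, hβ k, hα k]
  have h3 : conj (α 0 * w + β 0) = w := by
    apply mul_left_cancel₀ h0
    linear_combination h2 0 - h2 j - hw
  refine ⟨w, fun i => ?_⟩
  obtain ⟨s, hs⟩ := br_real (v i) (w - y i) (hv i) (by
    rw [map_sub, h2 i, h3, hβ i, hα i]; ring)
  exact ⟨s, by linear_combination hs⟩

theorem br_det (y v : Fin 3 → ℂ) (hv : ∀ i, v i ≠ 0) (α β : Fin 3 → ℂ)
    (hα : ∀ i, α i = conj (v i) / v i) (hβ : ∀ i, β i = conj (y i) - α i * y i)
    (h : (α 1 - α 0) * (β 2 - β 0) = (α 2 - α 0) * (β 1 - β 0)) :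
    (∃ w, ∀ i, ∃ s : ℝ, w = y i + s * v i) ∨ ∀ i, ∃ s : ℝ, v i = s * v 0 := by
  by_cases h1 : α 1 = α 0
  · by_cases h2 : α 2 = α 0
    · refine Or.inr fun i => br_real (v 0) (v i) (hv 0) ?_
      have e : α i = α 0 := by fin_cases i <;> simp [h1, h2]
      have := hv i
      rw [← hα 0, ← e, hα i]
      field_simp
    · refine Or.inl (br_conc y v hv α β hα hβ 2 h2 fun k => ?_)
      fin_cases k
      · simp
      · exact h.symm
      · rfl
  · refine Or.inl (br_conc y v hv α β hα hβ 1 h1 fun k => ?_)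
    fin_cases k
    · simp
    · rfl
    · exact h

/-- non degeneracy at one parameter value -/
theorem br_nd (lam o : ℂ) (hl : lam ≠ 0) (x0 x1 p e : Fin 3 → ℂ) (hx : ∀ i, x1 i ≠ x0 i)
    (h0 : ∀ i, ∃ s : ℝ, x0 i = p i + s * e i) (h1 : ∀ i, ∃ s : ℝ, x1 i = p i + s * e i)
    (hc : ¬ ∃ w, ∀ i, ∃ s : ℝ, w = p i + s * e i) (hp : ¬ ∀ i, ∃ s : ℝ, e i = s * e 0)
    (α β : Fin 3 → ℂ)
    (hα : ∀ i, α i = conj (lam * (x1 i - o) - lam * (x0 i - o)) /
      (lam * (x1 i - o) - lam * (x0 i - o)))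
    (hβ : ∀ i, β i = conj (lam * (x0 i - o)) - α i * (lam * (x0 i - o))) :
    (α 1 - α 0) * (β 2 - β 0) ≠ (α 2 - α 0) * (β 1 - β 0) := by
  intro h
  choose s0 h0 using h0
  choose s1 h1 using h1
  have hv : ∀ i, lam * (x1 i - o) - lam * (x0 i - o) ≠ 0 := fun i => by
    rw [← mul_sub]
    exact mul_ne_zero hl (by simpa [sub_eq_zero] using hx i)
  rcases br_det (fun i => lam * (x0 i - o)) (fun i => lam * (x1 i - o) - lam * (x0 i - o))
    hv α β hα hβ h with ⟨w, hw⟩ | hw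
  · refine hc ⟨w / lam + o, fun i => ?_⟩
    obtain ⟨s, hs⟩ := hw i
    refine ⟨s0 i + s * (s1 i - s0 i), ?_⟩
    rw [hs, h0 i, h1 i]
    push_cast
    field_simp
    ring
  · refine hp fun i => ?_
    obtain ⟨s, hs⟩ := hw i
    have hd : (s1 i - s0 i : ℂ) ≠ 0 := fun c => hx i (by
      rw [h0 i, h1 i]; linear_combination e i * c)
    refine ⟨s * (s1 0 - s0 0) / (s1 i - s0 i), ?_⟩
    push_cast
    rw [h0 i, h1 i, h0 0, h1 0] at hs
    field_simp
    apply mul_left_cancel₀ hl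
    linear_combination hs

theorem br_col (lam o x x0 x1 p e : ℂ) (h : ∃ s : ℝ, x = p + s * e) (h0 : ∃ s : ℝ, x0 = p + s * e)
    (h1 : ∃ s : ℝ, x1 = p + s * e) :
    (conj (lam * (x - o)) - conj (lam * (x0 - o))) * (lam * (x1 - o) - lam * (x0 - o)) =
      conj (lam * (x1 - o) - lam * (x0 - o)) * (lam * (x - o) - lam * (x0 - o)) := by
  obtain ⟨s, rfl⟩ := h
  obtain ⟨s0, rfl⟩ := h0
  obtain ⟨s1, rfl⟩ := h1
  simp only [map_mul, map_sub, map_add, Complex.conj_ofReal]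
  ring

/-- some point is off the line through the first two points -/
theorem br_off {m : ℕ} (x : Fin 3 → Fin m → ℂ) (j0 j1 : Fin m) (hx : ∀ i, x i j1 ≠ x i j0)
    (p e : Fin 3 → ℂ) (h : ∀ i j, ∃ s : ℝ, x i j = p i + s * e i)
    (hp : ¬ ∀ i, ∃ s : ℝ, e i = s * e 0) :
    ∃ q : Fin 3 × Fin m, ((x q.1 q.2 - x 0 j0) * conj (x 0 j1 - x 0 j0)).im ≠ 0 := by
  by_contra hn
  push Not at hn
  choose s hs using h
  have h0 : x 0 j1 - x 0 j0 ≠ 0 := sub_ne_zero.2 (hx 0)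
  have hc : conj (x 0 j1 - x 0 j0) ≠ 0 := (map_ne_zero _).2 h0
  refine hp fun i => ?_
  have a : ((x i j1 - x i j0) * conj (x 0 j1 - x 0 j0)).im = 0 := by
    have : (x i j1 - x i j0) * conj (x 0 j1 - x 0 j0) =
        (x i j1 - x 0 j0) * conj (x 0 j1 - x 0 j0) - (x i j0 - x 0 j0) * conj (x 0 j1 - x 0 j0) := by
      ring
    rw [this, Complex.sub_im, hn (i, j1), hn (i, j0), sub_zero]
  have b := Complex.conj_eq_iff_im.2 a
  rw [map_mul, Complex.conj_conj] at b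
  obtain ⟨t, ht⟩ := br_real (x 0 j1 - x 0 j0) (x i j1 - x i j0) h0 (by
    field_simp; linear_combination b)
  have hd : (s i j1 - s i j0 : ℂ) ≠ 0 := fun c => hx i (by
    rw [hs i j0, hs i j1]; linear_combination e i * c)
  refine ⟨t * (s 0 j1 - s 0 j0) / (s i j1 - s i j0), ?_⟩
  push_cast
  rw [hs i j0, hs i j1, hs 0 j0, hs 0 j1] at ht
  field_simp
  linear_combination ht

theorem br_im (s e : ℂ) : s * conj e - conj s * e = Complex.I * (2 * (s * conj e).im : ℝ) := by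
  have := Complex.sub_conj (s * conj e)
  rw [map_mul, Complex.conj_conj] at this
  rw [this]
  ring

theorem br_lift {T F : Type} [Field F] {U : Ultrafilter T} (ψ : F →+* Germ (U : Filter T) ℂ)
    (hre : ∀ x, ∃ φ : T → ℝ, Rp ψ x fun z => φ z) (Δ : F) (η : T → ℝ)
    (hΔ : Rp ψ Δ fun z => (η z : ℂ) ^ 2) [Fact (∀ r, r ^ 2 ≠ -Δ + 0 * r)] :
    ∃ Ψ : QuadraticAlgebra F (-Δ) 0 →+* Germ (U : Filter T) ℂ,
      (∀ x φ, Rp Ψ x φ → Rp Ψ (star x) fun z => conj (φ z)) ∧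
      (∀ x φ, Rp ψ x φ → Rp Ψ (algebraMap F _ x) φ) ∧
      Rp Ψ omega fun z => Complex.I * η z := by
  have hu : ((fun z => Complex.I * η z : T → ℂ) : Germ (U : Filter T) ℂ) *
      ((fun z => Complex.I * η z : T → ℂ) : Germ (U : Filter T) ℂ) = ψ (-Δ) := by
    rw [hΔ.neg, ← Germ.coe_mul]
    congr 1
    ext z
    simp only [Pi.mul_apply]
    linear_combination (η z : ℂ) ^ 2 * Complex.I_mul_I
  have h1 : ∀ x φ, Rp ψ x φ → Rp (brQ _ ψ _ hu) (algebraMap F _ x) φ := fun x φ h => by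
    unfold Rp at *
    rw [brQ_apply, algebraMap_re, algebraMap_im, map_zero, zero_mul, add_zero, h]
  have h2 : Rp (brQ _ ψ _ hu) omega fun z => Complex.I * η z := by
    unfold Rp
    rw [brQ_apply, omega_re, omega_im, map_zero, map_one, zero_add, one_mul]
  refine ⟨brQ _ ψ _ hu, fun x φ h => ?_, h1, h2⟩
  obtain ⟨a, ha⟩ := hre x.re
  obtain ⟨b, hb⟩ := hre x.im
  have e1 : x = algebraMap F _ x.re + algebraMap F _ x.im * omega := by
    ext <;> simp
  have e2 : star x = algebraMap F _ x.re - algebraMap F _ x.im * omega := by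
    ext <;> simp
  have k := (h.eq_iff ((h1 _ _ ha).add ((h1 _ _ hb).mul h2))).1 e1
  rw [e2]
  refine ((h1 _ _ ha).sub ((h1 _ _ hb).mul h2)).congr (k.mono fun z hz => ?_)
  rw [hz]
  simp only [map_add, map_mul, Complex.conj_ofReal, Complex.conj_I]
  ring

theorem br_fact {T F : Type} [Field F] {U : Ultrafilter T} (ψ : F →+* Germ (U : Filter T) ℂ)
    (hre : ∀ x, ∃ φ : T → ℝ, Rp ψ x fun z => φ z) (Δ : F) (η : T → ℝ)
    (hΔ : Rp ψ Δ fun z => (η z : ℂ) ^ 2) (hη : ∀ᶠ z in (U : Filter T), η z ≠ 0) (r : F) :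
    r ^ 2 ≠ -Δ + 0 * r := by
  intro h
  rw [zero_mul, add_zero] at h
  obtain ⟨a, ha⟩ := hre r
  obtain ⟨z, h1, h2⟩ := (((ha.sq.eq_iff hΔ.neg).1 h).and hη).exists
  have h3 : a z ^ 2 = -η z ^ 2 := by exact_mod_cast h1
  have := sq_pos_of_ne_zero h2
  nlinarith [sq_nonneg (a z)]

theorem br_const {T F : Type} [Field F] {U : Ultrafilter T} (ψ : F →+* Germ (U : Filter T) ℂ)
    (hre : ∀ x, ∃ φ : T → ℝ, Rp ψ x fun z => φ z) (c : ℝ →+* F)
    (hc : ∀ a, Rp ψ (c a) fun _ => a) (x : F) (a n : ℝ) (h : x ^ 2 - c a * x + c n = 0) :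
    ∃ r, x = c r := by
  obtain ⟨φ, hφ⟩ := hre x
  obtain ⟨z, h1⟩ := ((((hφ.sq.sub ((hc a).mul hφ)).add (hc n)).eq_iff Rp.zero).1 h).exists
  have h2 : φ z ^ 2 - a * φ z + n = 0 := by exact_mod_cast h1
  have h3 : (x - c (φ z)) * (x - c (a - φ z)) = 0 := by
    have := congrArg c h2
    simp only [map_add, map_sub, map_mul, map_pow, map_zero] at this ⊢
    linear_combination h - this
  rcases mul_eq_zero.1 h3 with k | k
  · exact ⟨_, sub_eq_zero.1 k⟩
  · exact ⟨_, sub_eq_zero.1 k⟩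

theorem br_mid {T F ι : Type} [Field F] {U : Ultrafilter T} (ψ : F →+* Germ (U : Filter T) ℂ)
    (hre : ∀ x, ∃ φ : T → ℝ, Rp ψ x fun z => φ z) (W : ι → T → ℂ) (d : ι → ι → F)
    (hd : ∀ a b, Rp ψ (d a b ^ 2) fun z => (W a z - W b z) * conj (W a z - W b z)) (o e s : ι)
    (hs : ∀ᶠ z in (U : Filter T), ((W s z - W o z) * conj (W e z - W o z)).im ≠ 0) :
    ∃ (δ : F) (_ : Fact (∀ r, r ^ 2 ≠ δ + 0 * r))
      (Ψ : QuadraticAlgebra F δ 0 →+* Germ (U : Filter T) ℂ) (u : ι → QuadraticAlgebra F δ 0)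
      (lam : T → ℂ) (κ : F), (∀ᶠ z in (U : Filter T), lam z ≠ 0) ∧ κ ≠ 0 ∧
      (∀ x φ, Rp (K := QuadraticAlgebra F δ 0) Ψ x φ →
        Rp (K := QuadraticAlgebra F δ 0) Ψ (star x) fun z => conj (φ z)) ∧
      (∀ a, Rp (K := QuadraticAlgebra F δ 0) Ψ (u a) fun z => lam z * (W a z - W o z)) ∧
      ∀ a b, (u a - u b) * star (u a - u b) = algebraMap F _ (κ * d a b) ^ 2 := by
  obtain ⟨η, hη⟩ : ∃ η : T → ℝ, η = fun z => 2 * ((W s z - W o z) * conj (W e z - W o z)).im :=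
    ⟨_, rfl⟩
  have hI : ∀ z, (W s z - W o z) * conj (W e z - W o z) - conj (W s z - W o z) * (W e z - W o z) =
      Complex.I * η z := fun z => by rw [br_im, hη]
  obtain ⟨X, hX⟩ : ∃ X : ι → F, ∀ a, Rp ψ (X a) fun z =>
      (W a z - W o z) * conj (W e z - W o z) + conj (W a z - W o z) * (W e z - W o z) :=
    ⟨fun a => d a o ^ 2 + d e o ^ 2 - d e a ^ 2, fun a =>
      (((hd a o).add (hd e o)).sub (hd e a)).congr (.of_forall fun z => by
        simp only [map_sub]; ring)⟩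
  obtain ⟨Y, hY⟩ : ∃ Y : ι → F, ∀ a, Rp ψ (Y a) fun z =>
      -(((W a z - W o z) * conj (W e z - W o z) - conj (W a z - W o z) * (W e z - W o z)) *
        (Complex.I * η z)) :=
    ⟨fun a => 2 * (d a o ^ 2 + d s o ^ 2 - d a s ^ 2) * d e o ^ 2 - X a * X s, fun a =>
      (((Rp.two.mul (((hd a o).add (hd s o)).sub (hd a s))).mul (hd e o)).sub
        ((hX a).mul (hX s))).congr (.of_forall fun z => by
        rw [← hI z]; simp only [map_sub]; ring)⟩
  have hΔ : Rp ψ (Y s) fun z => (η z : ℂ) ^ 2 := (hY s).congr (.of_forall fun z => by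
    rw [hI z]; linear_combination (-(η z : ℂ) ^ 2) * Complex.I_mul_I)
  have h0 : ∀ᶠ z in (U : Filter T), η z ≠ 0 := hs.mono fun z hz => by
    rw [hη]; exact mul_ne_zero two_ne_zero hz
  have hE : ∀ᶠ z in (U : Filter T), W e z - W o z ≠ 0 := hs.mono fun z hz c => by
    rw [c] at hz; simp at hz
  haveI hF : Fact (∀ r, r ^ 2 ≠ -Y s + 0 * r) := ⟨br_fact ψ hre _ η hΔ h0⟩
  obtain ⟨Ψ, h1, h2, h3⟩ := br_lift ψ hre (Y s) η hΔ
  have hu : ∀ a, Rp Ψ (algebraMap F _ (Y s * X a) + algebraMap F _ (Y a) * omega) fun z =>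
      2 * (η z : ℂ) ^ 2 * conj (W e z - W o z) * (W a z - W o z) := fun a =>
    ((h2 _ _ (hΔ.mul (hX a))).add ((h2 _ _ (hY a)).mul h3)).congr (.of_forall fun z => by
      linear_combination (-((η z : ℂ) ^ 2 * ((W a z - W o z) * conj (W e z - W o z) -
        conj (W a z - W o z) * (W e z - W o z)))) * Complex.I_mul_I)
  have hk : Rp ψ ((2 * Y s) ^ 2 * d e o ^ 2) _ := (Rp.two.mul hΔ).sq.mul (hd e o)
  refine ⟨-Y s, hF, Ψ, _, fun z => 2 * (η z : ℂ) ^ 2 * conj (W e z - W o z), 2 * Y s * d e o,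
    (h0.and hE).mono fun z hz => ?_, fun c => ?_, h1, hu, fun a b => ?_⟩
  · exact mul_ne_zero (mul_ne_zero two_ne_zero (pow_ne_zero _ (by exact_mod_cast hz.1)))
      ((map_ne_zero _).2 hz.2)
  · refine hk.ne_zero ((h0.and hE).mono fun z hz => ?_) (by rw [← mul_pow, c]; simp)
    exact mul_ne_zero (pow_ne_zero _ (mul_ne_zero two_ne_zero
      (pow_ne_zero _ (by exact_mod_cast hz.1)))) (mul_ne_zero hz.2 ((map_ne_zero _).2 hz.2))
  · rw [← map_pow, mul_pow, mul_pow]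
    refine ((((hu a).sub (hu b)).mul (h1 _ _ ((hu a).sub (hu b)))).eq_iff
      (h2 _ _ (hk.mul (hd a b)))).2 (.of_forall fun z => ?_)
    simp only [map_sub, map_mul, map_pow, Complex.conj_ofReal, Complex.conj_conj, map_ofNat]
    ring

end Pool.Agent.Lib.MP_e5111b_co.FF
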