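import Pool.Agent.Lib.MP_e5111b_co.FF.Raw
import Pool.Agent.Lib.MP_e5111b_co.FF.BridgeB

namespace Pool.Agent.Lib.MP_e5111b_co.FF

open Finset

open Filter ComplexConjugate in
theorem br_ratio {m : ℕ} (hm : ∀ (K : Type) [Field K] [CharZero K] (P : PS K) (c : K →+* K),
    (∀ x, c (c x) = x) → (∀ x, c (P.D x) = P.D (c x)) →
    (∀ s x, P.bad s → c x ≠ x → P.w s (x - c x) ≠ 0) →
    ∀ S : Set K, (∀ x ∈ S, ∀ y ∈ S, ∃ r, c r = r ∧ (x - y) * c (x - y) = r ^ 2) →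
    ∀ (α β : Fin 3 → K) (G : Fin 3 → Finset K), (∀ i, (G i : Set K) ⊆ S) → (∀ i, m ≤ #(G i)) →
    (∀ i, ∀ x ∈ G i, c x = α i * x + β i) →
    (α 1 - α 0) * (β 2 - β 0) ≠ (α 2 - α 0) * (β 1 - β 0) →
    ∀ x ∈ S, ∀ y ∈ S, ∀ x' ∈ S, ∀ y' ∈ S, P.D ((x - y) / (x' - y')) = 0)
    (f : Polynomial ℝ) (hf : f.natDegree ≤ 4)
    [Fact (∀ r : RatFunc ℝ, r ^ 2 ≠ algebraMap _ (RatFunc ℝ) f + 0 * r)]
    {T ι : Type} {U : Ultrafilter T} (ψ : FE f →+* Germ (U : Filter T) ℂ)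
    (hre : ∀ x, ∃ φ : T → ℝ, Rp ψ x fun z => φ z)
    (hc : ∀ a : ℝ, Rp ψ (algebraMap (RatFunc ℝ) (FE f) (RatFunc.C a)) fun _ => a)
    (X : ι → T → ℂ) (d : ι → ι → FE f)
    (hd : ∀ a b, Rp ψ (d a b ^ 2) fun z => (X a z - X b z) * conj (X a z - X b z))
    (g : Fin 3 → Fin (m + 2) → ι)
    (hg : ∀ᶠ z in (U : Filter T), (∀ i, Function.Injective fun j => X (g i j) z) ∧
      ∃ p e : Fin 3 → ℂ, (∀ i, e i ≠ 0) ∧ (∀ i j, ∃ s : ℝ, X (g i j) z = p i + s * e i) ∧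
      (¬ ∃ w, ∀ i, ∃ s : ℝ, w = p i + s * e i) ∧ ¬ ∀ i, ∃ s : ℝ, e i = s * e 0) (a b : ι) :
    ∃ r : ℝ, d a b ^ 2 =
      algebraMap (RatFunc ℝ) (FE f) (RatFunc.C r) * d (g 0 1) (g 0 0) ^ 2 := by
  classical
  have h01 : (1 : Fin (m + 2)) ≠ 0 := by simp
  obtain ⟨q, hq⟩ := Ultrafilter.eventually_exists_iff.1 (hg.mono fun z hz => by
    obtain ⟨hi, p, e, -, h, -, hp⟩ := hz
    exact br_off (fun i j => X (g i j) z) 0 1 (fun i c => h01 (hi i c)) p e h hp)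
  obtain ⟨δ, hF, Ψ, u, lam, κ, hl, hκ, hst, hu, hsq⟩ :=
    br_mid ψ hre X d hd (g 0 0) (g 0 1) (g q.1 q.2) hq
  obtain ⟨P, P1, P2, P3⟩ := places f hf δ
  have hinj : ∀ i, Function.Injective fun j => u (g i j) := fun i j j' c => by
    obtain ⟨z, ⟨h1, h2⟩, h3⟩ := (((((hu _).eq_iff (hu _)).1 c).and hl).and hg).exists
    exact h3.1 i (sub_left_injective (mul_left_cancel₀ h2 h1))
  have hv : ∀ i, u (g i 1) - u (g i 0) ≠ 0 := fun i c => h01 (hinj i (sub_eq_zero.1 c))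
  have hstar : ∀ x : FE f, star (algebraMap (FE f) (QuadraticAlgebra (FE f) δ 0) x) =
      algebraMap (FE f) _ x := fun x => by ext <;> simp
  obtain ⟨α, hα⟩ : ∃ α : Fin 3 → QuadraticAlgebra (FE f) δ 0,
      ∀ i, α i = star (u (g i 1) - u (g i 0)) / (u (g i 1) - u (g i 0)) := ⟨_, fun _ => rfl⟩
  obtain ⟨β, hβ⟩ : ∃ β : Fin 3 → QuadraticAlgebra (FE f) δ 0,
      ∀ i, β i = star (u (g i 0)) - α i * u (g i 0) := ⟨_, fun _ => rfl⟩
  have rα := fun i => hα i ▸ (hst _ _ ((hu (g i 1)).sub (hu (g i 0)))).div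
    ((hu (g i 1)).sub (hu (g i 0)))
  have rβ := fun i => hβ i ▸ (hst _ _ (hu (g i 0))).sub ((rα i).mul (hu (g i 0)))
  have key := hm _ P (starRingEnd _) star_star P1 P2 (Set.range u)
    (by
      rintro _ ⟨a, rfl⟩ _ ⟨b, rfl⟩
      exact ⟨_, hstar _, hsq a b⟩)
    α β (fun i => univ.image fun j => u (g i j))
    (fun i x hx => by
      obtain ⟨j, -, rfl⟩ := mem_image.1 (mem_coe.1 hx)
      exact ⟨_, rfl⟩)
    (fun i => by rw [card_image_of_injective _ (hinj i)]; simp)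
    (fun i x hx => by
      obtain ⟨j, -, rfl⟩ := mem_image.1 hx
      have e := ((((hst _ _ (hu (g i j))).sub (hst _ _ (hu (g i 0)))).mul
        ((hu (g i 1)).sub (hu (g i 0)))).eq_iff ((hst _ _ ((hu (g i 1)).sub (hu (g i 0)))).mul
        ((hu (g i j)).sub (hu (g i 0))))).2 (hg.mono fun z hz => by
          obtain ⟨-, p, e, -, h, -⟩ := hz
          exact br_col _ _ _ _ _ (p i) (e i) (h i j) (h i 0) (h i 1))
      have := hv i
      rw [starRingEnd_apply, hβ, hα]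
      field_simp
      linear_combination e)
    (fun c => by
      obtain ⟨z, ⟨h1, h2⟩, hi, p, e, -, h, h3, h4⟩ := (((((((rα 1).sub (rα 0)).mul
        ((rβ 2).sub (rβ 0))).eq_iff (((rα 2).sub (rα 0)).mul ((rβ 1).sub (rβ 0)))).1 c).and
        hl).and hg).exists
      exact br_nd (lam z) (X (g 0 0) z) h2 (fun i => X (g i 0) z) (fun i => X (g i 1) z) p e
        (fun i c => h01 (hi i c)) (fun i => h i 0) (fun i => h i 1) h3 h4
        (fun i => conj (lam z * (X (g i 1) z - X (g 0 0) z) - lam z * (X (g i 0) z - X (g 0 0) z)) /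
          (lam z * (X (g i 1) z - X (g 0 0) z) - lam z * (X (g i 0) z - X (g 0 0) z)))
        (fun i => conj (lam z * (X (g i 0) z - X (g 0 0) z)) -
          conj (lam z * (X (g i 1) z - X (g 0 0) z) - lam z * (X (g i 0) z - X (g 0 0) z)) /
          (lam z * (X (g i 1) z - X (g 0 0) z) - lam z * (X (g i 0) z - X (g 0 0) z)) *
          (lam z * (X (g i 0) z - X (g 0 0) z)))
        (fun _ => rfl) (fun _ => rfl) h1)
    _ ⟨a, rfl⟩ _ ⟨b, rfl⟩ _ ⟨g 0 1, rfl⟩ _ ⟨g 0 0, rfl⟩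
  have hd0 : d (g 0 1) (g 0 0) ^ 2 ≠ 0 := (hd _ _).ne_zero (hg.mono fun z hz => by
    have : X (g 0 1) z - X (g 0 0) z ≠ 0 := sub_ne_zero.2 fun c => h01 (hz.1 0 c)
    exact mul_ne_zero this ((map_ne_zero _).2 this))
  have k1 : (u a - u b) / (u (g 0 1) - u (g 0 0)) * star ((u a - u b) / (u (g 0 1) - u (g 0 0))) =
      algebraMap (FE f) _ (d a b ^ 2 / d (g 0 1) (g 0 0) ^ 2) := by
    rw [star_div₀, div_mul_div_comm, hsq, hsq, ← map_pow, ← map_pow, ← map_div₀, mul_pow, mul_pow,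
      mul_div_mul_left _ _ (pow_ne_zero 2 hκ)]
  obtain ⟨s, n, h⟩ := P3 (d a b ^ 2 / d (g 0 1) (g 0 0) ^ 2) (by
    rw [← k1, P.D_mul, ← P1, key]; simp)
  obtain ⟨r, hr⟩ := br_const ψ hre ((algebraMap (RatFunc ℝ) (FE f)).comp RatFunc.C) hc _ s n h
  exact ⟨r, (div_eq_iff hd0).1 hr⟩

theorem final : ∃ m : ℕ, ∀ f : Polynomial ℝ, f.natDegree ≤ 4 → ¬ IsSquare f →
    ∀ I : Set (ℝ × ℝ), I.Infinite → (∀ z ∈ I, z.2 ^ 2 = f.eval z.1) →
    ∀ (ι : Type) (X : ι → ℝ × ℝ → ℂ) (R G : ι → ι → MvPolynomial (Fin 2) ℝ),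
    (∀ z ∈ I, ∀ a b, MvPolynomial.eval ![z.1, z.2] (G a b) ≠ 0 ∧ dist (X a z) (X b z) =
      |MvPolynomial.eval ![z.1, z.2] (R a b) / MvPolynomial.eval ![z.1, z.2] (G a b)|) →
    ∀ g : Fin 3 → Fin m → ι,
    (∀ z ∈ I, (∀ i, Function.Injective fun j => X (g i j) z) ∧ ∃ p e : Fin 3 → ℂ,
      (∀ i, e i ≠ 0) ∧ (∀ i j, ∃ s : ℝ, X (g i j) z = p i + s * e i) ∧
      (¬ ∃ w, ∀ i, ∃ s : ℝ, w = p i + s * e i) ∧ ¬ ∀ i, ∃ s : ℝ, e i = s * e 0) →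
    ∀ z ∈ I, ∀ z' ∈ I, ∃ l : ℝ, 0 < l ∧
      ∀ a b, dist (X a z') (X b z') = l * dist (X a z) (X b z) := by
  obtain ⟨m, hm⟩ := raw
  refine ⟨m + 2, fun f hf hsq I hI hcv ι X R G hR g hg => ?_⟩
  haveI : Fact (∀ r : RatFunc ℝ, r ^ 2 ≠ algebraMap _ (RatFunc ℝ) f + 0 * r) := ⟨br_nonsq f hsq⟩
  haveI := hI.cofinite_inf_principal_neBot
  obtain ⟨U, hU⟩ := Ultrafilter.exists_le (Filter.cofinite ⊓ Filter.principal I)
  have hUI : ∀ᶠ z in (U : Filter (ℝ × ℝ)), z ∈ I :=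
    Filter.le_principal_iff.1 (hU.trans inf_le_right)
  obtain ⟨ψ, hre, hp⟩ := br_psi f U (hU.trans inf_le_left) (hUI.mono hcv)
  have hG : ∀ a b, brP f (G a b) ≠ 0 := fun a b =>
    (hp _).ne_zero (hUI.mono fun z hz => by exact_mod_cast (hR z hz a b).1)
  have key : ∀ a b, ∃ r : ℝ, ∀ z ∈ I,
      dist (X a z) (X b z) ^ 2 = r * dist (X (g 0 1) z) (X (g 0 0) z) ^ 2 := fun a b => by
    obtain ⟨r, hr⟩ := br_ratio hm f hf ψ hre (fun a => by simpa [brP_C] using hp (.C a)) X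
      (fun a b => brP f (R a b) / brP f (G a b))
      (fun a b => ((hp _).div (hp _)).sq.congr (hUI.mono fun z hz => by
        rw [Complex.mul_conj, Complex.normSq_eq_norm_sq, ← dist_eq_norm, (hR z hz a b).2, sq_abs]
        push_cast
        rfl)) g (hUI.mono hg) a b
    refine ⟨r, fun z hz => ?_⟩
    have e := brP_zero f (R a b ^ 2 * G (g 0 1) (g 0 0) ^ 2 -
        .C r * R (g 0 1) (g 0 0) ^ 2 * G a b ^ 2) (by
      have h1 := hG a b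
      have h2 := hG (g 0 1) (g 0 0)
      simp only [map_sub, map_mul, map_pow, brP_C]
      field_simp at hr
      linear_combination hr) z (hcv z hz)
    simp only [map_sub, map_mul, map_pow, MvPolynomial.eval_C] at e
    have h1 := (hR z hz a b).1
    have h2 := (hR z hz (g 0 1) (g 0 0)).1
    rw [(hR z hz a b).2, (hR z hz (g 0 1) (g 0 0)).2, sq_abs, sq_abs]
    field_simp
    linear_combination e
  have h01 : (1 : Fin (m + 2)) ≠ 0 := by simp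
  have hpos : ∀ z ∈ I, 0 < dist (X (g 0 1) z) (X (g 0 0) z) := fun z hz =>
    dist_pos.2 fun c => h01 ((hg z hz).1 0 c)
  intro z hz z' hz'
  have p1 := hpos z hz
  have p2 := hpos z' hz'
  refine ⟨dist (X (g 0 1) z') (X (g 0 0) z') / dist (X (g 0 1) z) (X (g 0 0) z),
    div_pos p2 p1, fun a b => ?_⟩
  obtain ⟨r, hr⟩ := key a b
  refine (pow_left_inj₀ dist_nonneg (by positivity) two_ne_zero).1 ?_
  rw [mul_pow, hr z hz, hr z' hz']
  field_simp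

end Pool.Agent.Lib.MP_e5111b_co.FF
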