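import Pool.Agent.Lib.MP_e5111b_co.FF.Places

namespace Pool.Agent.Lib.MP_e5111b_co.FF

open Filter QuadraticAlgebra

/-- ring map out of a quadratic algebra -/
def brQ {R A : Type} [CommRing R] [CommRing A] (a : R) (g : R →+* A) (u : A)
    (hu : u * u = g a) : QuadraticAlgebra R a 0 →+* A where
  toFun z := g z.re + g z.im * u
  map_one' := by simp [re_one, im_one]
  map_mul' z w := by
    simp only [re_mul, im_mul, map_add, map_mul, zero_mul, add_zero, map_zero]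
    linear_combination (-(g z.im * g w.im)) * hu
  map_zero' := by simp
  map_add' z w := by
    simp only [re_add, im_add, map_add]
    ring

theorem brQ_apply {R A : Type} [CommRing R] [CommRing A] (a : R) (g : R →+* A) (u : A)
    (hu : u * u = g a) (z : QuadraticAlgebra R a 0) :
    brQ a g u hu z = g z.re + g z.im * u := rfl

/-- ring map on germs -/
noncomputable def brG {T A B : Type} [CommRing A] [CommRing B] (l : Filter T) (h : A →+* B) :
    Germ l A →+* Germ l B where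
  toFun := Germ.map h
  map_one' := by
    rw [← Germ.coe_one, Germ.map_coe, ← Germ.coe_one]
    congr 1; ext; simp
  map_mul' x y := by
    induction x, y using Germ.inductionOn₂ with | _ f g => ?_
    rw [← Germ.coe_mul, Germ.map_coe, Germ.map_coe, Germ.map_coe, ← Germ.coe_mul]
    congr 1; ext; simp
  map_zero' := by
    rw [← Germ.coe_zero, Germ.map_coe, ← Germ.coe_zero]
    congr 1; ext; simp
  map_add' x y := by
    induction x, y using Germ.inductionOn₂ with | _ f g => ?_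
    rw [← Germ.coe_add, Germ.map_coe, Germ.map_coe, Germ.map_coe, ← Germ.coe_add]
    congr 1; ext; simp

theorem brG_coe {T A B : Type} [CommRing A] [CommRing B] (l : Filter T) (h : A →+* B)
    (f : T → A) : brG l h (f : Germ l A) = ((fun z => h (f z) : T → B) : Germ l B) := rfl

section rp

variable {T K : Type} [Field K] {U : Ultrafilter T}

/-- `x` is represented by the function `φ` -/
def Rp (Ψ : K →+* Germ (U : Filter T) ℂ) (x : K) (φ : T → ℂ) : Prop :=
  Ψ x = (φ : Germ (U : Filter T) ℂ)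

variable {Ψ : K →+* Germ (U : Filter T) ℂ} {x y : K} {φ χ : T → ℂ}

theorem Rp.add (h : Rp Ψ x φ) (k : Rp Ψ y χ) : Rp Ψ (x + y) fun z => φ z + χ z := by
  unfold Rp at *; rw [map_add, h, k]; rfl

theorem Rp.sub (h : Rp Ψ x φ) (k : Rp Ψ y χ) : Rp Ψ (x - y) fun z => φ z - χ z := by
  unfold Rp at *; rw [map_sub, h, k]; rfl

theorem Rp.mul (h : Rp Ψ x φ) (k : Rp Ψ y χ) : Rp Ψ (x * y) fun z => φ z * χ z := by
  unfold Rp at *; rw [map_mul, h, k]; rfl

theorem Rp.div (h : Rp Ψ x φ) (k : Rp Ψ y χ) : Rp Ψ (x / y) fun z => φ z / χ z := by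
  unfold Rp at *; rw [map_div₀, h, k]; rfl

theorem Rp.neg (h : Rp Ψ x φ) : Rp Ψ (-x) fun z => -φ z := by
  unfold Rp at *; rw [map_neg, h]; rfl

theorem Rp.sq (h : Rp Ψ x φ) : Rp Ψ (x ^ 2) fun z => φ z ^ 2 := by
  have := h.mul h
  simpa only [pow_two] using this

theorem Rp.zero : Rp Ψ 0 fun _ => 0 := by
  unfold Rp; rw [map_zero]; rfl

theorem Rp.one : Rp Ψ 1 fun _ => 1 := by
  unfold Rp; rw [map_one]; rfl

theorem Rp.two : Rp Ψ 2 fun _ => 2 := by
  have := (Rp.one (Ψ := Ψ)).add Rp.one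
  simpa only [one_add_one_eq_two] using this

theorem Rp.congr (h : Rp Ψ x φ) (k : ∀ᶠ z in (U : Filter T), φ z = χ z) : Rp Ψ x χ := by
  unfold Rp at *; rw [h]; exact Germ.coe_eq.2 k

theorem Rp.eq_iff (h : Rp Ψ x φ) (k : Rp Ψ y χ) :
    x = y ↔ ∀ᶠ z in (U : Filter T), φ z = χ z := by
  unfold Rp at *
  rw [← Ψ.injective.eq_iff, h, k]
  exact Germ.coe_eq

theorem Rp.ne_zero (h : Rp Ψ x φ) (k : ∀ᶠ z in (U : Filter T), φ z ≠ 0) : x ≠ 0 := by
  intro e
  obtain ⟨z, a, b⟩ := (((h.eq_iff Rp.zero).1 e).and k).exists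
  exact b a

end rp

theorem br_nonsq (f : Polynomial ℝ) (hf : ¬ IsSquare f) (r : RatFunc ℝ) :
    r ^ 2 ≠ algebraMap _ (RatFunc ℝ) f + 0 * r := by
  intro h
  rw [zero_mul, add_zero] at h
  have hi : IsIntegral (Polynomial ℝ) (r ^ 2) := h ▸ isIntegral_algebraMap
  obtain ⟨y, hy⟩ := IsIntegrallyClosed.exists_algebraMap_eq_of_isIntegral_pow (by norm_num) hi
  refine hf ⟨y, IsFractionRing.injective (Polynomial ℝ) (RatFunc ℝ) ?_⟩
  rw [map_mul, hy, ← h, pow_two]

/-- polynomial functions on the curve inside the function field -/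
noncomputable def brP (f : Polynomial ℝ) : MvPolynomial (Fin 2) ℝ →+* FE f :=
  MvPolynomial.eval₂Hom ((algebraMap (RatFunc ℝ) (FE f)).comp RatFunc.C)
    ![algebraMap (RatFunc ℝ) (FE f) RatFunc.X, omega]

theorem brP_C (f : Polynomial ℝ) (a : ℝ) :
    brP f (MvPolynomial.C a) = algebraMap (RatFunc ℝ) (FE f) (RatFunc.C a) := by
  simp [brP]

theorem brP_rep (f : Polynomial ℝ) (p : MvPolynomial (Fin 2) ℝ) : ∃ A B : Polynomial ℝ,
    (brP f p).re = algebraMap _ (RatFunc ℝ) A ∧ (brP f p).im = algebraMap _ (RatFunc ℝ) B ∧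
    ∀ z : ℝ × ℝ, z.2 ^ 2 = f.eval z.1 →
      MvPolynomial.eval ![z.1, z.2] p = A.eval z.1 + B.eval z.1 * z.2 := by
  induction p using MvPolynomial.induction_on with
  | C a => exact ⟨Polynomial.C a, 0, by simp [brP_C], by simp [brP_C], by simp⟩
  | add p q hp hq =>
    obtain ⟨A, B, h1, h2, h3⟩ := hp
    obtain ⟨A', B', k1, k2, k3⟩ := hq
    refine ⟨A + A', B + B', by simp [h1, k1], by simp [h2, k2], fun z hz => ?_⟩
    simp only [map_add, h3 z hz, k3 z hz, Polynomial.eval_add]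
    ring
  | mul_X p i hp =>
    obtain ⟨A, B, h1, h2, h3⟩ := hp
    have e0 : brP f (MvPolynomial.X 0) = algebraMap (RatFunc ℝ) (FE f) RatFunc.X := by simp [brP]
    have e1 : brP f (MvPolynomial.X 1) = omega := by simp [brP]
    fin_cases i
    · refine ⟨A * Polynomial.X, B * Polynomial.X, by simp [h1, e0], by simp [h2, e0],
        fun z hz => ?_⟩
      simp [h3 z hz]
      ring
    · refine ⟨f * B, A, by simp [h2, e1], by simp [h1, e1], fun z hz => ?_⟩
      simp [h3 z hz]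
      linear_combination (B.eval z.1) * hz

theorem brP_zero (f : Polynomial ℝ) (p : MvPolynomial (Fin 2) ℝ) (h : brP f p = 0)
    (z : ℝ × ℝ) (hz : z.2 ^ 2 = f.eval z.1) : MvPolynomial.eval ![z.1, z.2] p = 0 := by
  obtain ⟨A, B, h1, h2, h3⟩ := brP_rep f p
  rw [h] at h1 h2
  have a : A = 0 := IsFractionRing.injective (Polynomial ℝ) (RatFunc ℝ) (by simpa using h1.symm)
  have b : B = 0 := IsFractionRing.injective (Polynomial ℝ) (RatFunc ℝ) (by simpa using h2.symm)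
  simp [h3 z hz, a, b]

theorem br_fin (f p : Polynomial ℝ) (hp : p ≠ 0) :
    {z : ℝ × ℝ | z.2 ^ 2 = f.eval z.1 ∧ p.eval z.1 = 0}.Finite := by
  have h1 : {t : ℝ | p.IsRoot t}.Finite := Polynomial.finite_setOfPred_isRoot hp
  refine ((h1.image fun t => (t, Real.sqrt (f.eval t))).union
    (h1.image fun t => (t, -Real.sqrt (f.eval t)))).subset ?_
  rintro ⟨t, y⟩ ⟨a, b⟩
  simp only at a b
  have : Real.sqrt (f.eval t) = |y| := by rw [← a, Real.sqrt_sq_eq_abs]
  rcases abs_choice y with c | c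
  · exact Or.inl ⟨t, b, by simp [this, c]⟩
  · exact Or.inr ⟨t, b, by simp [this, c]⟩

theorem br_psi (f : Polynomial ℝ)
    [Fact (∀ r : RatFunc ℝ, r ^ 2 ≠ algebraMap _ (RatFunc ℝ) f + 0 * r)]
    (U : Ultrafilter (ℝ × ℝ)) (hU : (U : Filter (ℝ × ℝ)) ≤ cofinite)
    (hc : ∀ᶠ z in (U : Filter (ℝ × ℝ)), z.2 ^ 2 = f.eval z.1) :
    ∃ ψ : FE f →+* Germ (U : Filter (ℝ × ℝ)) ℂ,
      (∀ x, ∃ φ : ℝ × ℝ → ℝ, Rp ψ x fun z => φ z) ∧
      ∀ p, Rp ψ (brP f p) fun z => (MvPolynomial.eval ![z.1, z.2] p : ℝ) := by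
  let g : Polynomial ℝ →+* Germ (U : Filter (ℝ × ℝ)) ℝ :=
    (Germ.coeRingHom _).comp (RingHom.pi fun z : ℝ × ℝ => Polynomial.evalRingHom z.1)
  have gp : ∀ p, g p = ((fun z => p.eval z.1 : ℝ × ℝ → ℝ) : Germ (U : Filter (ℝ × ℝ)) ℝ) :=
    fun p => rfl
  have gi : Function.Injective g := by
    rw [injective_iff_map_eq_zero]
    intro p hp
    by_contra h0
    rw [gp, ← Germ.coe_zero, Germ.coe_eq] at hp
    obtain ⟨z, ⟨a, b⟩, c⟩ := ((hc.and hp).and (hU (br_fin f p h0).compl_mem_cofinite)).exists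
    exact c ⟨a, b⟩
  let g1 : RatFunc ℝ →+* Germ (U : Filter (ℝ × ℝ)) ℝ := IsFractionRing.lift gi
  have g1p : ∀ p, g1 (algebraMap _ _ p) = g p := fun p => IsFractionRing.lift_algebraMap gi p
  have hu : ((fun z => z.2 : ℝ × ℝ → ℝ) : Germ (U : Filter (ℝ × ℝ)) ℝ) *
      ((fun z => z.2 : ℝ × ℝ → ℝ) : Germ (U : Filter (ℝ × ℝ)) ℝ) = g1 (algebraMap _ _ f) := by
    rw [g1p, gp, ← Germ.coe_mul, Germ.coe_eq]
    exact hc.mono fun z hz => by simpa [pow_two] using hz
  refine ⟨(brG _ Complex.ofRealHom).comp (brQ _ g1 _ hu), fun x => ?_, fun p => ?_⟩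
  · unfold Rp
    rw [RingHom.comp_apply]
    induction brQ _ g1 _ hu x using Germ.inductionOn with | _ φ => exact ⟨φ, rfl⟩
  · obtain ⟨A, B, h1, h2, h3⟩ := brP_rep f p
    unfold Rp
    rw [RingHom.comp_apply, brQ_apply, h1, h2, g1p, g1p, gp, gp, ← Germ.coe_mul, ← Germ.coe_add,
      brG_coe, Germ.coe_eq]
    exact hc.mono fun z hz => by simp [h3 z hz]

end Pool.Agent.Lib.MP_e5111b_co.FF
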