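import Pool.Agent.Lib.MP_e5111b_co.FF.Defs

namespace Pool.Agent.Lib.MP_e5111b_co.FF

open Finset

variable {α : Type} {m : ℕ} {r : α → α → Prop}

theorem cnt_nonneg (X : Fin m → α) (z : α) : 0 ≤ cnt r X z :=
  sum_nonneg fun _ _ => by split_ifs <;> norm_num

theorem cnt_le (X : Fin m → α) (z : α) : cnt r X z ≤ m := by
  classical
  calc cnt r X z ≤ ∑ _i : Fin m, (1 : ℤ) := sum_le_sum fun _ _ => by split_ifs <;> norm_num
    _ = m := by simp

theorem cnt_congr (hr : Equivalence r) (X : Fin m → α) {z z' : α} (h : r z z') :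
    cnt r X z = cnt r X z' := by
  unfold cnt
  refine sum_congr rfl fun i _ => ?_
  by_cases e : r (X i) z
  · rw [if_pos e, if_pos (hr.trans e h)]
  · rw [if_neg e, if_neg fun e' => e (hr.trans e' (hr.symm h))]

theorem cnt_mono {r' : α → α → Prop} (h : ∀ x y, r x y → r' x y) (X : Fin m → α) (z : α) :
    cnt r X z ≤ cnt r' X z := by
  unfold cnt
  refine sum_le_sum fun i _ => ?_
  by_cases e : r (X i) z
  · rw [if_pos e, if_pos (h _ _ e)]
  · rw [if_neg e]
    split_ifs <;> norm_num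

theorem ip_nonneg (X Y : Fin m → α) : 0 ≤ ip r X Y :=
  sum_nonneg fun _ _ => sum_nonneg fun _ _ => by split_ifs <;> norm_num

theorem ip_le (X Y : Fin m → α) : ip r X Y ≤ (m : ℤ) ^ 2 := by
  classical
  calc ip r X Y ≤ ∑ _i : Fin m, ∑ _j : Fin m, (1 : ℤ) :=
        sum_le_sum fun _ _ => sum_le_sum fun _ _ => by split_ifs <;> norm_num
    _ = _ := by simp [sq]

theorem sm_nonneg (θ : ℤ) (X Y : Fin m → α) : 0 ≤ sm r θ X Y :=
  sum_nonneg fun _ _ => sum_nonneg fun _ _ => by split_ifs <;> norm_num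

theorem sm_symm (hr : Equivalence r) (θ : ℤ) (X Y : Fin m → α) : sm r θ X Y = sm r θ Y X := by
  unfold sm
  rw [sum_comm]
  refine sum_congr rfl fun j _ => sum_congr rfl fun i _ => ?_
  by_cases e : r (X i) (Y j)
  · rw [cnt_congr hr X e, cnt_congr hr Y e]
    by_cases h : cnt r X (Y j) ≤ θ ∧ cnt r Y (Y j) ≤ θ
    · rw [if_pos ⟨e, h⟩, if_pos ⟨hr.symm e, h.symm⟩]
    · rw [if_neg fun h' => h h'.2, if_neg fun h' => h h'.2.symm]
  · rw [if_neg fun h' => e h'.1, if_neg fun h' => e (hr.symm h'.1)]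

theorem ip_eq_sm (θ : ℤ) (X Y : Fin m → α)
    (h : ∀ i, cnt r X (X i) ≤ θ ∧ cnt r Y (X i) ≤ θ) : ip r X Y = sm r θ X Y := by
  unfold ip sm
  refine sum_congr rfl fun i _ => sum_congr rfl fun j _ => ?_
  by_cases e : r (X i) (Y j)
  · rw [if_pos e, if_pos ⟨e, h i⟩]
  · rw [if_neg e, if_neg fun h' => e h'.1]

section eq

variable {Q : Type}

theorem sum_cnt_mul (x : Fin m → Q) (T : Finset Q) (hx : ∀ i, x i ∈ T) (f : Q → ℤ) :
    ∑ c ∈ T, cnt Eq x c * f c = ∑ i, f (x i) := by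
  unfold cnt
  simp_rw [sum_mul]
  rw [sum_comm]
  refine sum_congr rfl fun i _ => ?_
  rw [sum_eq_single (x i)]
  · simp
  · intro c _ hc
    rw [if_neg (Ne.symm hc), zero_mul]
  · intro h
    exact absurd (hx i) h

theorem sum_cnt (x : Fin m → Q) (T : Finset Q) (hx : ∀ i, x i ∈ T) :
    ∑ c ∈ T, cnt Eq x c = m := by
  have := sum_cnt_mul x T hx fun _ => 1
  simpa using this

theorem ip_eq (x y : Fin m → Q) (T : Finset Q) (hx : ∀ i, x i ∈ T) :
    ip Eq x y = ∑ c ∈ T, cnt Eq x c * cnt Eq y c := by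
  rw [sum_cnt_mul x T hx]
  unfold ip cnt
  refine sum_congr rfl fun i _ => sum_congr rfl fun j _ => ?_
  by_cases h : x i = y j
  · rw [if_pos h, if_pos h.symm]
  · rw [if_neg h, if_neg (Ne.symm h)]

theorem sm_eq (θ : ℤ) (x y : Fin m → Q) (T : Finset Q) (hx : ∀ i, x i ∈ T) :
    sm Eq θ x y
      = ∑ c ∈ T, cnt Eq x c * if cnt Eq x c ≤ θ ∧ cnt Eq y c ≤ θ then cnt Eq y c else 0 := by
  rw [sum_cnt_mul x T hx]
  unfold sm
  refine sum_congr rfl fun i _ => ?_
  by_cases hs : cnt Eq x (x i) ≤ θ ∧ cnt Eq y (x i) ≤ θ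
  · rw [if_pos hs]
    conv_rhs => unfold cnt
    refine sum_congr rfl fun j _ => ?_
    by_cases h : x i = y j
    · rw [if_pos ⟨h, hs⟩, if_pos h.symm]
    · rw [if_neg fun h' => h h'.1, if_neg (Ne.symm h)]
  · rw [if_neg hs]
    exact sum_eq_zero fun j _ => if_neg fun h' => hs h'.2

theorem En_eq (x y : Fin m → Q) (T : Finset Q) (hx : ∀ i, x i ∈ T) (hy : ∀ i, y i ∈ T) :
    En Eq x y = ∑ c ∈ T, (cnt Eq x c - cnt Eq y c) ^ 2 := by
  unfold En
  rw [ip_eq x x T hx, ip_eq y y T hy, ip_eq x y T hx, mul_sum, ← sum_add_distrib,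
    ← sum_sub_distrib]
  exact sum_congr rfl fun c _ => by ring

theorem le_En (x y : Fin m → Q) (T : Finset Q) :
    ∑ c ∈ T, (cnt Eq x c - cnt Eq y c) ^ 2 ≤ En Eq x y := by
  classical
  rw [En_eq x y (T ∪ (univ.image x ∪ univ.image y)) (fun i => by simp) fun i => by simp]
  exact sum_le_sum_of_subset_of_nonneg subset_union_left fun c _ _ => sq_nonneg _

theorem big_class {θ a b : ℤ} (hθ : 8 ≤ θ) (hb : 0 ≤ b) (hab : b ≤ a) (ha : θ < a) :
    θ * (a + b - (a - b) ^ 2) ≤ 4 * (a * b) := by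
  by_cases h : θ ≤ 2 * b
  · have h1 : θ * a ≤ 2 * b * a := mul_le_mul_of_nonneg_right h (by omega)
    have h2 : θ * b ≤ θ * a := mul_le_mul_of_nonneg_left hab (by omega)
    have h3 : 0 ≤ θ * (a - b) ^ 2 := mul_nonneg (by omega) (sq_nonneg _)
    nlinarith
  · have h1 : a + b - (a - b) ^ 2 ≤ 0 := by nlinarith
    have h2 : 0 ≤ a * b := mul_nonneg (by omega) hb
    have h3 := mul_nonpos_of_nonneg_of_nonpos (show 0 ≤ θ by omega) h1
    omega

theorem En_low_eq (x y : Fin m → Q) (θ : ℤ) (hθ : 8 ≤ θ) :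
    θ * (2 * m - En Eq x y) ≤ 2 * θ * sm Eq θ x y + 4 * ip Eq x y := by
  classical
  have hx : ∀ i, x i ∈ univ.image x ∪ univ.image y := fun i => by simp
  have hy : ∀ i, y i ∈ univ.image x ∪ univ.image y := fun i => by simp
  have e : 2 * (m : ℤ) = ∑ c ∈ univ.image x ∪ univ.image y, (cnt Eq x c + cnt Eq y c) := by
    rw [sum_add_distrib, sum_cnt x _ hx, sum_cnt y _ hy]
    ring
  rw [e, En_eq x y _ hx hy, sm_eq θ x y _ hx, ip_eq x y _ hx, ← sum_sub_distrib, mul_sum, mul_sum,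
    mul_sum, ← sum_add_distrib]
  refine sum_le_sum fun c _ => ?_
  have ha := cnt_nonneg (r := Eq) x c
  have hb := cnt_nonneg (r := Eq) y c
  generalize cnt Eq x c = a at *
  generalize cnt Eq y c = b at *
  split_ifs with h
  · have h1 : a ≤ a ^ 2 := Int.le_self_sq a
    have h2 : b ≤ b ^ 2 := Int.le_self_sq b
    have h3 : a + b - (a - b) ^ 2 ≤ 2 * (a * b) := by nlinarith
    have h4 := mul_le_mul_of_nonneg_left h3 (show 0 ≤ θ by omega)
    have h5 : 0 ≤ a * b := mul_nonneg ha hb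
    nlinarith
  · rcases le_total b a with hab | hab
    · have := big_class hθ hb hab (by omega)
      linarith
    · have := big_class hθ ha hab (by omega)
      nlinarith

end eq

theorem ite_congr_iff {p q : Prop} {i : Decidable p} {j : Decidable q} (h : p ↔ q) :
    @ite ℤ p i 1 0 = @ite ℤ q j 1 0 := by
  by_cases e : p
  · rw [if_pos e, if_pos (h.1 e)]
  · rw [if_neg e, if_neg fun e' => e (h.2 e')]

/-- the class map -/
def cls (hr : Equivalence r) (x : α) : Quotient (⟨r, hr⟩ : Setoid α) := Quotient.mk _ x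

theorem cls_iff (hr : Equivalence r) (x y : α) : r x y ↔ cls hr x = cls hr y :=
  (Quotient.eq (r := (⟨r, hr⟩ : Setoid α))).symm

theorem cnt_cls (hr : Equivalence r) (X : Fin m → α) (z : α) :
    cnt r X z = cnt Eq (fun i => cls hr (X i)) (cls hr z) := by
  unfold cnt
  exact sum_congr rfl fun i _ => ite_congr_iff (cls_iff hr _ _)

theorem ip_cls (hr : Equivalence r) (X Y : Fin m → α) :
    ip r X Y = ip Eq (fun i => cls hr (X i)) (fun i => cls hr (Y i)) := by
  unfold ip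
  exact sum_congr rfl fun i _ => sum_congr rfl fun j _ => ite_congr_iff (cls_iff hr _ _)

theorem sm_cls (hr : Equivalence r) (θ : ℤ) (X Y : Fin m → α) :
    sm r θ X Y = sm Eq θ (fun i => cls hr (X i)) (fun i => cls hr (Y i)) := by
  unfold sm
  refine sum_congr rfl fun i _ => sum_congr rfl fun j _ => ite_congr_iff ?_
  rw [cnt_cls hr X, cnt_cls hr Y, cls_iff hr (X i)]

theorem En_cls (hr : Equivalence r) (X Y : Fin m → α) :
    En r X Y = En Eq (fun i => cls hr (X i)) (fun i => cls hr (Y i)) := by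
  unfold En
  rw [ip_cls hr X X, ip_cls hr Y Y, ip_cls hr X Y]

theorem En_symm (hr : Equivalence r) (X Y : Fin m → α) : En r X Y = En r Y X := by
  classical
  rw [En_cls hr, En_cls hr]
  generalize (fun i => cls hr (X i)) = x
  generalize (fun i => cls hr (Y i)) = y
  rw [En_eq x y (univ.image x ∪ univ.image y) (fun i => by simp) fun i => by simp,
    En_eq y x (univ.image x ∪ univ.image y) (fun i => by simp) fun i => by simp]
  exact sum_congr rfl fun c _ => by ring

theorem En_nonneg (hr : Equivalence r) (X Y : Fin m → α) : 0 ≤ En r X Y := by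
  rw [En_cls hr]
  exact le_trans (by simp) (le_En _ _ ∅)

theorem En_tri (hr : Equivalence r) (X Y Z : Fin m → α) :
    En r X Z ≤ 2 * En r X Y + 2 * En r Y Z := by
  classical
  rw [En_cls hr, En_cls hr, En_cls hr]
  generalize (fun i => cls hr (X i)) = x
  generalize (fun i => cls hr (Y i)) = y
  generalize (fun i => cls hr (Z i)) = z
  have hx : ∀ i, x i ∈ univ.image x ∪ (univ.image y ∪ univ.image z) := fun i => by simp
  have hy : ∀ i, y i ∈ univ.image x ∪ (univ.image y ∪ univ.image z) := fun i => by simp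
  have hz : ∀ i, z i ∈ univ.image x ∪ (univ.image y ∪ univ.image z) := fun i => by simp
  rw [En_eq x z _ hx hz, En_eq x y _ hx hy, En_eq y z _ hy hz, mul_sum, mul_sum,
    ← sum_add_distrib]
  exact sum_le_sum fun c _ => by
    nlinarith [sq_nonneg (cnt Eq x c - 2 * cnt Eq y c + cnt Eq z c)]

theorem En_ge (hr : Equivalence r) (X Y : Fin m → α) {ι : Type} (s : Finset ι) (z : ι → α)
    (hz : ∀ i ∈ s, ∀ j ∈ s, r (z i) (z j) → i = j) :
    ∑ i ∈ s, (cnt r X (z i) - cnt r Y (z i)) ^ 2 ≤ En r X Y := by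
  classical
  rw [En_cls hr]
  refine le_trans (le_of_eq ?_) (le_En _ _ (s.image fun i => cls hr (z i)))
  rw [sum_image fun i hi j hj h => hz i hi j hj ((cls_iff hr _ _).2 h)]
  exact sum_congr rfl fun i _ => by rw [cnt_cls hr X, cnt_cls hr Y]

theorem cnt_sum_le (hr : Equivalence r) (X : Fin m → α) {ι : Type} (s : Finset ι) (z : ι → α)
    (hz : ∀ i ∈ s, ∀ j ∈ s, r (z i) (z j) → i = j) : ∑ i ∈ s, cnt r X (z i) ≤ m := by
  classical
  have h1 : ∑ i ∈ s, cnt r X (z i)
      = ∑ c ∈ s.image fun i => cls hr (z i), cnt Eq (fun i => cls hr (X i)) c := by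
    rw [sum_image fun i hi j hj h => hz i hi j hj ((cls_iff hr _ _).2 h)]
    exact sum_congr rfl fun i _ => cnt_cls hr X _
  rw [h1, ← sum_cnt (fun i => cls hr (X i))
    ((s.image fun i => cls hr (z i)) ∪ univ.image fun i => cls hr (X i)) fun i => by simp]
  exact sum_le_sum_of_subset_of_nonneg subset_union_left fun c _ _ => cnt_nonneg _ c

theorem En_low (hr : Equivalence r) (X Y : Fin m → α) (θ : ℤ) (hθ : 8 ≤ θ) :
    θ * (2 * m - En r X Y) ≤ 2 * θ * sm r θ X Y + 4 * ip r X Y := by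
  rw [En_cls hr, sm_cls hr, ip_cls hr]
  exact En_low_eq _ _ θ hθ

theorem block_sum_aux {ι : Type} (k : ℕ) (φ : ι → ℤ) (c : ℤ)
    (h : ∀ Z : Finset ι, #Z = k → ∑ i ∈ Z, φ i ≤ c) (θ : ℕ) :
    ∀ S : Finset ι, #S = k * θ → ∑ i ∈ S, φ i ≤ θ * c := by
  classical
  induction θ with
  | zero =>
    intro S hS
    rw [mul_zero, card_eq_zero] at hS
    simp [hS]
  | succ t ih =>
    intro S hS
    obtain ⟨Z, hZ, hk⟩ := exists_subset_card_eq (s := S) (n := k) (by rw [hS]; nlinarith)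
    have h1 := ih (S \ Z) (by rw [card_sdiff_of_subset hZ, hS, hk, Nat.mul_succ]; omega)
    have h2 := h Z hk
    rw [← sum_sdiff hZ]
    push_cast
    linarith

/-- if all `k`-subsets have sum at most `c` and `k ∣ m`, the total is at most `(m / k) c` -/
theorem block_sum {k θ : ℕ} (hm : m = k * θ) (φ : Fin m → ℤ) (c : ℤ)
    (h : ∀ Z : Finset (Fin m), #Z = k → ∑ i ∈ Z, φ i ≤ c) : ∑ i, φ i ≤ θ * c :=
  block_sum_aux k φ c h θ univ (by simpa using hm)

end Pool.Agent.Lib.MP_e5111b_co.FF
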