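import Mathlib

namespace Pool.Agent.Lib.MP_e5111b_co.FF

open Finset

/-- A field with a derivation and a family of discrete valuations with product formula.
Convention: `w s 0 = 0`. -/
structure PS (K : Type) [Field K] where
  σ : Type
  w : σ → K → ℤ
  bad : σ → Prop
  D : K → K
  D_add : ∀ x y, D (x + y) = D x + D y
  D_mul : ∀ x y, D (x * y) = x * D y + y * D x
  w_zero : ∀ s, w s 0 = 0
  w_mul : ∀ s x y, x ≠ 0 → y ≠ 0 → w s (x * y) = w s x + w s y
  w_add : ∀ s x y, x ≠ 0 → y ≠ 0 → x + y ≠ 0 → min (w s x) (w s y) ≤ w s (x + y)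
  fin : ∀ x, (Function.support fun s => w s x).Finite
  prod : ∀ x, ∑ᶠ s, w s x = 0
  D1 : ∀ s x, D x ≠ 0 → w s x - 2 ≤ w s (D x)
  D1g : ∀ s x, ¬ bad s → D x ≠ 0 → w s x - 1 ≤ w s (D x)
  D2 : ∀ s x, ¬ bad s → D x ≠ 0 → 0 ≤ w s x → 0 ≤ w s (D x)
  cst : ∀ x, (∀ s, 0 ≤ w s x) → D x = 0
  cst' : ∀ s x, D x = 0 → w s x = 0

section comb

variable {α : Type} {m : ℕ}

open Classical in
/-- number of `X i` related to `z` -/
noncomputable def cnt (r : α → α → Prop) (X : Fin m → α) (z : α) : ℤ :=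
  ∑ i, if r (X i) z then 1 else 0

open Classical in
/-- number of related pairs -/
noncomputable def ip (r : α → α → Prop) (X Y : Fin m → α) : ℤ :=
  ∑ i, ∑ j, if r (X i) (Y j) then 1 else 0

/-- energy: sum over classes of the squared difference of the counts -/
noncomputable def En (r : α → α → Prop) (X Y : Fin m → α) : ℤ :=
  ip r X X + ip r Y Y - 2 * ip r X Y

open Classical in
/-- number of related pairs in classes with both counts at most `θ` -/
noncomputable def sm (r : α → α → Prop) (θ : ℤ) (X Y : Fin m → α) : ℤ :=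
  ∑ i, ∑ j, if r (X i) (Y j) ∧ cnt r X (X i) ≤ θ ∧ cnt r Y (X i) ≤ θ then 1 else 0

end comb

namespace PS

variable {K : Type} [Field K] (P : PS K) {m : ℕ}

def ge (s : P.σ) (n : ℤ) (x : K) : Prop := x = 0 ∨ n ≤ P.w s x

open Classical in
noncomputable def rho (s : P.σ) : ℤ := if P.bad s then 2 else 1

noncomputable def h (x : K) : ℤ := ∑ᶠ s, max 0 (-P.w s x)

def Bd (c : P.σ → ℤ) (B : ℤ) : Prop := ∀ S : Finset P.σ, ∑ s ∈ S, c s ≤ B

noncomputable def kap (s : P.σ) (x : K) : ℤ := max 0 (max (-P.w s x) (-P.w s (P.D x)))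

noncomputable def ck (x : K) : ℤ := ∑ᶠ s, P.kap s x

open Classical in
/-- at most `B` bad places -/
def NB (B : ℤ) : Prop := P.Bd (fun s => if P.bad s then 1 else 0) B

/-- congruence at place `p.1`, level `p.2` -/
def rel (p : P.σ × ℤ) (x y : K) : Prop := P.ge p.1 p.2 (x - y)

noncomputable def TT (X Y : Fin m → K) : ℤ := ∑ i, ∑ j, P.h (X i - Y j)

def St (X Y : Fin m → K) (N c : ℝ) : Prop :=
  ∀ L : Finset (P.σ × ℤ), ((∑ p ∈ L, En (P.rel p) X Y : ℤ) : ℝ) ≤ c * (N + 2 * m * #L)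

/-- small mass on the levels `≥ 1` -/
def Sm1 (θ : ℤ) (X Y : Fin m → K) (B : ℤ) : Prop :=
  ∀ L : Finset (P.σ × ℤ), (∀ p ∈ L, 1 ≤ p.2) → ∑ p ∈ L, sm (P.rel p) θ X Y ≤ B

/-- small mass on the levels `> rho` -/
def Sm2 (θ : ℤ) (X Y : Fin m → K) (B : ℤ) : Prop :=
  ∀ L : Finset (P.σ × ℤ), (∀ p ∈ L, P.rho p.1 < p.2) → ∑ p ∈ L, sm (P.rel p) θ X Y ≤ B

/-- the square condition for the pair `X`, `Y` and the affine map `y ↦ a y + b` -/
structure Sq (X Y : Set K) (a b : K) : Prop where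
  a0 : a ≠ 0
  sq : ∀ x ∈ X, ∀ y ∈ Y, IsSquare ((x - y) * (x - (a * y + b)))
  ne1 : ∀ x ∈ X, ∀ y ∈ Y, x ≠ y
  ne2 : ∀ x ∈ X, ∀ y ∈ Y, x ≠ a * y + b
  ne3 : ∀ x ∈ X, x ≠ a * x + b

end PS

section lin

variable {K : Type} [Field K] {V : Type} [AddCommGroup V] [Module K V]

def IndMod {ι : Type} (U : Submodule K V) (Z : Finset ι) (e : ι → V) : Prop :=
  ∀ c : ι → K, ∑ i ∈ Z, c i • e i ∈ U → ∀ i ∈ Z, c i = 0

open Classical in
def Spread (e : K → V) (J : ℕ) (G : Finset K) : Prop :=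
  ∀ U : Submodule K V, (∃ x ∈ G, e x ∉ U) → J * #{x ∈ G | e x ∈ U} < #G

def Le (e : K → V) (G H : Set K) : Prop := ∀ x ∈ G, e x ∈ Submodule.span K (e '' H)

/-- tensor power of `(1, p.1, p.2)` -/
def ev (d : ℕ) (p : K × K) : (Fin d → Fin 3) → K := fun μ => ∏ t, ![1, p.1, p.2] (μ t)

/-- box monomials -/
def box (n : ℕ) (p : K × K) : Fin n × Fin n → K := fun μ => p.1 ^ (μ.1 : ℕ) * p.2 ^ (μ.2 : ℕ)

def PS.E (P : PS K) (d : ℕ) (x : K) : (Fin d → Fin 3) → K := ev d (x, P.D x)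

def PS.Bx (P : PS K) (n : ℕ) (x : K) : Fin n × Fin n → K := box n (x, P.D x)

def PS.Gen (P : PS K) (d : ℕ) (G : Set K) : Prop :=
  ∀ p, ev d p ∈ Submodule.span K (P.E d '' G)

/-- all coordinates of `e` are monomials of degree at most `d` in `x`, `D x` -/
def PS.Mon (P : PS K) {M : Type} (d : ℕ) (e : K → M → K) : Prop :=
  ∀ μ, ∃ i j : ℕ, i + j ≤ d ∧ ∀ x, e x μ = x ^ i * P.D x ^ j

/-- the spans of `A` and `Y` differ, also after the map `y ↦ a y + b` -/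
def PS.Sep (P : PS K) (d : ℕ) (A Y : Set K) (a b : K) : Prop :=
  (¬ Le (P.E d) A Y ∧ ¬ Le (P.E d) A ((fun y => a * y + b) '' Y)) ∨
    (¬ Le (P.E d) Y A ∧ ¬ Le (P.E d) ((fun y => a * y + b) '' Y) A)

def PS.Eqv (P : PS K) (d : ℕ) (A Y : Set K) (a b : K) : Prop :=
  Le (P.E d) A Y ∧ Le (P.E d) Y A ∧ Le (P.E d) A ((fun y => a * y + b) '' Y) ∧
    Le (P.E d) ((fun y => a * y + b) '' Y) A

end lin

abbrev LS := HahnSeries ℤ ℂ

/-- Euler derivation `τ d/dτ` -/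
noncomputable def th (x : LS) : LS where
  coeff n := (n : ℂ) * x.coeff n
  isPWO_support' := x.isPWO_support'.mono fun n hn => by
    simp only [Function.mem_support] at hn ⊢
    exact right_ne_zero_of_mul hn

/-- A field with a family of embeddings into Laurent series. -/
structure EP (F : Type) [Field F] where
  σ : Type
  s0 : σ
  emb : σ → F →+* LS
  mul : σ → LS
  mul_ne : ∀ s, mul s ≠ 0
  D : F → F
  hD : ∀ s x, emb s (D x) = mul s * th (emb s x)
  fin : ∀ x, (Function.support fun s => (emb s x).order).Finite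
  prod : ∀ x, ∑ᶠ s, (emb s x).order = 0
  cst : ∀ x, (∀ s, 0 ≤ (emb s x).order) → D x = 0

end Pool.Agent.Lib.MP_e5111b_co.FF
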