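import Pool.Agent.Lib.MP_e5111b_co.FF.Val
import Pool.Agent.Lib.MP_e5111b_co.FF.DetA

namespace Pool.Agent.Lib.MP_e5111b_co.FF

open Finset

namespace PS

variable {K : Type} [Field K] (P : PS K)

theorem det_val (s : P.σ) : DVal (P.w s) :=
  ⟨P.w_mul s, fun _ _ _ h h' => ge.add (P := P) h h'⟩

theorem det {M : Type} [Fintype M] (d : ℕ) (e : K → M → K) (he : P.Mon d e) {ι κ : Type}
    (Z : Finset ι) (X : ι → K) (R : Finset κ) (Y : κ → K)
    (hind : IndMod (Submodule.span K (e '' (Y '' R))) Z fun i => e (X i)) (g : P.σ → ι → ℤ)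
    (hg : ∀ s, ∀ i ∈ Z, 0 ≤ g s i ∧ (g s i = 0 ∨
      ∃ q, e q ∈ Submodule.span K (e '' (Y '' R)) ∧ P.ge s (g s i + P.rho s) (X i - q))) :
    P.Bd (fun s => ∑ i ∈ Z, g s i) (d * (∑ i ∈ Z, P.ck (X i) + ∑ j ∈ R, P.ck (Y j))) := by
  classical
  have hr : Set.range (fun r : R => e (Y r)) = e '' (Y '' R) := by
    ext v
    simp
  obtain ⟨z, hz, h⟩ := det_core (fun i : Z => e (X i)) (fun r : R => e (Y r)) (fun c hc => by
    rw [hr] at hc
    funext i
    have := hind (fun j => if hj : j ∈ Z then c ⟨j, hj⟩ else 0)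
      (by rw [← Finset.sum_coe_sort]; simpa using hc) i i.2
    simpa using this)
  have mon : ∀ s x μ, P.ge s (-(d * P.kap s x)) (e x μ) := fun s x μ => by
    obtain ⟨i, j, h1, h2⟩ := he μ
    rw [h2]
    exact (P.det_val s).mono_ge (P.kap_nonneg s x) h1 (P.ge_kap s x) (P.ge_kap_D s x)
  refine P.pf hz (c := fun s => d * (∑ i ∈ Z, P.kap s (X i) + ∑ j ∈ R, P.kap s (Y j)))
    (fun s => sum_nonneg fun i hi => (hg s i hi).1)
    (((Bd.sum Z fun i _ => P.bd_kap (X i)).add (Bd.sum R fun j _ => P.bd_kap (Y j))).smul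
      (Int.natCast_nonneg d)) fun s => ?_
  have h1 := h (P.w s) (P.det_val s) (fun i => g s i - d * P.kap s (X i))
    (fun r => -(d * P.kap s (Y r)))
    (fun r => neg_nonpos.2 (mul_nonneg (Int.natCast_nonneg d) (P.kap_nonneg _ _)))
    (fun i => ?_) fun r μ => mon s _ μ
  · refine DGe.mono h1 (le_of_eq ?_)
    rw [sum_coe_sort Z fun i => g s i - d * P.kap s (X i),
      sum_coe_sort R fun r => -(d * P.kap s (Y r)), sum_sub_distrib, sum_neg_distrib, ← mul_sum,
      ← mul_sum]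
    ring
  · rw [hr]
    obtain ⟨h0, h2 | ⟨q, h2, h3⟩⟩ := hg s i i.2
    · exact ⟨0, zero_mem _, fun μ => by
        rw [h2, zero_sub, Pi.zero_apply, sub_zero]
        exact mon s (X i) μ⟩
    · refine ⟨e q, h2, fun μ => ?_⟩
      obtain ⟨a, b, h4, h5⟩ := he μ
      have h6 := h3.D
      rw [add_sub_cancel_right, P.D_sub] at h6
      simp only [h5]
      exact (P.det_val s).mono_sub (P.kap_nonneg s _) h0 h4 (P.ge_kap s _) (P.ge_kap_D s _)
        (h3.mono (by have := P.one_le_rho s; omega)) h6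

end PS

end Pool.Agent.Lib.MP_e5111b_co.FF
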