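import Pool.Agent.Lib.MP_e5111b_co.FF.Val

namespace Pool.Agent.Lib.MP_e5111b_co.FF

open Finset

theorem PS.end_one {K : Type} [Field K] (P : PS K) {s : P.σ} (hb : ¬ P.bad s) {x g g' : K}
    (hx : P.D x = 0) (hne : g ≠ g') (hD : P.D g ≠ 0) (h1 : g ≠ x) (h2 : g' ≠ x)
    (h3 : IsSquare ((g - x) * (g' - x))) :
    max 0 (P.w s (g - x)) ≤
      2 * max 0 (P.w s (P.D g)) + max 0 (P.w s (g - g')) + max 0 (-P.w s g') := by
  have e1 : P.D (g - x) = P.D g := by rw [P.D_sub, hx, sub_zero]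
  have h4 := P.D1g s (g - x) hb (by rwa [e1])
  rw [e1] at h4
  have n1 := sub_ne_zero.mpr h1
  have n2 := sub_ne_zero.mpr h2
  obtain ⟨r, hr⟩ := h3
  have hr0 : r ≠ 0 := by
    rintro rfl
    exact mul_ne_zero n1 n2 (by rw [hr, mul_zero])
  have h5 := P.w_mul s _ _ n1 n2
  rw [hr, P.w_mul s r r hr0 hr0] at h5
  by_cases h6 : P.w s (g - x) = 1
  swap
  · omega
  rcases lt_trichotomy (P.w s (g' - x)) 0 with h7 | h7 | h7
  · have h8 : P.ge s (P.w s (g' - x) + 1) x := Or.inr (by rw [P.cst' s x hx]; omega)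
    have h9 := (PS.w_add_eq n2 h8).2
    rw [sub_add_cancel] at h9
    omega
  · omega
  · have h8 : P.ge s 1 ((g - x) - (g' - x)) :=
      PS.ge.sub (Or.inr h6.ge) (Or.inr (by omega))
    rw [sub_sub_sub_cancel_right, PS.ge_iff (sub_ne_zero.mpr hne)] at h8
    omega

theorem PS.end_key {K : Type} [Field K] (P : PS K) (hb : ∀ s, ¬ P.bad s) (G : Finset K)
    (h8 : 8 ≤ #G) (hG : ∀ x ∈ G, P.D x = 0) (g g' : K) (hne : g ≠ g')
    (hs : ∀ x ∈ G, g ≠ x ∧ g' ≠ x ∧ IsSquare ((g - x) * (g' - x))) :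
    3 * P.h g ≤ 2 * P.h g' := by
  classical
  by_cases hD : P.D g = 0
  · have := P.h_nonneg g'
    rw [P.h_of_D hD]; omega
  have loc : ∀ s, ∑ x ∈ G, max 0 (P.w s (g - x)) ≤
      2 * max 0 (P.w s (P.D g)) + max 0 (P.w s (g - g')) + max 0 (-P.w s g') := by
    intro s
    by_cases hex : ∃ x ∈ G, 0 < P.w s (g - x)
    · obtain ⟨x, hx, hpos⟩ := hex
      rw [sum_eq_single_of_mem x hx]
      · exact P.end_one (hb s) (hG x hx) hne hD (hs x hx).1 (hs x hx).2.1 (hs x hx).2.2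
      · intro y hy hyx
        by_contra hc
        have h1 : P.ge s 1 ((g - x) - (g - y)) :=
          PS.ge.sub (Or.inr (by omega)) (Or.inr (by omega))
        rw [sub_sub_sub_cancel_left, PS.ge_iff (sub_ne_zero.mpr hyx),
          P.cst' s _ (by rw [P.D_sub, hG y hy, hG x hx, sub_zero])] at h1
        omega
    · rw [sum_eq_zero]
      · omega
      · intro x hx
        have : ¬ 0 < P.w s (g - x) := fun h => hex ⟨x, hx, h⟩
        omega
  have hB := (((P.bd_pos (P.D g)).smul (a := 2) (by norm_num)).add (P.bd_pos (g - g'))).add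
    (P.bd_neg g') (G.biUnion fun x => P.supp (g - x))
  have h1 : ∑ x ∈ G, P.h (g - x) ≤ 2 * P.h (P.D g) + P.h (g - g') + P.h g' := by
    refine le_trans ?_ ((sum_le_sum fun s _ => loc s).trans hB)
    rw [sum_comm]
    exact sum_le_sum fun x hx =>
      (P.h_eq' _ _ (subset_biUnion_of_mem (fun x => P.supp (g - x)) hx)).le
  have h2 : ∑ _x ∈ G, P.h g ≤ ∑ x ∈ G, P.h (g - x) := sum_le_sum fun x hx => by
    have := P.h_add (g - x) x
    rwa [sub_add_cancel, P.h_of_D (hG x hx), add_zero] at this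
  rw [sum_const, nsmul_eq_mul] at h2
  have h3 : P.NB 0 := fun S => by simp [hb]
  have h4 := P.ck_le g h3
  have h5 := P.h_D_le g
  have h6 := P.h_sub g g'
  have h7 := P.h_nonneg g
  have h9 : (8 : ℤ) * P.h g ≤ #G * P.h g :=
    mul_le_mul_of_nonneg_right (by exact_mod_cast h8) h7
  omega

theorem PS.endgame {K : Type} [Field K] (P : PS K) (hb : ∀ s, ¬ P.bad s) (G : Finset K)
    (h8 : 8 ≤ #G) (hG : ∀ x ∈ G, P.D x = 0) (g g' : K) (hne : g ≠ g')
    (hs : ∀ x ∈ G, g ≠ x ∧ g' ≠ x ∧ IsSquare ((g - x) * (g' - x))) :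
    P.D g = 0 ∧ P.D g' = 0 := by
  have h1 := P.end_key hb G h8 hG g g' hne hs
  have h2 := P.end_key hb G h8 hG g' g hne.symm fun x hx =>
    ⟨(hs x hx).2.1, (hs x hx).1, by rw [mul_comm]; exact (hs x hx).2.2⟩
  have := P.h_nonneg g
  have := P.h_nonneg g'
  exact ⟨P.D_of_h (by omega), P.D_of_h (by omega)⟩

end Pool.Agent.Lib.MP_e5111b_co.FF
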