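import Pool.Agent.Lib.MP_e5111b_co.FF.Laur

/-! The places of a quadratic extension. -/

namespace Pool.Agent.Lib.MP_e5111b_co.FF

open Finset

section ext

open HahnSeries

variable {F : Type} [Field F]

abbrev QA (δ : F) : Type := QuadraticAlgebra F δ 0

/-- Extension of an embedding by the choice of a square root. -/
noncomputable def qhom {δ : F} (φ : F →+* LS) (r : LS) (hr : r * r = φ δ) : QA δ →+* LS where
  toFun z := φ z.re + φ z.im * r
  map_one' := by simp [QuadraticAlgebra.re_one, QuadraticAlgebra.im_one]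
  map_zero' := by simp
  map_add' z w := by simp; ring
  map_mul' z w := by
    simp only [QuadraticAlgebra.re_mul, QuadraticAlgebra.im_mul, map_add, map_mul, map_zero, ← hr]
    ring

theorem qhom_apply {δ : F} (φ : F →+* LS) (r : LS) (hr : r * r = φ δ) (z : QA δ) :
    qhom φ r hr z = φ z.re + φ z.im * r := rfl

/-- Extension of the derivation. -/
def qD (D : F → F) (δ : F) (z : QA δ) : QA δ := ⟨D z.re, D z.im + z.im * D δ / (2 * δ)⟩

theorem qhom_D {δ : F} (hδ : δ ≠ 0) (φ : F →+* LS) (r : LS) (hr : r * r = φ δ) (D : F → F)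
    (m : LS) (h : ∀ z, φ (D z) = m * th (φ z)) (z : QA δ) :
    qhom φ r hr (qD D δ z) = m * th (qhom φ r hr z) := by
  have h0 : r ≠ 0 := by
    rintro rfl
    exact (map_ne_zero φ).mpr hδ (by rw [← hr, mul_zero])
  have : CharZero LS := algebraRat.charZero LS
  simp only [qhom_apply, qD, map_add, map_div₀, map_mul, map_ofNat, h, th_add, th_mul, ← hr]
  field_simp
  ring

variable (P : EP F) (δ : F)

open Classical in
/-- The embedding of the base field used below a place of the extension. -/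
noncomputable def EP.bs (s : P.σ) : F →+* LS :=
  if Even (P.emb s δ).order then P.emb s else dbl.comp (P.emb s)

open Classical in
noncomputable def EP.bm (s : P.σ) : LS :=
  if Even (P.emb s δ).order then P.mul s else dbl (P.mul s) / 2

theorem EP.bs_even {s : P.σ} (h : Even (P.emb s δ).order) (z : F) : P.bs δ s z = P.emb s z := by
  simp [EP.bs, h]

theorem EP.bs_odd {s : P.σ} (h : ¬ Even (P.emb s δ).order) (z : F) :
    P.bs δ s z = dbl (P.emb s z) := by
  rw [EP.bs, if_neg h]; rfl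

theorem EP.bm_even {s : P.σ} (h : Even (P.emb s δ).order) : P.bm δ s = P.mul s := by
  simp [EP.bm, h]

theorem EP.bm_odd {s : P.σ} (h : ¬ Even (P.emb s δ).order) : P.bm δ s = dbl (P.mul s) / 2 := by
  rw [EP.bm, if_neg h]

theorem EP.bm_ne (s : P.σ) : P.bm δ s ≠ 0 := by
  by_cases h : Even (P.emb s δ).order
  · rw [P.bm_even δ h]; exact P.mul_ne s
  · rw [P.bm_odd δ h]; exact div_ne_zero ((map_ne_zero dbl).mpr (P.mul_ne s)) ls_two_ne

theorem EP.bm_order_odd {s : P.σ} (h : ¬ Even (P.emb s δ).order) :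
    (P.bm δ s).order = 2 * (P.mul s).order := by
  rw [P.bm_odd δ h, div_eq_mul_inv,
    ord_mul ((map_ne_zero dbl).mpr (P.mul_ne s)) (inv_ne_zero ls_two_ne), ord_inv, ls_two_order, dbl_order]
  ring

theorem EP.bs_D (s : P.σ) (z : F) : P.bs δ s (P.D z) = P.bm δ s * th (P.bs δ s z) := by
  by_cases h : Even (P.emb s δ).order
  · rw [P.bs_even δ h, P.bs_even δ h, P.bm_even δ h, P.hD]
  · rw [P.bs_odd δ h, P.bs_odd δ h, P.bm_odd δ h, P.hD, map_mul, th_dbl]
    have := ls_two_ne
    field_simp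

theorem EP.bs_sq (s : P.σ) : ∃ r : LS, r * r = P.bs δ s δ := by
  by_cases h0 : P.bs δ s δ = 0
  · exact ⟨0, by rw [h0, mul_zero]⟩
  apply sq_of_even h0
  by_cases h : Even (P.emb s δ).order
  · rwa [P.bs_even δ h]
  · rw [P.bs_odd δ h, dbl_order]; exact even_two_mul _

/-- A square root of `δ` at the place, with a sign. -/
noncomputable def EP.rt (s : P.σ) (e : Bool) : LS :=
  if e then (P.bs_sq δ s).choose else - (P.bs_sq δ s).choose

theorem EP.rt_sq (s : P.σ) (e : Bool) : P.rt δ s e * P.rt δ s e = P.bs δ s δ := by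
  cases e
  · simp only [EP.rt, Bool.false_eq_true, if_false]
    linear_combination (P.bs_sq δ s).choose_spec
  · simp only [EP.rt, if_true]
    exact (P.bs_sq δ s).choose_spec

theorem EP.rt_not (s : P.σ) (e : Bool) : P.rt δ s (!e) = - P.rt δ s e := by
  cases e <;> simp [EP.rt]

/-- The two extensions of a place. -/
noncomputable def EP.qs (s : P.σ) (e : Bool) : QA δ →+* LS :=
  qhom (P.bs δ s) (P.rt δ s e) (P.rt_sq δ s e)

theorem EP.qs_apply (s : P.σ) (e : Bool) (z : QA δ) :
    P.qs δ s e z = P.bs δ s z.re + P.bs δ s z.im * P.rt δ s e := rfl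

theorem EP.qs_star (s : P.σ) (e : Bool) (z : QA δ) :
    P.qs δ s e (star z) = P.qs δ s (!e) z := by
  have h1 : (star z).re = z.re := by simp
  have h2 : (star z).im = - z.im := by simp
  rw [EP.qs_apply, EP.qs_apply, EP.rt_not, h1, h2, map_neg]; ring

theorem EP.qs_alg (s : P.σ) (e : Bool) (a : F) :
    P.qs δ s e (algebraMap F (QA δ) a) = P.bs δ s a := by
  simp [EP.qs_apply]

theorem EP.qs_norm (s : P.σ) (e : Bool) (z : QA δ) :
    P.qs δ s e z * P.qs δ s (!e) z = P.bs δ s z.norm := by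
  rw [← P.qs_star, ← map_mul, ← QuadraticAlgebra.algebraMap_norm_eq_mul_star, P.qs_alg]

theorem EP.qs_trace (s : P.σ) (e : Bool) (z : QA δ) :
    P.qs δ s e z + P.qs δ s (!e) z = 2 * P.bs δ s z.re := by
  rw [EP.qs_apply, EP.qs_apply, EP.rt_not]; ring

theorem EP.rt_order {s : P.σ} (h : ¬ Even (P.emb s δ).order) (e : Bool) :
    P.rt δ s e ≠ 0 ∧ (P.rt δ s e).order = (P.emb s δ).order := by
  have h0 : P.emb s δ ≠ 0 := by
    intro h0; rw [h0] at h; simp at h
  have h1 := P.rt_sq δ s e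
  rw [P.bs_odd δ h] at h1
  have h2 : P.rt δ s e ≠ 0 := by
    intro h2; rw [h2, mul_zero] at h1; exact (map_ne_zero dbl).mpr h0 h1.symm
  have h3 := ord_mul h2 h2
  rw [h1, dbl_order] at h3
  exact ⟨h2, by omega⟩

theorem EP.im_odd {s : P.σ} (h : ¬ Even (P.emb s δ).order) (e : Bool) {b : F} (hb : b ≠ 0) :
    ¬ Even (P.bs δ s b * P.rt δ s e).order := by
  obtain ⟨h1, h2⟩ := P.rt_order δ h e
  rw [ord_mul ((map_ne_zero _).mpr hb) h1, h2, P.bs_odd δ h, dbl_order, Int.even_add]
  simp [h]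

theorem EP.qs_odd {s : P.σ} (h : ¬ Even (P.emb s δ).order) (e : Bool) (z : QA δ) :
    (P.qs δ s (!e) z).order = (P.qs δ s e z).order := by
  have h0 : P.qs δ s (!e) z = P.bs δ s z.re - P.bs δ s z.im * P.rt δ s e := by
    rw [EP.qs_apply, EP.rt_not]; ring
  rw [h0, EP.qs_apply]
  symm
  apply ord_add_eq_sub
  intro _ h2 h3
  have hb : z.im ≠ 0 := by
    intro hb; rw [hb, map_zero, zero_mul] at h2; exact h2 rfl
  apply P.im_odd δ h e hb
  rw [← h3, P.bs_odd δ h, dbl_order]; exact even_two_mul _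

theorem EP.bs_order_nonneg (s : P.σ) (a : F) :
    0 ≤ (P.bs δ s a).order ↔ 0 ≤ (P.emb s a).order := by
  by_cases h : Even (P.emb s δ).order
  · rw [P.bs_even δ h]
  · rw [P.bs_odd δ h, dbl_order]; omega

theorem EP.bs_order_zero (s : P.σ) (a : F) :
    (P.bs δ s a).order = 0 ↔ (P.emb s a).order = 0 := by
  by_cases h : Even (P.emb s δ).order
  · rw [P.bs_even δ h]
  · rw [P.bs_odd δ h, dbl_order]; omega

variable [Fact (∀ r : F, r ^ 2 ≠ δ + 0 * r)]

theorem delta_ne : δ ≠ 0 := by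
  rintro rfl
  exact Fact.out (p := ∀ r : F, r ^ 2 ≠ 0 + 0 * r) 0 (by simp)

theorem EP.qs_sum (s : P.σ) (e : Bool) (z : QA δ) :
    (P.qs δ s e z).order + (P.qs δ s (!e) z).order = (P.bs δ s z.norm).order := by
  by_cases hz : z = 0
  · simp [hz]
  rw [← P.qs_norm δ s e, ord_mul ((map_ne_zero _).mpr hz) ((map_ne_zero _).mpr hz)]

theorem EP.qs_odd_order {s : P.σ} (h : ¬ Even (P.emb s δ).order) (e : Bool) (z : QA δ) :
    (P.qs δ s e z).order = (P.emb s z.norm).order := by
  have := P.qs_sum δ s e z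
  rw [P.qs_odd δ h, P.bs_odd δ h, dbl_order] at this
  omega

theorem EP.qs_fin (z : QA δ) : {p : P.σ × Bool | (P.qs δ p.1 p.2 z).order ≠ 0}.Finite := by
  have hf := (((P.fin z.re).union (P.fin z.im)).union (P.fin δ)).union (P.fin z.norm)
  refine (hf.prod (Set.finite_univ (α := Bool))).subset ?_
  rintro ⟨s, e⟩ hp
  refine ⟨?_, trivial⟩
  by_contra hc
  simp only [Set.mem_union, Function.mem_support, not_or, not_not] at hc
  obtain ⟨⟨⟨h1, h2⟩, h3⟩, h4⟩ := hc
  have hr : ∀ e, (P.rt δ s e).order = 0 := by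
    intro e
    have h5 := P.rt_sq δ s e
    have h6 : P.rt δ s e ≠ 0 := by
      intro h6; rw [h6, mul_zero] at h5
      exact (map_ne_zero _).mpr (delta_ne δ) h5.symm
    have h7 := ord_mul h6 h6
    rw [h5, (P.bs_order_zero δ s δ).mpr h3] at h7
    omega
  have hn : ∀ e, 0 ≤ (P.qs δ s e z).order := fun e =>
    ord_add_nonneg ((P.bs_order_zero δ s _).mpr h1).ge
      (ord_mul_nonneg ((P.bs_order_zero δ s _).mpr h2).ge (hr e).ge)
  have h8 := P.qs_sum δ s e z
  rw [(P.bs_order_zero δ s _).mpr h4] at h8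
  have := hn e
  have := hn (!e)
  exact hp (by simp only; omega)

/-- Index set of the places of the extension. -/
def EP.qi : Type := {p : P.σ × Bool // Even (P.emb p.1 δ).order ∨ p.2 = true}

theorem EP.qs_prod (z : QA δ) : ∑ᶠ p : P.qi δ, (P.qs δ p.1.1 p.1.2 z).order = 0 := by
  classical
  have h1 : ∑ᶠ p : P.qi δ, (P.qs δ p.1.1 p.1.2 z).order =
      ∑ᶠ p : P.σ × Bool, if Even (P.emb p.1 δ).order ∨ p.2 = true then
        (P.qs δ p.1 p.2 z).order else 0 := by
    have := finsum_subtype_eq_finsum_cond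
      (f := fun p : P.σ × Bool => (P.qs δ p.1 p.2 z).order)
      (fun p : P.σ × Bool => Even (P.emb p.1 δ).order ∨ p.2 = true)
    refine this.trans (finsum_congr fun p => ?_)
    rw [finsum_eq_if]
  rw [h1, finsum_curry]
  · refine Eq.trans (finsum_congr fun s => ?_) (P.prod z.norm)
    rw [finsum_eq_sum_of_fintype, Fintype.sum_bool]
    by_cases h : Even (P.emb s δ).order
    · simp only [h, true_or, if_true]
      rw [← P.bs_even δ h, ← P.qs_sum δ s true z]; rfl
    · simp only [h, false_or, if_true, Bool.false_eq_true, if_false, add_zero]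
      exact P.qs_odd_order δ h true z
  · refine (P.qs_fin δ z).subset fun p hp h0 => hp ?_
    simp only [h0, ite_self]

theorem EP.qs_const (z : QA δ) (h : ∀ p : P.qi δ, 0 ≤ (P.qs δ p.1.1 p.1.2 z).order) :
    qD P.D δ z = 0 := by
  have := P.charZero
  have hn : ∀ s e, 0 ≤ (P.qs δ s e z).order := by
    intro s e
    by_cases h1 : Even (P.emb s δ).order
    · exact h ⟨(s, e), Or.inl h1⟩
    · rw [P.qs_odd_order δ h1, ← P.qs_odd_order δ h1 true]; exact h ⟨(s, true), Or.inr rfl⟩
  have h1 : P.D z.re = 0 := by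
    refine P.cst _ fun s => (P.bs_order_nonneg δ s _).mp ?_
    have h2 := ord_add_nonneg (hn s true) (hn s (!true))
    rw [P.qs_trace] at h2
    by_cases h3 : P.bs δ s z.re = 0
    · simp [h3]
    · rwa [ord_mul ls_two_ne h3, ls_two_order, zero_add] at h2
  have h2 : P.D z.norm = 0 := by
    refine P.cst _ fun s => (P.bs_order_nonneg δ s _).mp ?_
    rw [← P.qs_norm δ s true]; exact ord_mul_nonneg (hn _ _) (hn _ _)
  have h3 : z.norm = z.re * z.re - δ * (z.im * z.im) := by
    rw [QuadraticAlgebra.norm_def]; ring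
  rw [h3, P.D_sub, P.D_mul, P.D_mul, P.D_mul, h1] at h2
  have hδ := delta_ne δ
  ext
  · exact h1
  · show P.D z.im + z.im * P.D δ / (2 * δ) = 0
    by_cases hb : z.im = 0
    · have : P.D 0 = 0 := P.cst 0 fun s => by simp
      rw [hb, this]; simp
    · have : z.im * (P.D z.im * (2 * δ) + z.im * P.D δ) = 0 := by linear_combination -h2
      have h4 := (mul_eq_zero.mp this).resolve_left hb
      field_simp
      linear_combination h4

/-- The quadratic step. -/
noncomputable def EP.quad : EP (QA δ) where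
  σ := P.qi δ
  s0 := ⟨(P.s0, true), Or.inr rfl⟩
  D := qD P.D δ
  emb p := P.qs δ p.1.1 p.1.2
  mul p := P.bm δ p.1.1
  mul_ne _ := P.bm_ne δ _
  hD p z := qhom_D (delta_ne δ) _ _ _ _ _ (P.bs_D δ p.1.1) z
  fin z := Set.Finite.preimage (f := Subtype.val) Subtype.val_injective.injOn (P.qs_fin δ z)
  prod := P.qs_prod δ
  cst := P.qs_const δ

end ext

open QuadraticAlgebra in
theorem EP.ext {F : Type} [Field F] (Q : EP F) (δ : F) [Fact (∀ r, r ^ 2 ≠ δ + 0 * r)] :
    ∃ Q' : EP (QuadraticAlgebra F δ 0),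
      (∀ x : F, Q'.D (algebraMap F _ x) = algebraMap F _ (Q.D x)) ∧
      (∀ z, star (Q'.D z) = Q'.D (star z)) ∧
      ∀ p, ∃ s,
        ((Q'.mul p).order = (Q.mul s).order ∧ 2 * (Q'.emb p omega).order = (Q.emb s δ).order) ∨
        (Odd (Q.emb s δ).order ∧ (Q'.mul p).order = 2 * (Q.mul s).order ∧
          (Q'.emb p omega).order = (Q.emb s δ).order ∧
          ∀ z, star z ≠ z → Odd (Q'.emb p (z - star z)).order) := by
  have hneg : ∀ x, Q.D (-x) = - Q.D x := fun x => by
    rw [← zero_sub, Q.D_sub, Q.D_zero, zero_sub]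
  refine ⟨Q.quad δ, fun x => ?_, fun z => ?_, fun p => ⟨p.1.1, ?_⟩⟩
  · show qD Q.D δ _ = _
    ext <;> simp [qD, Q.D_zero]
  · show star (qD Q.D δ z) = qD Q.D δ (star z)
    ext
    · simp [qD]
    · simp only [qD, im_star, hneg]; ring
  · obtain ⟨⟨s, e⟩, hp⟩ := p
    have ho : Q.qs δ s e omega = Q.rt δ s e := by simp [EP.qs_apply]
    show ((Q.bm δ s).order = _ ∧ 2 * (Q.qs δ s e omega).order = _) ∨
      (_ ∧ (Q.bm δ s).order = _ ∧ (Q.qs δ s e omega).order = _ ∧
        ∀ z, star z ≠ z → Odd (Q.qs δ s e (z - star z)).order)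
    rw [ho]
    by_cases h : Even (Q.emb s δ).order
    · refine Or.inl ⟨by rw [Q.bm_even δ h], ?_⟩
      have h5 := Q.rt_sq δ s e
      have h6 : Q.rt δ s e ≠ 0 := by
        intro h6; rw [h6, mul_zero] at h5
        exact (map_ne_zero _).mpr (delta_ne δ) h5.symm
      have h7 := ord_mul h6 h6
      rw [h5, Q.bs_even δ h] at h7
      show _ = (Q.emb s δ).order
      omega
    · refine Or.inr ⟨Int.not_even_iff_odd.mp h, Q.bm_order_odd δ h, (Q.rt_order δ h e).2, ?_⟩
      intro z hz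
      have := Q.charZero
      have hb : 2 * z.im ≠ 0 := by
        refine mul_ne_zero two_ne_zero fun hb => hz ?_
        ext <;> simp [hb]
      have h1 : (z - star z).re = 0 := by simp
      have h2 : (z - star z).im = 2 * z.im := by simp [two_mul]
      rw [EP.qs_apply, h1, h2, map_zero, zero_add]
      exact Int.not_even_iff_odd.mp (Q.im_odd δ h e hb)

end Pool.Agent.Lib.MP_e5111b_co.FF
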