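import Pool.Agent.Lib.MP_e5111b_co.FF.Defs

/-! Laurent series kit: Euler operator, square roots, the substitution `τ ↦ τ²`. -/

namespace Pool.Agent.Lib.MP_e5111b_co.FF

open Finset

section laur

open HahnSeries

theorem th_coeff (x : LS) (n : ℤ) : (th x).coeff n = (n : ℂ) * x.coeff n := rfl

theorem th_supp (x : LS) : (th x).support ⊆ x.support := by
  intro n hn
  simp only [HahnSeries.mem_support, th_coeff, ne_eq, mul_eq_zero, not_or] at hn ⊢
  exact hn.2

theorem th_add (x y : LS) : th (x + y) = th x + th y := by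
  ext n; simp [th_coeff, mul_add]

theorem th_sub (x y : LS) : th (x - y) = th x - th y := by
  ext n; simp [th_coeff, mul_sub]

theorem th_mul (x y : LS) : th (x * y) = x * th y + y * th x := by
  ext n
  rw [mul_comm y, coeff_add, coeff_mul_left' x.isPWO_support (th_supp x),
    coeff_mul_right' y.isPWO_support (th_supp y), th_coeff, coeff_mul, Finset.mul_sum,
    ← Finset.sum_add_distrib]
  refine Finset.sum_congr rfl fun p hp => ?_
  have h := (Finset.mem_antidiagonal.mp hp).2.2
  simp only [th_coeff]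
  rw [← h]; push_cast; ring

theorem th_single' (n : ℤ) (a : ℂ) : th (single n a) = single n ((n : ℂ) * a) := by
  ext k
  by_cases h : k = n
  · subst h; simp [th_coeff]
  · simp [th_coeff, coeff_single_of_ne h]

theorem th_C (a : ℂ) : th (HahnSeries.C a) = 0 := by
  rw [C_apply, th_single']; simp

theorem th_single (n : ℤ) : th (HahnSeries.single n 1) = (n : LS) * HahnSeries.single n 1 := by
  have : (n : LS) = C (n : ℂ) := by rw [map_intCast]
  rw [th_single', this, C_apply, single_mul_single, zero_add]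

theorem order_le_th (x : LS) (h : th x ≠ 0) : x.order ≤ (th x).order := by
  rw [le_order_iff_forall h]
  intro j hj
  rw [th_coeff, coeff_eq_zero_of_lt_order hj, mul_zero]

theorem one_le_order_th (x : LS) (h : th x ≠ 0) (h0 : 0 ≤ x.order) : 1 ≤ (th x).order := by
  rw [le_order_iff_forall h]
  intro j hj
  rcases lt_or_eq_of_le (show j ≤ 0 by omega) with h1 | h1
  · rw [th_coeff, coeff_eq_zero_of_lt_order (lt_of_lt_of_le h1 h0), mul_zero]
  · simp [th_coeff, h1]

theorem order_eq_zero_of_th (x : LS) (h : th x = 0) : x.order = 0 := by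
  by_cases hx : x = 0
  · simp [hx]
  have h1 : (th x).coeff x.order = 0 := by rw [h]; simp
  rw [th_coeff] at h1
  rcases mul_eq_zero.mp h1 with h2 | h2
  · exact_mod_cast h2
  · exact absurd (coeff_order_eq_zero.mp h2) hx

theorem ord_mul {x y : LS} (hx : x ≠ 0) (hy : y ≠ 0) : (x * y).order = x.order + y.order :=
  order_mul hx hy

theorem ord_inv (x : LS) : x⁻¹.order = - x.order := by
  by_cases hx : x = 0
  · simp [hx]
  have := ord_mul hx (inv_ne_zero hx)
  rw [mul_inv_cancel₀ hx, order_one] at this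
  omega

/-- A series close to `1` is a square. -/
theorem sq_near_one {x : LS} (h : 0 < (x - 1).orderTop) : ∃ r : LS, r * r = x := by
  refine ⟨PowerSeries.heval (x - 1) (PowerSeries.binomialSeries ℂ (1 / 2 : ℂ)), ?_⟩
  rw [← map_mul, ← PowerSeries.binomialSeries_add]
  have : (1 / 2 : ℂ) + 1 / 2 = ((1 : ℕ) : ℂ) := by norm_num
  rw [this, PowerSeries.binomialSeries_nat, pow_one, map_add, map_one, PowerSeries.heval_X _ h]
  ring

theorem sq_of_even {x : LS} (hx : x ≠ 0) (he : Even x.order) : ∃ r : LS, r * r = x := by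
  obtain ⟨k, hk⟩ := he
  obtain ⟨c, hc⟩ := IsAlgClosed.exists_eq_mul_self (x.coeff x.order)
  have hc0 : c ≠ 0 := by
    rintro rfl
    exact hx (coeff_order_eq_zero.mp (by simpa using hc))
  set s : LS := single (-k) c⁻¹ with hs
  have hs0 : s ≠ 0 := single_ne_zero (inv_ne_zero hc0)
  have hss : s * s = single (-x.order) (c⁻¹ * c⁻¹) := by
    rw [hs, single_mul_single, hk, neg_add]
  have hne : x * (s * s) ≠ 0 := mul_ne_zero hx (mul_ne_zero hs0 hs0)
  have ho : (s * s).order = -x.order := by
    rw [hss, order_single (mul_ne_zero (inv_ne_zero hc0) (inv_ne_zero hc0))]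
  have h1 : 0 < (x * (s * s) - 1).orderTop := by
    rw [orderTop_self_sub_one_pos_iff]
    have h0 : (x * (s * s)).order = 0 := by
      rw [ord_mul hx (mul_ne_zero hs0 hs0), ho]; ring
    refine ⟨by rw [← order_eq_orderTop_of_ne_zero hne, h0]; rfl, ?_⟩
    rw [leadingCoeff_mul, hss, leadingCoeff_of_single, leadingCoeff_eq, hc]
    field_simp
  obtain ⟨r, hr⟩ := sq_near_one h1
  refine ⟨r * s⁻¹, ?_⟩
  have : r * s⁻¹ * (r * s⁻¹) = r * r * (s * s)⁻¹ := by field_simp
  rw [this, hr]; field_simp

/-- The substitution `τ ↦ τ²`. -/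
noncomputable def dbl : LS →+* LS :=
  embDomainRingHom ((2 : ℤ) • AddMonoidHom.id ℤ) (by
    intro a b h
    simpa using h) (by intro a b; simp)

theorem dbl_coeff_two (x : LS) (n : ℤ) : (dbl x).coeff (2 * n) = x.coeff n :=
  embDomain_coeff (a := n)

theorem dbl_coeff_odd (x : LS) (n : ℤ) (h : ¬ Even n) : (dbl x).coeff n = 0 := by
  refine embDomain_of_notMem_range ?_
  rintro ⟨k, hk⟩
  have : 2 * k = n := hk
  exact h ⟨k, by omega⟩

theorem dbl_order (x : LS) : (dbl x).order = 2 * x.order := by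
  by_cases hx : x = 0
  · simp [hx]
  have hd : dbl x ≠ 0 := (map_ne_zero dbl).mpr hx
  apply le_antisymm
  · apply order_le_of_coeff_ne_zero
    rw [dbl_coeff_two]; exact fun h => hx (coeff_order_eq_zero.mp h)
  · rw [le_order_iff_forall hd]
    intro j hj
    by_cases he : Even j
    · obtain ⟨k, rfl⟩ := he
      rw [← two_mul, dbl_coeff_two]
      exact coeff_eq_zero_of_lt_order (by omega)
    · exact dbl_coeff_odd x j he

theorem th_dbl (x : LS) : th (dbl x) = 2 * dbl (th x) := by
  ext j
  rw [two_mul, coeff_add, th_coeff]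
  by_cases he : Even j
  · obtain ⟨k, rfl⟩ := he
    rw [← two_mul, dbl_coeff_two, dbl_coeff_two, th_coeff]; push_cast; ring
  · simp [dbl_coeff_odd _ j he]

theorem exists_psi : ∃ ψ : LS →+* LS, (∀ x, (ψ x).order = 2 * x.order) ∧
    ∀ x, th (ψ x) = 2 * ψ (th x) := ⟨dbl, dbl_order, th_dbl⟩

theorem exists_sqrt (x : LS) (h : Even x.order) : ∃ r, r * r = x := by
  by_cases hx : x = 0
  · exact ⟨0, by rw [hx, mul_zero]⟩
  · exact sq_of_even hx h

theorem ls_two_ne : (2 : LS) ≠ 0 := by
  have : CharZero LS := algebraRat.charZero LS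
  exact two_ne_zero

theorem ls_two_order : (2 : LS).order = 0 := by
  have : (2 : LS) = C (2 : ℂ) := by rw [map_ofNat]
  rw [this, order_C]

theorem ord_add_nonneg {x y : LS} (hx : 0 ≤ x.order) (hy : 0 ≤ y.order) :
    0 ≤ (x + y).order := by
  by_cases h : x + y = 0
  · simp [h]
  · exact le_trans (le_min hx hy) (min_order_le_order_add h)

theorem ord_mul_nonneg {x y : LS} (hx : 0 ≤ x.order) (hy : 0 ≤ y.order) :
    0 ≤ (x * y).order := by
  by_cases h1 : x = 0
  · simp [h1]
  by_cases h2 : y = 0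
  · simp [h2]
  rw [ord_mul h1 h2]; omega

theorem ord_add_of_lt {x y : LS} (hx : x ≠ 0) (h : x.order < y.order) :
    (x + y).order = x.order := by
  have hc : (x + y).coeff x.order ≠ 0 := by
    rw [coeff_add, coeff_eq_zero_of_lt_order h, add_zero]
    exact fun h => hx (coeff_order_eq_zero.mp h)
  have hne : x + y ≠ 0 := by rintro h0; rw [h0] at hc; simp at hc
  apply le_antisymm (order_le_of_coeff_ne_zero hc)
  have := min_order_le_order_add hne
  rwa [min_eq_left h.le] at this

/-- Sum and difference have the same order when the orders differ. -/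
theorem ord_add_eq_sub {x y : LS} (h : x ≠ 0 → y ≠ 0 → x.order ≠ y.order) :
    (x + y).order = (x - y).order := by
  by_cases hx : x = 0
  · simp [hx]
  by_cases hy : y = 0
  · simp [hy]
  rcases lt_or_gt_of_ne (h hx hy) with h1 | h1
  · rw [ord_add_of_lt hx h1, sub_eq_add_neg, ord_add_of_lt hx (by rwa [order_neg])]
  · rw [add_comm, ord_add_of_lt hy h1, sub_eq_add_neg, add_comm,
      ord_add_of_lt (neg_ne_zero.mpr hy) (by rwa [order_neg]), order_neg]

end laur

namespace EP

variable {F : Type} [Field F] (Q : EP F)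

theorem D_add (x y : F) : Q.D (x + y) = Q.D x + Q.D y := by
  apply (Q.emb Q.s0).injective
  rw [map_add, Q.hD, Q.hD, Q.hD, map_add, th_add, mul_add]

theorem D_mul (x y : F) : Q.D (x * y) = x * Q.D y + y * Q.D x := by
  apply (Q.emb Q.s0).injective
  rw [map_add, map_mul, map_mul, Q.hD, Q.hD, Q.hD, map_mul, th_mul]; ring

theorem D_sub (x y : F) : Q.D (x - y) = Q.D x - Q.D y := by
  apply (Q.emb Q.s0).injective
  rw [map_sub, Q.hD, Q.hD, Q.hD, map_sub, th_sub, mul_sub]

theorem D_zero : Q.D 0 = 0 := Q.cst 0 fun s => by simp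

theorem charZero (Q : EP F) : CharZero F := by
  have : CharZero LS := algebraRat.charZero LS
  exact (Q.emb Q.s0).charZero

theorem exists_scale (y : F) (hy : y ≠ 0) : ∃ Q' : EP F, (∀ x, Q'.D x = y * Q.D x) ∧
    ∀ s', ∃ s, (Q'.mul s').order = (Q.emb s y).order + (Q.mul s).order := by
  refine ⟨{
    σ := Q.σ
    s0 := Q.s0
    emb := Q.emb
    mul := fun s => Q.emb s y * Q.mul s
    mul_ne := fun s => mul_ne_zero ((map_ne_zero _).mpr hy) (Q.mul_ne s)
    D := fun z => y * Q.D z
    hD := fun s z => by rw [map_mul, Q.hD, mul_assoc]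
    fin := Q.fin
    prod := Q.prod
    cst := fun z h => by rw [Q.cst z h, mul_zero] }, fun _ => rfl, fun s => ⟨s, ?_⟩⟩
  exact ord_mul ((map_ne_zero _).mpr hy) (Q.mul_ne s)

theorem order_D (s : Q.σ) {x : F} (h : Q.D x ≠ 0) : th (Q.emb s x) ≠ 0 ∧
    (Q.emb s (Q.D x)).order = (Q.mul s).order + (th (Q.emb s x)).order := by
  have h1 : th (Q.emb s x) ≠ 0 := by
    intro h1
    have := Q.hD s x
    rw [h1, mul_zero] at this
    exact (map_ne_zero _).mpr h this
  exact ⟨h1, by rw [Q.hD, ord_mul (Q.mul_ne s) h1]⟩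

theorem exists_PS (h : ∀ s, -2 ≤ (Q.mul s).order) : ∃ P : PS F, P.D = Q.D ∧
    ∀ s', ∃ s, (P.bad s' → (Q.mul s).order < -1) ∧ ∀ x, P.w s' x = (Q.emb s x).order := by
  refine ⟨{
    σ := Q.σ
    w := fun s x => (Q.emb s x).order
    bad := fun s => (Q.mul s).order < -1
    D := Q.D
    D_add := Q.D_add
    D_mul := Q.D_mul
    w_zero := fun s => by simp
    w_mul := fun s x y hx hy => by
      rw [map_mul, ord_mul ((map_ne_zero _).mpr hx) ((map_ne_zero _).mpr hy)]
    w_add := fun s x y _ _ hxy => by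
      rw [map_add]
      exact HahnSeries.min_order_le_order_add (by rw [← map_add]; exact (map_ne_zero _).mpr hxy)
    fin := Q.fin
    prod := Q.prod
    D1 := fun s x hx => by
      obtain ⟨h1, h2⟩ := Q.order_D s hx
      have := order_le_th _ h1
      have := h s
      omega
    D1g := fun s x hs hx => by
      obtain ⟨h1, h2⟩ := Q.order_D s hx
      have := order_le_th _ h1
      omega
    D2 := fun s x hs hx h0 => by
      obtain ⟨h1, h2⟩ := Q.order_D s hx
      have := one_le_order_th _ h1 h0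
      omega
    cst := Q.cst
    cst' := fun s x hx => by
      have := Q.hD s x
      rw [hx, map_zero] at this
      exact order_eq_zero_of_th _ ((mul_eq_zero.mp this.symm).resolve_left (Q.mul_ne s)) },
    rfl, fun s => ⟨s, id, fun _ => rfl⟩⟩

end EP

end Pool.Agent.Lib.MP_e5111b_co.FF
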