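import Pool.Agent.Lib.MP_e5111b_co.FF.Energy

namespace Pool.Agent.Lib.MP_e5111b_co.FF

open Finset

/-- a sequence that starts above `θ / 2` and has total mass at most `k θ` must drop -/
theorem seq_drop {θ : ℤ} (hθ : 0 ≤ θ) {k : ℕ} (hk : 1 ≤ k) (a : ℕ → ℤ) (h0 : θ < 2 * a 0)
    (hs : ∑ j ∈ range (4 * k), a (j + 1) ≤ k * θ) :
    θ ^ 2 ≤ 64 * k * ∑ j ∈ range (4 * k), (a j - a (j + 1)) ^ 2 := by
  obtain ⟨n, hn, hn'⟩ : ∃ n ∈ range (4 * k), 4 * a (n + 1) ≤ θ := by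
    by_contra h
    push Not at h
    have := sum_lt_sum_of_nonempty (s := range (4 * k)) (f := fun _ => θ)
      (g := fun j => 4 * a (j + 1)) ⟨0, mem_range.2 (by omega)⟩ h
    rw [sum_const, card_range, nsmul_eq_mul, ← mul_sum] at this
    push_cast at this
    linarith
  have hn1 : n + 1 ≤ 4 * k := mem_range.1 hn
  have t : ∑ j ∈ range (n + 1), (a j - a (j + 1)) = a 0 - a (n + 1) := sum_range_sub' a (n + 1)
  have cs := sq_sum_le_card_mul_sum_sq (s := range (n + 1)) (f := fun j => a j - a (j + 1))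
  rw [t, card_range] at cs
  have m1 : ∑ j ∈ range (n + 1), (a j - a (j + 1)) ^ 2
      ≤ ∑ j ∈ range (4 * k), (a j - a (j + 1)) ^ 2 :=
    sum_le_sum_of_subset_of_nonneg (range_subset_range.2 hn1) fun _ _ _ => sq_nonneg _
  have m0 : 0 ≤ ∑ j ∈ range (n + 1), (a j - a (j + 1)) ^ 2 := sum_nonneg fun _ _ => sq_nonneg _
  have m2 : ((n + 1 : ℕ) : ℤ) ≤ 4 * k := by exact_mod_cast hn1
  have m3 : θ ^ 2 ≤ (4 * (a 0 - a (n + 1))) ^ 2 := pow_le_pow_left₀ hθ (by omega) 2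
  have m4 := mul_le_mul m2 m1 m0 (by positivity)
  nlinarith

namespace PS

variable {K : Type} [Field K] [CharZero K] (P : PS K) {m : ℕ}

theorem shift_ne {p : P.σ × ℤ} (hp : 1 ≤ p.2) (z : K) (i j : ℕ)
    (h : P.rel p (z + i) (z + j)) : i = j := by
  have e : z + i - (z + j) = (((i : ℤ) - j : ℤ) : K) := by
    push_cast
    ring
  unfold rel at h
  rw [e] at h
  rcases h with h | h
  · have := Int.cast_eq_zero.1 h
    omega
  · rw [P.w_intCast] at h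
    omega

omit [CharZero K] in
theorem cnt_shift (p : P.σ × ℤ) (A : Fin m → K) (z : K) :
    cnt (P.rel p) (fun i => A i + 1) (z + 1) = cnt (P.rel p) A z :=
  sum_congr rfl fun i _ => ite_congr_iff (by unfold rel; rw [add_sub_add_right_eq_sub])

theorem gap (A Y : Fin m → K) (k θ : ℕ) (hm : m = k * θ) (hk : 1 ≤ k) {p : P.σ × ℤ}
    (hp : 1 ≤ p.2) (z : K) (hz : ¬ (cnt (P.rel p) A z ≤ θ ∧ cnt (P.rel p) Y z ≤ θ)) :
    (θ : ℤ) ^ 2 ≤ 64 * k * (En (P.rel p) (fun i => A i + 1) A + En (P.rel p) A Y) := by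
  have hr := P.rel_equiv p
  have e1 := En_nonneg hr (fun i => A i + 1) A
  have e2 := En_nonneg hr A Y
  have hk' : (1 : ℤ) ≤ k := by exact_mod_cast hk
  have hθ : (0 : ℤ) ≤ θ := by positivity
  by_cases h0 : (θ : ℤ) < 2 * cnt (P.rel p) A z
  · have hi : ∀ i ∈ range (4 * k), ∀ j ∈ range (4 * k),
        P.rel p (z + ((i + 1 : ℕ) : K)) (z + ((j + 1 : ℕ) : K)) → i = j := fun i _ j _ h => by
      have := P.shift_ne hp z _ _ h
      omega
    have h1 := cnt_sum_le hr A _ (fun j : ℕ => z + ((j + 1 : ℕ) : K)) hi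
    have h2 := En_ge hr (fun i => A i + 1) A _ (fun j : ℕ => z + ((j + 1 : ℕ) : K)) hi
    have h3 := seq_drop hθ hk (fun j : ℕ => cnt (P.rel p) A (z + (j : K))) (by simpa using h0)
      (h1.trans (by rw [hm]; push_cast; exact le_rfl))
    have h4 : ∑ j ∈ range (4 * k),
          (cnt (P.rel p) A (z + (j : K)) - cnt (P.rel p) A (z + ((j + 1 : ℕ) : K))) ^ 2
        ≤ En (P.rel p) (fun i => A i + 1) A := by
      refine le_trans (le_of_eq (sum_congr rfl fun j _ => ?_)) h2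
      rw [← P.cnt_shift p A (z + (j : K)), Nat.cast_succ, add_assoc]
    refine h3.trans (mul_le_mul_of_nonneg_left ?_ (by positivity))
    linarith
  · have h1 := En_ge hr A Y ({0} : Finset ℕ) (fun _ => z) fun i hi j hj _ => by
      rw [mem_singleton.1 hi, mem_singleton.1 hj]
    rw [sum_singleton] at h1
    have h2 : (θ : ℤ) ^ 2 ≤ (2 * (cnt (P.rel p) Y z - cnt (P.rel p) A z)) ^ 2 :=
      pow_le_pow_left₀ hθ (by omega) 2
    have h3 : (θ : ℤ) ^ 2 ≤ 4 * En (P.rel p) A Y := by nlinarith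
    nlinarith

theorem mass (A Y : Fin m → K) (hne : ∀ i j, A i ≠ Y j) (k θ : ℕ) (hm : m = k * θ) (hk : 1 ≤ k)
    (hm2 : 16640 * k ^ 3 ≤ m) (N : ℝ) (hN : 0 ≤ N) (h1 : P.St (fun i => A i + 1) A N 64)
    (h2 : P.St A Y N 1) (B : ℤ) (hB : P.Sm1 θ A Y B) :
    (P.TT A Y : ℝ) ≤ B + 8320 * (k : ℝ) ^ 3 * N := by
  classical
  obtain ⟨L, hL, hT⟩ := P.TT_exists A Y hne
  obtain ⟨q, hq⟩ : ∃ q : P.σ × ℤ → Prop, ∀ p, q p ↔
      ∀ i, cnt (P.rel p) A (A i) ≤ θ ∧ cnt (P.rel p) Y (A i) ≤ θ := ⟨_, fun _ => Iff.rfl⟩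
  rw [← sum_filter_add_sum_filter_not L q] at hT
  have s1 : ∑ p ∈ L with q p, ip (P.rel p) A Y ≤ B := by
    rw [sum_congr rfl fun p hp => ip_eq_sm θ A Y ((hq p).1 (mem_filter.1 hp).2)]
    exact hB _ fun p hp => hL p (mem_filter.1 hp).1
  have hG : ∀ p ∈ L.filter fun p => ¬ q p, (θ : ℤ) ^ 2
      ≤ 64 * k * (En (P.rel p) (fun i => A i + 1) A + En (P.rel p) A Y) := by
    intro p hp
    obtain ⟨hp1, hp2⟩ := mem_filter.1 hp
    rw [hq, not_forall] at hp2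
    obtain ⟨i, hi⟩ := hp2
    exact P.gap A Y k θ hm hk (hL p hp1) (A i) hi
  generalize (L.filter fun p => ¬ q p) = G at hT hG
  have s2 : ∑ p ∈ G, ip (P.rel p) A Y ≤ #G * (m : ℤ) ^ 2 := by
    have := sum_le_sum fun p (_ : p ∈ G) => ip_le (r := P.rel p) A Y
    rwa [sum_const, nsmul_eq_mul] at this
  have s3 := sum_le_sum hG
  rw [sum_const, nsmul_eq_mul, ← mul_sum, sum_add_distrib] at s3
  have s4 := h1 G
  have s5 := h2 G
  generalize ∑ p ∈ G, En (P.rel p) (fun i => A i + 1) A = E1 at s3 s4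
  generalize ∑ p ∈ G, En (P.rel p) A Y = E2 at s3 s5
  have s6 : (P.TT A Y : ℝ) ≤ B + #G * (m : ℝ) ^ 2 := by
    have : P.TT A Y ≤ B + #G * (m : ℤ) ^ 2 := by linarith
    exact_mod_cast this
  have s7 : (#G : ℝ) * (θ : ℝ) ^ 2 ≤ 64 * k * (E1 + E2) := by exact_mod_cast s3
  have s8 : (m : ℝ) = k * θ := by exact_mod_cast hm
  have s9 : 16640 * (k : ℝ) ^ 3 ≤ m := by exact_mod_cast hm2
  have k0 : (0 : ℝ) ≤ k := by positivity
  have m0 : (0 : ℝ) ≤ m := by positivity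
  have g0 : (0 : ℝ) ≤ #G := by positivity
  generalize (#G : ℝ) = n at *
  have t1 : (E1 : ℝ) + E2 ≤ 65 * (N + 2 * m * n) := by linarith
  have t2 : n * (θ : ℝ) ^ 2 ≤ 64 * k * (65 * (N + 2 * m * n)) :=
    s7.trans (mul_le_mul_of_nonneg_left t1 (by positivity))
  have t3 : n * (m : ℝ) ^ 2 ≤ (k : ℝ) ^ 2 * (64 * k * (65 * (N + 2 * m * n))) := by
    have := mul_le_mul_of_nonneg_left t2 (sq_nonneg (k : ℝ))
    calc n * (m : ℝ) ^ 2 = (k : ℝ) ^ 2 * (n * (θ : ℝ) ^ 2) := by rw [s8]; ring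
      _ ≤ _ := this
  have t4 := mul_le_mul_of_nonneg_right s9 (mul_nonneg m0 g0)
  nlinarith

end PS

end Pool.Agent.Lib.MP_e5111b_co.FF
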