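import Pool.Agent.Lib.MP_e5111b_co.FF.Defs

namespace Pool.Agent.Lib.MP_e5111b_co.FF

open Finset

theorem exists_spread_aux {K V : Type} [Field K] [AddCommGroup V] [Module K V]
    [FiniteDimensional K V] (e : K → V) (J L : ℕ) : ∀ (n : ℕ) (G : Finset K),
    Module.finrank K (Submodule.span K (e '' G)) ≤ n → L * (J + 1) ^ n ≤ #G →
    ∃ G' ⊆ G, L ≤ #G' ∧ Spread e J G' := by
  classical
  intro n
  induction n with
  | zero =>
    intro G hr hG
    refine ⟨G, subset_rfl, by simpa using hG, fun U ⟨x, hx, hU⟩ => (hU ?_).elim⟩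
    have h0 : Submodule.span K (e '' G) = ⊥ := Submodule.finrank_eq_zero.1 (by omega)
    have : e x ∈ Submodule.span K (e '' G) := Submodule.subset_span ⟨x, hx, rfl⟩
    rw [h0, Submodule.mem_bot] at this
    rw [this]
    exact U.zero_mem
  | succ n ih =>
    intro G hr hG
    by_cases hs : Spread e J G
    · refine ⟨G, subset_rfl, le_trans ?_ hG, hs⟩
      exact Nat.le_mul_of_pos_right _ (by positivity)
    unfold Spread at hs
    push Not at hs
    obtain ⟨U, ⟨x, hx, hU⟩, hc⟩ := hs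
    have hlt : Submodule.span K (e '' ({x ∈ G | e x ∈ U} : Finset K)) <
        Submodule.span K (e '' G) := by
      refine lt_of_le_of_ne (Submodule.span_mono (Set.image_mono ?_)) fun h => hU ?_
      · exact coe_subset.2 (filter_subset _ _)
      · have h1 : e x ∈ Submodule.span K (e '' G) := Submodule.subset_span ⟨x, hx, rfl⟩
        rw [← h] at h1
        refine (Submodule.span_le.2 ?_ : _ ≤ U) h1
        rintro _ ⟨y, hy, rfl⟩
        exact (mem_filter.1 hy).2
    have h2 := Submodule.finrank_lt_finrank_of_lt hlt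
    obtain ⟨G', h3, h4, h5⟩ := ih {x ∈ G | e x ∈ U} (by omega) (by
      by_contra h
      push Not at h
      have h6 : L * (J + 1) ^ (n + 1) = J * (L * (J + 1) ^ n) + L * (J + 1) ^ n := by ring
      have h7 := Nat.mul_le_mul_left J h.le
      have h8 := hG.trans hc
      omega)
    exact ⟨G', h3.trans (filter_subset _ _), h4, h5⟩

theorem exists_spread (n J L : ℕ) : ∃ M : ℕ, ∀ (K V : Type) [Field K] [AddCommGroup V]
    [Module K V] [FiniteDimensional K V], Module.finrank K V ≤ n → ∀ (e : K → V) (G : Finset K),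
    M ≤ #G → ∃ G' ⊆ G, L ≤ #G' ∧ Spread e J G' :=
  ⟨L * (J + 1) ^ n, fun _ _ _ _ _ _ hn e G hG =>
    exists_spread_aux e J L n G ((Submodule.finrank_le _).trans hn) hG⟩

variable {K : Type} [Field K] {V : Type} [AddCommGroup V] [Module K V]

theorem select_step (e : K → V) (J : ℕ) (G : Finset K) (hG : Spread e J G) {ι : Type}
    (T : Finset ι) (W : ι → Submodule K V) (hJ : 2 * #T ≤ J) (F : Finset K) (hF : 2 * #F < #G) :
    ∃ y ∈ G, y ∉ F ∧ ∀ t ∈ T, (∃ x ∈ G, e x ∉ W t) → e y ∉ W t := by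
  classical
  by_contra hcon
  push Not at hcon
  let T' := {t ∈ T | ∃ x ∈ G, e x ∉ W t}
  have hsub : G ⊆ F ∪ T'.biUnion fun t => {x ∈ G | e x ∈ W t} := by
    intro y hy
    by_cases hyF : y ∈ F
    · exact mem_union_left _ hyF
    obtain ⟨t, ht, h1, h2⟩ := hcon y hy hyF
    exact mem_union_right _ (mem_biUnion.2 ⟨t, mem_filter.2 ⟨ht, h1⟩, mem_filter.2 ⟨hy, h2⟩⟩)
  have h1 := (card_le_card hsub).trans
    ((card_union_le _ _).trans (Nat.add_le_add_left card_biUnion_le _))
  have hT : #T' ≤ #T := card_filter_le _ _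
  have h2 : 2 * #T' * ∑ t ∈ T', #{x ∈ G | e x ∈ W t} ≤ #T' * #G := by
    rw [mul_sum]
    refine (sum_le_card_nsmul _ _ _ fun t ht => ?_).trans (smul_eq_mul _ _).le
    have h3 := hG (W t) (mem_filter.1 ht).2
    refine (Nat.mul_le_mul_right _ (by omega : 2 * #T' ≤ J)).trans ?_
    convert h3.le
  rcases Nat.eq_zero_or_pos #T' with h0 | h0
  · rw [card_eq_zero.1 h0, sum_empty] at h1
    omega
  · rw [mul_comm 2, mul_assoc] at h2
    have := Nat.le_of_mul_le_mul_left h2 h0
    omega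

theorem select_nat (e : K → V) (J : ℕ) (G : Finset K) (hG : Spread e J G)
    (𝒰 : Finset (Submodule K V)) (m : ℕ) (hJ : 2 * #𝒰 * 2 ^ m ≤ J) (hm : 2 * m ≤ #G) :
    ∀ k ≤ m, ∃ X : ℕ → K, ∀ i < k, X i ∈ G ∧ (∀ j < i, X j ≠ X i) ∧ ∀ U ∈ 𝒰, ∀ Z ⊆ range i,
      (∃ x ∈ G, e x ∉ U ⊔ Submodule.span K (e '' (X '' Z))) →
        e (X i) ∉ U ⊔ Submodule.span K (e '' (X '' Z)) := by
  classical
  intro k
  induction k with
  | zero => exact fun _ => ⟨fun _ => 0, fun i hi => by omega⟩
  | succ k ih =>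
    intro hk
    obtain ⟨X, hX⟩ := ih (by omega)
    obtain ⟨y, hy, hyF, hyT⟩ := select_step e J G hG (𝒰 ×ˢ (range k).powerset)
      (fun t => t.1 ⊔ Submodule.span K (e '' (X '' t.2))) (by
        rw [card_product, card_powerset, card_range, ← mul_assoc]
        exact (Nat.mul_le_mul_left _ (Nat.pow_le_pow_right two_pos (by omega))).trans hJ)
      ((range k).image X) (by
        have := card_image_le (s := range k) (f := X)
        rw [card_range] at this
        omega)
    have him : ∀ Z ⊆ range k, Function.update X k y '' (Z : Set ℕ) = X '' Z := by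
      intro Z hZ
      refine Set.image_congr fun a ha => Function.update_of_ne ?_ _ _
      exact (mem_range.1 (hZ ha)).ne
    refine ⟨Function.update X k y, fun i hi => ?_⟩
    rcases Nat.lt_succ_iff_lt_or_eq.1 hi with hi | rfl
    · obtain ⟨h1, h2, h3⟩ := hX i hi
      rw [Function.update_of_ne hi.ne]
      refine ⟨h1, fun j hj => ?_, fun U hU Z hZ => ?_⟩
      · rw [Function.update_of_ne (by omega)]
        exact h2 j hj
      · rw [him Z (hZ.trans (range_mono hi.le))]
        exact h3 U hU Z hZ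
    · rw [Function.update_self]
      refine ⟨hy, fun j hj h => hyF ?_, fun U hU Z hZ => ?_⟩
      · rw [Function.update_of_ne hj.ne] at h
        exact mem_image.2 ⟨j, mem_range.2 hj, h⟩
      · rw [him Z hZ]
        exact hyT (U, Z) (mem_product.2 ⟨hU, mem_powerset.2 hZ⟩)

theorem select (e : K → V) (J : ℕ) (G : Finset K) (hG : Spread e J G)
    (𝒰 : Finset (Submodule K V)) (m : ℕ) (hJ : 2 * #𝒰 * 2 ^ m ≤ J) (hm : 2 * m ≤ #G) :
    ∃ X : Fin m → K, Function.Injective X ∧ (∀ i, X i ∈ G) ∧ ∀ U ∈ 𝒰,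
      ((∃ x ∈ G, e x ∉ U) → ∀ i, e (X i) ∉ U) ∧
      ∀ Z : Finset (Fin m), (∃ x ∈ G, e x ∉ U ⊔ Submodule.span K (e '' (X '' Z))) →
        IndMod U Z fun i => e (X i) := by
  classical
  obtain ⟨X, hX⟩ := select_nat e J G hG 𝒰 m hJ hm m le_rfl
  refine ⟨fun i => X i, fun i j h => ?_, fun i => (hX i i.2).1, fun U hU => ⟨fun h i => ?_, ?_⟩⟩
  · by_contra hne
    rcases lt_or_gt_of_ne hne with h1 | h1
    · exact (hX j j.2).2.1 i h1 h
    · exact (hX i i.2).2.1 j h1 h.symm
  · simpa using (hX i i.2).2.2 U hU ∅ (empty_subset _) (by simpa using h)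
  · rintro Z ⟨x, hx, hxU⟩ c hc
    by_contra hcon
    push Not at hcon
    obtain ⟨i, hi, hmax⟩ := exists_max_image {i ∈ Z | c i ≠ 0} id (by
      obtain ⟨i, h1, h2⟩ := hcon
      exact ⟨i, mem_filter.2 ⟨h1, h2⟩⟩)
    obtain ⟨hiZ, hci⟩ := mem_filter.1 hi
    let Z' : Finset ℕ := ({j ∈ Z | j < i} : Finset (Fin m)).image Fin.val
    have hle : U ⊔ Submodule.span K (e '' (X '' Z')) ≤
        U ⊔ Submodule.span K (e '' ((fun i : Fin m => X i) '' Z)) := by
      refine sup_le_sup_left (Submodule.span_mono (Set.image_mono ?_)) _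
      rintro _ ⟨a, ha, rfl⟩
      obtain ⟨j, hj, rfl⟩ := mem_image.1 (mem_coe.1 ha)
      exact ⟨j, (mem_filter.1 hj).1, rfl⟩
    refine (hX i i.2).2.2 U hU Z' (fun a ha => ?_) ⟨x, hx, fun h => hxU (hle h)⟩ ?_
    · obtain ⟨j, hj, rfl⟩ := mem_image.1 ha
      exact mem_range.2 (mem_filter.1 hj).2
    rw [← add_sum_erase Z _ hiZ] at hc
    have h1 : ∑ j ∈ Z.erase i, c j • e (X j) ∈ U ⊔ Submodule.span K (e '' (X '' Z')) := by
      refine Submodule.sum_mem _ fun j hj => ?_
      by_cases hcj : c j = 0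
      · rw [hcj, zero_smul]
        exact Submodule.zero_mem _
      obtain ⟨h2, h3⟩ := mem_erase.1 hj
      have h4 : j < i := lt_of_le_of_ne (hmax j (mem_filter.2 ⟨h3, hcj⟩)) h2
      refine Submodule.smul_mem _ _ (Submodule.mem_sup_right (Submodule.subset_span ?_))
      exact ⟨_, ⟨j, mem_coe.2 (mem_image.2 ⟨j, mem_filter.2 ⟨h3, h4⟩, rfl⟩), rfl⟩, rfl⟩
    have h2 := Submodule.sub_mem _ (Submodule.mem_sup_left hc) h1
    rw [add_sub_cancel_right] at h2
    exact (Submodule.smul_mem_iff _ hci).1 h2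

theorem IndMod.card_le [FiniteDimensional K V] {ι : Type} {U : Submodule K V} {Z : Finset ι}
    {e : ι → V} (h : IndMod U Z e) : #Z ≤ Module.finrank K V := by
  classical
  have hl : LinearIndependent K fun i : Z => e i := by
    rw [Fintype.linearIndependent_iff]
    intro g hg i
    have h1 := h (fun j => if hj : j ∈ Z then g ⟨j, hj⟩ else 0) (by
      rw [← sum_coe_sort Z]
      simp only [coe_mem, dif_pos, Subtype.coe_eta]
      rw [hg]
      exact U.zero_mem) i i.2
    simpa using h1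
  simpa using hl.fintype_card_le_finrank

end Pool.Agent.Lib.MP_e5111b_co.FF
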