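import Pool.Agent.Lib.MP_e5111b_co.FF.Val

namespace Pool.Agent.Lib.MP_e5111b_co.FF

open Finset

variable {K : Type} [Field K]

theorem ev_aff (d : ℕ) (a a' b b' : K) :
    ∃ L : ((Fin d → Fin 3) → K) →ₗ[K] ((Fin d → Fin 3) → K),
      ∀ p : K × K, ev d (a * p.1 + b, a * p.2 + a' * p.1 + b') = L (ev d p) := by
  classical
  let M : Fin 3 → Fin 3 → K := ![![1, 0, 0], ![b, a, 0], ![b', a', a]]
  refine ⟨Matrix.mulVecLin (Matrix.of fun μ ν : Fin d → Fin 3 => ∏ t, M (μ t) (ν t)), fun p => ?_⟩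
  funext μ
  have h1 : ∀ i : Fin 3, ![1, a * p.1 + b, a * p.2 + a' * p.1 + b'] i =
      ∑ j, M i j * ![1, p.1, p.2] j := by
    intro i
    fin_cases i <;> simp [M, Fin.sum_univ_three] <;> ring
  simp only [ev, h1, Matrix.mulVecLin_apply, Matrix.mulVec, dotProduct, Matrix.of_apply]
  rw [Finset.prod_univ_sum, Fintype.piFinset_univ]
  exact sum_congr rfl fun ν _ => prod_mul_distrib

theorem PS.E_aff' (P : PS K) (d : ℕ) (a b : K) :
    ∃ L : ((Fin d → Fin 3) → K) →ₗ[K] ((Fin d → Fin 3) → K),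
      (∀ x, P.E d (a * x + b) = L (P.E d x)) ∧
      ∀ p : K × K, ev d (a * p.1 + b, a * p.2 + P.D a * p.1 + P.D b) = L (ev d p) := by
  obtain ⟨L, hL⟩ := ev_aff d a (P.D a) b (P.D b)
  refine ⟨L, fun x => ?_, hL⟩
  unfold PS.E
  rw [← hL, P.D_add, P.D_mul, mul_comm x]

theorem PS.E_aff (P : PS K) (d : ℕ) (a b : K) :
    ∃ L : ((Fin d → Fin 3) → K) →ₗ[K] ((Fin d → Fin 3) → K),
      ∀ x, P.E d (a * x + b) = L (P.E d x) :=
  (P.E_aff' d a b).imp fun _ h => h.1

theorem ev_mon (d : ℕ) (μ : Fin d → Fin 3) :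
    ∃ i j : ℕ, i + j ≤ d ∧ ∀ p : K × K, ev d p μ = p.1 ^ i * p.2 ^ j := by
  induction d with
  | zero => exact ⟨0, 0, le_rfl, fun p => by simp [ev]⟩
  | succ d ih =>
    obtain ⟨i, j, hij, h⟩ := ih fun t => μ t.succ
    have h1 : ∀ p : K × K, ev (d + 1) p μ = ![1, p.1, p.2] (μ 0) * (p.1 ^ i * p.2 ^ j) := by
      intro p
      rw [← h p]
      exact Fin.prod_univ_succ _
    generalize μ 0 = k at h1
    fin_cases k
    · exact ⟨i, j, by omega, fun p => by simp [h1]⟩
    · exact ⟨i + 1, j, by omega, fun p => by simp [h1]; ring⟩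
    · exact ⟨i, j + 1, by omega, fun p => by simp [h1]; ring⟩

theorem PS.mon_E (P : PS K) (d : ℕ) : P.Mon d (P.E d) := fun μ => by
  obtain ⟨i, j, hij, h⟩ := ev_mon (K := K) d μ
  exact ⟨i, j, hij, fun x => h _⟩

theorem PS.mon_Bx (P : PS K) (j : ℕ) : P.Mon (4 * j) (P.Bx (2 * j + 1)) := fun μ =>
  ⟨μ.1, μ.2, by omega, fun _ => rfl⟩

theorem exists_idx (d i j : ℕ) (h : i + j ≤ d) :
    ∃ μ : Fin d → Fin 3, ∀ p : K × K, ev d p μ = p.1 ^ i * p.2 ^ j := by
  induction d generalizing i j with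
  | zero =>
    obtain rfl : i = 0 := by omega
    obtain rfl : j = 0 := by omega
    exact ⟨Fin.elim0, fun p => by simp [ev]⟩
  | succ d ih =>
    have step : ∀ (k : Fin 3) (ν : Fin d → Fin 3) (p : K × K),
        ev (d + 1) p (Fin.cons k ν) = ![1, p.1, p.2] k * ev d p ν := by
      intro k ν p
      simp [ev, Fin.prod_univ_succ]
    rcases i with _ | i
    · rcases j with _ | j
      · obtain ⟨ν, hν⟩ := ih 0 0 (by omega)
        exact ⟨Fin.cons 0 ν, fun p => by simp [step, hν]⟩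
      · obtain ⟨ν, hν⟩ := ih 0 j (by omega)
        exact ⟨Fin.cons 2 ν, fun p => by simp [step, hν]; ring⟩
    · obtain ⟨ν, hν⟩ := ih i j (by omega)
      exact ⟨Fin.cons 1 ν, fun p => by simp [step, hν]; ring⟩

theorem box_proj (j d : ℕ) (h : 4 * j ≤ d) :
    ∃ π : ((Fin d → Fin 3) → K) →ₗ[K] (Fin (2 * j + 1) × Fin (2 * j + 1) → K),
      ∀ p, π (ev d p) = box (2 * j + 1) p := by
  choose μ hμ using fun q : Fin (2 * j + 1) × Fin (2 * j + 1) =>
    exists_idx (K := K) d q.1 q.2 (by omega)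
  exact ⟨LinearMap.funLeft K K μ, fun p => funext fun q => hμ q p⟩

theorem coeff_eq_zero [CharZero K] {n : ℕ} (c : Fin n → K)
    (h : ∀ x : K, ∑ i, c i * x ^ (i : ℕ) = 0) : ∀ i, c i = 0 := by
  have h1 : (∑ i : Fin n, Polynomial.monomial (i : ℕ) (c i) : Polynomial K) = 0 := by
    apply Polynomial.funext
    intro x
    simp [Polynomial.eval_finsetSum, h x]
  intro i
  have h2 := congrArg (fun q => Polynomial.coeff q i) h1
  simp only [Polynomial.finsetSum_coeff, Polynomial.coeff_monomial, Polynomial.coeff_zero] at h2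
  rw [Finset.sum_eq_single i] at h2
  · simpa using h2
  · intro k _ hk
    rw [if_neg fun h => hk (Fin.ext h)]
  · simp

theorem dual_eq {ι : Type} [Fintype ι] [DecidableEq ι] (f : (ι → K) →ₗ[K] K) (v : ι → K) :
    f v = ∑ i, f (Pi.single i 1) * v i := by
  rw [LinearMap.pi_apply_eq_sum_univ]
  refine sum_congr rfl fun i _ => ?_
  rw [smul_eq_mul, mul_comm]
  congr 2
  funext j
  simp [Pi.single_apply, eq_comm]

theorem box_span [CharZero K] (n : ℕ) : Submodule.span K (Set.range (box (K := K) n)) = ⊤ := by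
  classical
  by_contra hne
  obtain ⟨f, f0, hf⟩ := Submodule.exists_le_ker_of_lt_top _ (lt_top_iff_ne_top.2 hne)
  apply f0
  have h1 : ∀ x y : K, ∑ i : Fin n, (∑ j : Fin n, f (Pi.single (i, j) 1) * y ^ (j : ℕ)) *
      x ^ (i : ℕ) = 0 := by
    intro x y
    have h2 : f (box n (x, y)) = 0 := hf (Submodule.subset_span ⟨(x, y), rfl⟩)
    rw [dual_eq, Fintype.sum_prod_type] at h2
    rw [← h2]
    refine sum_congr rfl fun i _ => ?_
    rw [sum_mul]
    refine sum_congr rfl fun j _ => ?_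
    simp only [box]
    ring
  have h3 : ∀ i j : Fin n, f (Pi.single (i, j) 1) = 0 := fun i =>
    coeff_eq_zero _ fun y => coeff_eq_zero _ (fun x => h1 x y) i
  refine LinearMap.ext fun v => ?_
  rw [dual_eq]
  exact sum_eq_zero fun q _ => by rw [h3 q.1 q.2, zero_mul]

theorem Le.trans {V : Type} [AddCommGroup V] [Module K V] {e : K → V} {G H I : Set K}
    (h : Le e G H) (h' : Le e H I) : Le e G I := by
  intro x hx
  refine (Submodule.span_le.2 ?_ : Submodule.span K (e '' H) ≤ _) (h x hx)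
  rintro _ ⟨y, hy, rfl⟩
  exact h' y hy

theorem PS.mem_aff (P : PS K) (d : ℕ) {a b : K}
    {L : ((Fin d → Fin 3) → K) →ₗ[K] ((Fin d → Fin 3) → K)}
    (hL : ∀ x, P.E d (a * x + b) = L (P.E d x)) {H : Set K} {v : (Fin d → Fin 3) → K}
    (h : v ∈ Submodule.span K (P.E d '' H)) :
    L v ∈ Submodule.span K (P.E d '' ((fun x => a * x + b) '' H)) := by
  have := Submodule.apply_mem_span_image_of_mem_span L h
  rw [Set.image_image] at this
  rw [Set.image_image]
  simpa only [hL] using this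

theorem PS.le_aff (P : PS K) (d : ℕ) (a b : K) {G H : Set K} (h : Le (P.E d) G H) :
    Le (P.E d) ((fun x => a * x + b) '' G) ((fun x => a * x + b) '' H) := by
  obtain ⟨L, hL⟩ := P.E_aff d a b
  rintro _ ⟨x, hx, rfl⟩
  rw [hL]
  exact P.mem_aff d hL (h x hx)

theorem image_back (a b : K) (ha : a ≠ 0) (G : Set K) :
    (fun x => a⁻¹ * x + -(a⁻¹ * b)) '' ((fun x => a * x + b) '' G) = G := by
  rw [Set.image_image]
  conv_rhs => rw [← Set.image_id G]
  refine Set.image_congr fun x _ => ?_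
  rw [id]
  field_simp
  ring

theorem PS.le_aff_iff (P : PS K) (d : ℕ) (a b : K) (ha : a ≠ 0) {G H : Set K} :
    Le (P.E d) ((fun x => a * x + b) '' G) ((fun x => a * x + b) '' H) ↔ Le (P.E d) G H := by
  refine ⟨fun h => ?_, P.le_aff d a b⟩
  have := P.le_aff d a⁻¹ (-(a⁻¹ * b)) h
  rwa [image_back a b ha, image_back a b ha] at this

theorem PS.gen_aff (P : PS K) (d : ℕ) (a b : K) (ha : a ≠ 0) {G : Set K} (h : P.Gen d G) :
    P.Gen d ((fun x => a * x + b) '' G) := by
  obtain ⟨L, hL, hL'⟩ := P.E_aff' d a b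
  intro p
  have := P.mem_aff d hL (h ((p.1 - b) / a, (p.2 - P.D a * ((p.1 - b) / a) - P.D b) / a))
  rw [← hL'] at this
  convert this using 2
  refine Prod.ext ?_ ?_ <;> simp only <;> field_simp <;> ring

theorem PS.gen_aff_iff (P : PS K) (d : ℕ) (a b : K) (ha : a ≠ 0) {G : Set K} :
    P.Gen d ((fun x => a * x + b) '' G) ↔ P.Gen d G := by
  refine ⟨fun h => ?_, P.gen_aff d a b ha⟩
  have := P.gen_aff d a⁻¹ (-(a⁻¹ * b)) (inv_ne_zero ha) h
  rwa [image_back a b ha] at this

open Classical in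
theorem PS.spread_aff (P : PS K) (d J : ℕ) (a b : K) (ha : a ≠ 0) {G : Finset K}
    (h : Spread (P.E d) J G) : Spread (P.E d) J (G.image fun x => a * x + b) := by
  obtain ⟨L, hL⟩ := P.E_aff d a b
  have inj : Function.Injective fun x : K => a * x + b := fun x y h =>
    mul_left_cancel₀ ha (add_right_cancel h)
  rintro U ⟨_, hx', hU⟩
  obtain ⟨x, hx, rfl⟩ := mem_image.1 hx'
  have h1 := h (U.comap L) ⟨x, hx, by rwa [Submodule.mem_comap, ← hL]⟩
  rw [card_image_of_injective _ inj, filter_image, card_image_of_injective _ inj]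
  convert h1 using 3
  ext y
  simp only [mem_filter, Submodule.mem_comap, hL]

theorem PS.le_conj (P : PS K) (d : ℕ) (c : K →+* K) (hD : ∀ x, c (P.D x) = P.D (c x))
    {G H : Set K} (h : Le (P.E d) G H) : Le (P.E d) (c '' G) (c '' H) := by
  have h1 : ∀ x, P.E d (c x) = c ∘ P.E d x := by
    intro x
    funext μ
    simp only [PS.E, ev, Function.comp, map_prod]
    refine prod_congr rfl fun t _ => ?_
    generalize μ t = k
    fin_cases k <;> simp [hD]
  have h2 : ∀ v ∈ Submodule.span K (P.E d '' H),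
      c ∘ v ∈ Submodule.span K (P.E d '' (c '' H)) := by
    intro v hv
    induction hv using Submodule.span_induction with
    | mem v hv =>
      obtain ⟨y, hy, rfl⟩ := hv
      exact Submodule.subset_span ⟨c y, ⟨y, hy, rfl⟩, h1 y⟩
    | zero =>
      convert Submodule.zero_mem _
      funext μ
      simp
    | add u v _ _ hu hv =>
      convert Submodule.add_mem _ hu hv
      funext μ
      simp
    | smul a v _ hv =>
      convert Submodule.smul_mem _ (c a) hv
      funext μ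
      simp
  rintro _ ⟨x, hx, rfl⟩
  rw [h1]
  exact h2 _ (h x hx)

theorem PS.le_conj_iff (P : PS K) (d : ℕ) (c : K →+* K) (hc : ∀ x, c (c x) = x)
    (hD : ∀ x, c (P.D x) = P.D (c x)) {G H : Set K} :
    Le (P.E d) (c '' G) (c '' H) ↔ Le (P.E d) G H := by
  refine ⟨fun h => ?_, P.le_conj d c hD⟩
  have := P.le_conj d c hD h
  simpa only [Set.image_image, hc, Set.image_id'] using this

theorem exists_poly (d : ℕ) (f : ((Fin d → Fin 3) → K) →ₗ[K] K) (p q : K × K) :
    ∃ g : Polynomial K, g.natDegree ≤ d ∧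
      ∀ s, g.eval s = f (ev d (p.1 + s * q.1, p.2 + s * q.2)) := by
  classical
  let l : Fin 3 → Polynomial K := ![1, Polynomial.C q.1 * Polynomial.X + Polynomial.C p.1,
    Polynomial.C q.2 * Polynomial.X + Polynomial.C p.2]
  have hl : ∀ k, (l k).natDegree ≤ 1 := by
    intro k
    fin_cases k
    · simp [l]
    · exact Polynomial.natDegree_linear_le
    · exact Polynomial.natDegree_linear_le
  refine ⟨∑ μ : Fin d → Fin 3, Polynomial.C (f (Pi.single μ 1)) * ∏ t, l (μ t), ?_, fun s => ?_⟩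
  · refine Polynomial.natDegree_sum_le_of_forall_le _ _ fun μ _ => ?_
    refine (Polynomial.natDegree_C_mul_le _ _).trans ((Polynomial.natDegree_prod_le _ _).trans ?_)
    exact (sum_le_sum fun t _ => hl (μ t)).trans (by simp)
  · rw [dual_eq, Polynomial.eval_finsetSum]
    refine sum_congr rfl fun μ _ => ?_
    rw [Polynomial.eval_mul, Polynomial.eval_C, Polynomial.eval_prod]
    congr 1
    refine prod_congr rfl fun t _ => ?_
    generalize μ t = k
    fin_cases k <;> simp [l] <;> ring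

theorem PS.shift_const [CharZero K] (P : PS K) (d J : ℕ) (hd : 1 ≤ d) (hJ : d < J) (G : Finset K)
    (hG : Spread (P.E d) J G) (h0 : 0 < #G) (hn : ¬ P.Gen d G)
    (hT : ∀ x, P.E d x ∈ Submodule.span K (P.E d '' G) →
      P.E d (x + 1) ∈ Submodule.span K (P.E d '' G)) :
    ∃ r, ∀ x, P.E d x ∈ Submodule.span K (P.E d '' G) → P.D x = r := by
  classical
  obtain ⟨p, hp⟩ := not_forall.1 hn
  obtain ⟨f, f0, hf⟩ := Submodule.exists_le_ker_of_notMem hp
  obtain ⟨g, gd, hg⟩ := exists_poly d f (p.1, 0) (0, 1)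
  have g0 : g ≠ 0 := fun h => f0 (by simpa [h] using (hg p.2).symm)
  have root : ∀ x ∈ G, P.D x ∈ g.roots.toFinset := by
    intro x hx
    have h1 : ∀ n : ℕ, P.E d (x + n) ∈ Submodule.span K (P.E d '' G) := by
      intro n
      induction n with
      | zero => simpa using Submodule.subset_span (Set.mem_image_of_mem (P.E d) (mem_coe.2 hx))
      | succ n ih =>
        rw [Nat.cast_succ, ← add_assoc]
        exact hT _ ih
    obtain ⟨g', -, hg'⟩ := exists_poly d f (x, P.D x) (1, 0)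
    have h2 : g' = 0 := by
      refine Polynomial.eq_zero_of_infinite_isRoot _
        ((Set.infinite_range_of_injective (Nat.cast_injective (R := K))).mono ?_)
      rintro _ ⟨n, rfl⟩
      have h3 : f (P.E d (x + n)) = 0 := hf (h1 n)
      rw [PS.E, P.D_add, P.D_natCast] at h3
      simpa [hg'] using h3
    have h4 := hg' (p.1 - x)
    rw [Multiset.mem_toFinset, Polynomial.mem_roots g0, Polynomial.IsRoot.def, hg]
    simpa [h2] using h4.symm
  obtain ⟨μ0, hμ0⟩ := exists_idx (K := K) d 0 0 (by omega)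
  obtain ⟨μ1, hμ1⟩ := exists_idx (K := K) d 0 1 (by omega)
  let U : K → Submodule K ((Fin d → Fin 3) → K) := fun r =>
    LinearMap.ker ((LinearMap.proj μ1 : ((Fin d → Fin 3) → K) →ₗ[K] K) - r • LinearMap.proj μ0)
  have hU : ∀ r x, P.E d x ∈ U r ↔ P.D x = r := by
    intro r x
    simp [U, PS.E, hμ0, hμ1, sub_eq_zero]
  by_contra hcon
  have h5 : ∀ r, J * #{x ∈ G | P.D x = r} < #G := by
    intro r
    have h6 : ∃ x ∈ G, P.E d x ∉ U r := by
      by_contra h7
      push Not at h7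
      refine hcon ⟨r, fun x hx => (hU r x).1 ((Submodule.span_le.2 ?_ : _ ≤ U r) hx)⟩
      rintro _ ⟨y, hy, rfl⟩
      exact h7 y hy
    convert hG (U r) h6 using 3
    ext y
    simp only [mem_filter, hU]
  have h8 := card_eq_sum_card_fiberwise (f := P.D) (s := G) (t := g.roots.toFinset) root
  have h9 : #g.roots.toFinset ≤ d :=
    (Multiset.toFinset_card_le _).trans ((Polynomial.card_roots' g).trans gd)
  have h10 : J * #G ≤ #g.roots.toFinset * #G := by
    conv_lhs => rw [h8, mul_sum]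
    exact (sum_le_sum fun r _ => (h5 r).le).trans (by simp)
  have h11 := Nat.le_of_mul_le_mul_right h10 h0
  omega

end Pool.Agent.Lib.MP_e5111b_co.FF
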