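import Pool.Agent.Lib.MP_e5111b_co.FF.Core
import Pool.Agent.Lib.MP_e5111b_co.FF.Small
import Pool.Agent.Lib.MP_e5111b_co.FF.Tens
import Pool.Agent.Lib.MP_e5111b_co.FF.Sel

namespace Pool.Agent.Lib.MP_e5111b_co.FF

open Finset

/-- admissible constants for `core` -/
def Adm (m k1 k2 γ1 γ2 : ℕ) : Prop :=
  k1 ∣ m ∧ k2 ∣ m ∧ 16 * (36 + 104 * γ1) ≤ k1 ∧ 266240 * k1 ^ 3 * (36 + 104 * γ2) ≤ k2 ∧
    532480 * k1 ^ 3 * k2 ≤ m

theorem exists_j (c : ℕ) : ∃ j, 1 ≤ j ∧ c * (36 + 104 * (2 * (4 * j))) ≤ 2 * j ^ 2 :=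
  ⟨434 * c + 1, by omega, by nlinarith [Nat.zero_le (c * c)]⟩

theorem exists_const : ∃ j1 j2 d m : ℕ, 1 ≤ j1 ∧ 1 ≤ j2 ∧ 4 * j1 ≤ d ∧ 4 * j2 ≤ d ∧ 8 ≤ m ∧
    3 ^ d + 1 ∣ m ∧ Adm m (2 * j1 ^ 2) (2 * j2 ^ 2) (2 * (4 * j1)) (2 * (4 * j2)) ∧
    ∃ k1 k2, Adm m k1 k2 (d * (3 ^ d + 1)) (d * (3 ^ d + 1)) := by
  obtain ⟨j1, a1, b1⟩ := exists_j 16
  obtain ⟨j2, a2, b2⟩ := exists_j (266240 * (2 * j1 ^ 2) ^ 3)
  obtain ⟨d, hd⟩ : ∃ d, d = 4 * j1 + 4 * j2 := ⟨_, rfl⟩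
  obtain ⟨N, hN⟩ : ∃ N, N = 3 ^ d + 1 := ⟨_, rfl⟩
  obtain ⟨k1, hk1⟩ : ∃ k1, k1 = 16 * (36 + 104 * (d * N)) := ⟨_, rfl⟩
  obtain ⟨k2, hk2⟩ : ∃ k2, k2 = 266240 * k1 ^ 3 * (36 + 104 * (d * N)) := ⟨_, rfl⟩
  obtain ⟨a, ha⟩ : ∃ a, a = 2 * j1 ^ 2 := ⟨_, rfl⟩
  obtain ⟨b, hb⟩ : ∃ b, b = 2 * j2 ^ 2 := ⟨_, rfl⟩
  obtain ⟨t, ht⟩ : ∃ t, t = 8 + 532480 * a ^ 3 * b + 532480 * k1 ^ 3 * k2 := ⟨_, rfl⟩
  have p1 : 0 < k1 := by omega
  have p2 : 0 < k2 := by rw [hk2]; positivity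
  have p3 : 0 < a := by rw [ha]; positivity
  have p4 : 0 < b := by rw [hb]; positivity
  have p5 : 0 < N := by rw [hN]; positivity
  have hle : t ≤ N * (a * (b * (k1 * (k2 * t)))) := by
    have : 0 < N * (a * (b * (k1 * k2))) := by positivity
    calc t ≤ N * (a * (b * (k1 * k2))) * t := Nat.le_mul_of_pos_left _ this
      _ = _ := by ring
  refine ⟨j1, j2, d, N * (a * (b * (k1 * (k2 * t)))), a1, a2, by omega, by omega, by omega, ?_,
    ?_, k1, k2, ?_⟩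
  · rw [← hN]
    exact Dvd.intro _ rfl
  · rw [← ha] at b1
    rw [← ha, ← hb] at b2 ⊢
    exact ⟨⟨N * (b * (k1 * (k2 * t))), by ring⟩, ⟨N * (a * (k1 * (k2 * t))), by ring⟩, b1, b2,
      by omega⟩
  · rw [← hN]
    exact ⟨⟨N * (a * (b * (k2 * t))), by ring⟩, ⟨N * (a * (b * (k1 * t))), by ring⟩, hk1.ge,
      hk2.ge, by omega⟩

theorem finrank_span_img {K V ι : Type} [Field K] [AddCommGroup V] [Module K V] (e : K → V)
    (Y : ι → K) (R : Finset ι) :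
    Module.finrank K (Submodule.span K (e '' (Y '' R))) ≤ #R := by
  classical
  have h : e '' (Y '' R) = (R.image fun i => e (Y i) : Finset V) := by
    rw [coe_image, Set.image_image]
  rw [h]
  exact (finrank_span_finset_le_card _).trans card_image_le

namespace PS

variable {K : Type} [Field K] (P : PS K) {m : ℕ}

theorem Sq.mono {X X' Y Y' : Set K} {a b : K} (h : PS.Sq X Y a b) (hX : X' ⊆ X) (hY : Y' ⊆ Y) :
    PS.Sq X' Y' a b :=
  ⟨h.a0, fun x hx y hy => h.sq x (hX hx) y (hY hy), fun x hx y hy => h.ne1 x (hX hx) y (hY hy),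
    fun x hx y hy => h.ne2 x (hX hx) y (hY hy), fun x hx => h.ne3 x (hX hx)⟩

theorem core' [CharZero K] (A B C : Finset K) (α β b0 : K) (hα : α ≠ 1) (hb : b0 * (α - 1) = 1)
    (sB : PS.Sq (A : Set K) B α 0) (sC : PS.Sq (A : Set K) C β b0)
    (hbad : ∀ s, P.bad s → P.w s α ≠ 0 ∨ P.w s (α - 1) ≠ 0) (h8 : 8 ≤ m)
    (X Y Z : Fin m → K) (hX : Function.Injective X) (hY : Function.Injective Y)
    (hZ : Function.Injective Z) (mX : ∀ i, X i ∈ A) (mY : ∀ i, Y i ∈ B) (mZ : ∀ i, Z i ∈ C)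
    {k1 k2 γ1 γ2 : ℕ} (hg : Adm m k1 k2 γ1 γ2)
    (H : ∀ W : Fin m → K,
      (W = Y ∨ W = (fun j => α * Y j + 0) ∨ W = Z ∨ W = fun j => β * Z j + b0) → ∀ θ : ℕ,
      (m = k1 * θ → P.Sm2 θ X W (γ1 * θ * (∑ i, P.ck (X i) + ∑ j, P.ck (W j)))) ∧
      (m = k2 * θ → P.Sm2 θ X W (γ2 * θ * (∑ i, P.ck (X i) + ∑ j, P.ck (W j))))) :
    P.D α = 0 ∧ (∃ A0 ⊆ A, 8 ≤ #A0 ∧ ∀ x ∈ A0, P.D x = 0) ∧
      ∃ B0 ⊆ B, 8 ≤ #B0 ∧ ∀ y ∈ B0, P.D y = 0 := by
  classical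
  obtain ⟨⟨θ1, e1⟩, ⟨θ2, e2⟩, g1, g2, g3⟩ := hg
  have p1 : 0 < k1 := by omega
  have p2 : 0 < k2 := lt_of_lt_of_le (by positivity) g2
  have hθ : 8 ≤ θ2 := by
    have h1 : 532480 * k1 ^ 3 ≤ θ2 := by
      rw [e2, mul_comm] at g3
      exact Nat.le_of_mul_le_mul_left g3 p2
    have h2 : 0 < k1 ^ 3 := by positivity
    omega
  have rX : Set.range X ⊆ A := Set.range_subset_iff.2 mX
  obtain ⟨r1, r2, r3⟩ := P.core X Y Z hX hY hZ α β b0 hα hb
    (sB.mono rX (Set.range_subset_iff.2 mY)) (sC.mono rX (Set.range_subset_iff.2 mZ)) hbad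
    k1 k2 θ1 θ2 γ1 γ2 e1 e2 hθ g1 g2 g3 fun W hW => ⟨(H W hW θ1).1 e1, (H W hW θ2).2 e2⟩
  refine ⟨r1, ⟨univ.image X, ?_, ?_, ?_⟩, univ.image Y, ?_, ?_, ?_⟩
  · exact image_subset_iff.2 fun i _ => mX i
  · rwa [card_image_of_injective _ hX, card_univ, Fintype.card_fin]
  · exact forall_mem_image.2 fun i _ => r2 i
  · exact image_subset_iff.2 fun i _ => mY i
  · rwa [card_image_of_injective _ hY, card_univ, Fintype.card_fin]
  · exact forall_mem_image.2 fun i _ => r3 i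

theorem gen_ind [CharZero K] {d j : ℕ}
    (π : ((Fin d → Fin 3) → K) →ₗ[K] (Fin (2 * j + 1) × Fin (2 * j + 1) → K))
    (hπ : ∀ p, π (ev d p) = box (2 * j + 1) p) (A : Finset K) (hA : P.Gen d A) (X Y : Fin m → K)
    (R Z : Finset (Fin m)) (hR : #R ≤ 2 * j ^ 2) (hZ : #Z = 2 * j ^ 2)
    (h : (∃ x ∈ A, P.E d x ∉ (Submodule.span K (P.Bx (2 * j + 1) '' (Y '' R))).comap π ⊔
        Submodule.span K (P.E d '' (X '' Z))) →
      IndMod ((Submodule.span K (P.Bx (2 * j + 1) '' (Y '' R))).comap π) Z fun i => P.E d (X i)) :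
    IndMod (Submodule.span K (P.Bx (2 * j + 1) '' (Y '' R))) Z fun i => P.Bx (2 * j + 1) (X i) := by
  have hE : ∀ x, π (P.E d x) = P.Bx (2 * j + 1) x := fun x => hπ _
  intro c hc
  refine h ?_ c ?_
  · by_contra hcon
    push Not at hcon
    have h1 : Submodule.span K (P.E d '' A) ≤
        (Submodule.span K (P.Bx (2 * j + 1) '' (Y '' R)) ⊔
          Submodule.span K (P.Bx (2 * j + 1) '' (X '' Z))).comap π := by
      refine Submodule.span_le.2 ?_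
      rintro _ ⟨x, hx, rfl⟩
      refine SetLike.le_def.1 (sup_le (Submodule.comap_mono le_sup_left) ?_) (hcon x hx)
      refine Submodule.span_le.2 ?_
      rintro _ ⟨y, hy, rfl⟩
      refine Submodule.mem_comap.2 (Submodule.mem_sup_right ?_)
      rw [hE]
      exact Submodule.subset_span ⟨y, hy, rfl⟩
    have h2 : ⊤ ≤ Submodule.span K (P.Bx (2 * j + 1) '' (Y '' R)) ⊔
          Submodule.span K (P.Bx (2 * j + 1) '' (X '' Z)) := by
      rw [← box_span]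
      refine Submodule.span_le.2 ?_
      rintro _ ⟨p, rfl⟩
      rw [← hπ]
      exact h1 (hA p)
    have h3 := (Submodule.finrank_mono h2).trans
      (Submodule.finrank_add_le_finrank_add_finrank _ _)
    have h4 := finrank_span_img (P.Bx (2 * j + 1)) Y R
    have h5 := finrank_span_img (P.Bx (2 * j + 1)) X Z
    rw [finrank_top, Module.finrank_fintype_fun_eq_card, Fintype.card_prod, Fintype.card_fin] at h3
    nlinarith
  · rw [Submodule.mem_comap, map_sum]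
    simpa only [map_smul, hE] using hc

theorem pick {d J : ℕ} (G : Finset K) (hG : Spread (P.E d) J G)
    (𝒰 : Finset (Submodule K ((Fin d → Fin 3) → K))) (h0 : ⊥ ∈ 𝒰) (hJ : 2 * #𝒰 * 2 ^ m ≤ J)
    (hm : 2 * m ≤ #G) : ∃ X : Fin m → K, Function.Injective X ∧ (∀ i, X i ∈ G) ∧
      (∀ U ∈ 𝒰, (∃ x ∈ G, P.E d x ∉ U) → ∀ i, P.E d (X i) ∉ U) ∧
      ∀ R : Finset (Fin m), #R = 3 ^ d + 1 → Le (P.E d) G (X '' R) := by
  obtain ⟨X, h1, h2, h3⟩ := select (P.E d) J G hG 𝒰 m hJ hm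
  refine ⟨X, h1, h2, fun U hU => (h3 U hU).1, fun R hR x hx => ?_⟩
  by_contra hcon
  have h4 := ((h3 ⊥ h0).2 R ⟨x, hx, by rwa [bot_sup_eq]⟩).card_le
  rw [Module.finrank_fintype_fun_eq_card, Fintype.card_fun, Fintype.card_fin,
    Fintype.card_fin] at h4
  omega

theorem sep_one {d : ℕ} (hN : 3 ^ d + 1 ∣ m) (A B : Set K) (X Y : Fin m → K)
    (mX : ∀ i, X i ∈ A) (mY : ∀ i, Y i ∈ B)
    (sX : ∀ R : Finset (Fin m), #R = 3 ^ d + 1 → Le (P.E d) A (X '' R))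
    (sY : ∀ R : Finset (Fin m), #R = 3 ^ d + 1 → Le (P.E d) B (Y '' R))
    (h : (∀ i, P.E d (X i) ∉ Submodule.span K (P.E d '' B)) ∨
      ∀ i, P.E d (Y i) ∉ Submodule.span K (P.E d '' A)) (θ : ℕ) :
    P.Sm2 θ X Y ((d * (3 ^ d + 1) : ℕ) * θ * (∑ i, P.ck (X i) + ∑ j, P.ck (Y j))) := by
  rcases h with h | h
  · exact P.sm_one d _ (P.mon_E d) X Y _ θ hN (Nat.le_add_left _ _)
      (fun i hi => h i (Submodule.span_mono (Set.image_mono (Set.range_subset_iff.2 mY)) hi))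
      fun R hR j => sY R hR _ (mY j)
  · rw [add_comm (∑ i, P.ck (X i))]
    exact (P.sm_one d _ (P.mon_E d) Y X _ θ hN (Nat.le_add_left _ _)
      (fun i hi => h i (Submodule.span_mono (Set.image_mono (Set.range_subset_iff.2 mX)) hi))
      fun R hR j => sX R hR _ (mX j)).symm

theorem sep_two {d J : ℕ} (hN : 3 ^ d + 1 ∣ m) (hJ : 2 * 5 * 2 ^ m ≤ J) (A B : Finset K) (a b : K)
    (hB : Spread (P.E d) J B) (hm : 2 * m ≤ #B) (hs : P.Sep d A B a b) :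
    ∃ Y : Fin m → K, Function.Injective Y ∧ (∀ i, Y i ∈ B) ∧ ∀ X : Fin m → K, (∀ i, X i ∈ A) →
      (∀ R : Finset (Fin m), #R = 3 ^ d + 1 → Le (P.E d) A (X '' R)) →
      (∀ U, U = Submodule.span K (P.E d '' B) ∨
        U = Submodule.span K (P.E d '' ((fun y => a * y + b) '' B)) →
        (∃ x ∈ A, P.E d x ∉ U) → ∀ i, P.E d (X i) ∉ U) →
      ∀ W : Fin m → K, (W = Y ∨ W = fun j => a * Y j + b) → ∀ θ : ℕ,
        P.Sm2 θ X W ((d * (3 ^ d + 1) : ℕ) * θ * (∑ i, P.ck (X i) + ∑ j, P.ck (W j))) := by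
  classical
  obtain ⟨L, hL⟩ := P.E_aff d a b
  obtain ⟨Y, h1, h2, h3, h4⟩ := P.pick (m := m) B hB
    {⊥, Submodule.span K (P.E d '' A), (Submodule.span K (P.E d '' A)).comap L} (by simp)
    (le_trans (Nat.mul_le_mul_right _ (Nat.mul_le_mul_left _ (card_le_three.trans (by omega)))) hJ)
    hm
  refine ⟨Y, h1, h2, fun X mX sX hX W hW θ => ?_⟩
  unfold Sep Le at hs
  rcases hW with rfl | rfl
  · refine P.sep_one hN A B X W mX h2 sX h4 ?_ θ
    rcases hs with hs | hs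
    · refine Or.inl (hX _ (Or.inl rfl) ?_)
      simpa using hs.1
    · refine Or.inr (h3 _ (by simp) ?_)
      simpa using hs.1
  · refine P.sep_one hN A ((fun y => a * y + b) '' B) X _ mX (fun i => ⟨_, h2 i, rfl⟩) sX
      (fun R hR => ?_) ?_ θ
    · have := P.le_aff d a b (h4 R hR)
      rwa [Set.image_image (g := fun y => a * y + b)] at this
    rcases hs with hs | hs
    · refine Or.inl (hX _ (Or.inr rfl) ?_)
      simpa using hs.2
    · refine Or.inr fun i => ?_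
      rw [hL]
      refine h3 ((Submodule.span K (P.E d '' A)).comap L) (by simp) ?_ i
      by_contra hcon
      push Not at hcon
      refine hs.2 ?_
      rintro _ ⟨y, hy, rfl⟩
      rw [hL]
      exact hcon y hy

theorem eqv_stable {d : ℕ} {A B : Set K} {a b : K} (ha : a ≠ 0) (h : P.Eqv d A B a b) (x : K) :
    P.E d (a * x + b) ∈ Submodule.span K (P.E d '' A) ↔
      P.E d x ∈ Submodule.span K (P.E d '' A) := by
  obtain ⟨h1, h2, h3, h4⟩ := h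
  have e1 : ∀ (y : K) (G : Set K), P.E d y ∈ Submodule.span K (P.E d '' G) ↔ Le (P.E d) {y} G := by
    intro y G
    simp [Le]
  rw [e1, e1, ← P.le_aff_iff d a b ha (G := {x}), Set.image_singleton]
  exact ⟨fun h => h.trans (h3.trans (P.le_aff d a b h2)),
    fun h => h.trans ((P.le_aff d a b h1).trans h4)⟩

theorem mode_eqv [CharZero K] {d J : ℕ} (hd : 1 ≤ d) (hJ : d < J) (A B C : Finset K)
    (α β b0 : K) (hα : α ≠ 1) (hb : b0 * (α - 1) = 1) (a0 : α ≠ 0) (b0' : β ≠ 0)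
    (hA : Spread (P.E d) J A) (h8 : 8 ≤ #A) (hn : ¬ P.Gen d A) (eB : P.Eqv d A B α 0)
    (eC : P.Eqv d A C β b0) : P.D α = 0 ∧ (∀ x ∈ A, P.D x = 0) ∧ ∀ y ∈ B, P.D y = 0 := by
  obtain ⟨r, hr⟩ := P.shift_const d J hd hJ A hA (by omega) hn fun x hx => by
    have e1 : x = β * (α * ((x - b0) / (α * β)) + 0) + b0 := by
      field_simp
      ring
    have e2 : x + 1 = α * (β * ((x - b0) / (α * β)) + b0) + 0 := by
      field_simp
      linear_combination -hb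
    rw [e1, P.eqv_stable b0' eC, P.eqv_stable a0 eB] at hx
    rwa [e2, P.eqv_stable a0 eB, P.eqv_stable b0' eC]
  have mA : ∀ x ∈ A, P.E d x ∈ Submodule.span K (P.E d '' A) := fun x hx =>
    Submodule.subset_span ⟨x, hx, rfl⟩
  have key : ∀ x ∈ A, α * r + x * P.D α = r := fun x hx => by
    have h1 := hr _ ((P.eqv_stable a0 eB x).2 (mA x hx))
    rwa [add_zero, P.D_mul, hr x (mA x hx)] at h1
  obtain ⟨x, hx, y, hy, hne⟩ := one_lt_card.1 (by omega : 1 < #A)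
  have h1 : P.D α = 0 := by
    have : (x - y) * P.D α = 0 := by linear_combination key x hx - key y hy
    exact (mul_eq_zero.1 this).resolve_left (sub_ne_zero.2 hne)
  have h2 : r = 0 := by
    have : (α - 1) * r = 0 := by linear_combination key x hx - x * h1
    exact (mul_eq_zero.1 this).resolve_left (sub_ne_zero.2 hα)
  exact ⟨h1, fun z hz => (hr z (mA z hz)).trans h2, fun z hz => (hr z (eB.2.1 z hz)).trans h2⟩

end PS

theorem nf : ∃ d J L : ℕ, ∀ (K : Type) [Field K] [CharZero K] (P : PS K) (α β b0 : K)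
    (A B C : Finset K), α ≠ 1 → b0 * (α - 1) = 1 → PS.Sq (A : Set K) B α 0 →
    PS.Sq (A : Set K) C β b0 → (∀ s, P.bad s → P.w s α ≠ 0 ∨ P.w s (α - 1) ≠ 0) →
    Spread (P.E d) J A → Spread (P.E d) J B → Spread (P.E d) J C → L ≤ #A → L ≤ #B → L ≤ #C →
    (P.Gen d A ∨ (P.Sep d A B α 0 ∧ P.Sep d A C β b0) ∨
      (¬ P.Gen d A ∧ P.Eqv d A B α 0 ∧ P.Eqv d A C β b0)) →
    P.D α = 0 ∧ (∃ A0 ⊆ A, 8 ≤ #A0 ∧ ∀ x ∈ A0, P.D x = 0) ∧
      ∃ B0 ⊆ B, 8 ≤ #B0 ∧ ∀ y ∈ B0, P.D y = 0 := by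
  classical
  obtain ⟨j1, j2, d, m, a1, a2, d1, d2, h8, hN, ad1, k1, k2, ad2⟩ := exists_const
  obtain ⟨J, hJ⟩ : ∃ J, J = 2 * (8 * 2 ^ m) * 2 ^ m + 2 * 5 * 2 ^ m + d + 1 := ⟨_, rfl⟩
  refine ⟨d, J, 2 * m, fun K _ _ P α β b0 A B C hα hb sB sC hbad hA hB hC lA lB lC hmode => ?_⟩
  rcases hmode with hg | ⟨s1, s2⟩ | ⟨hn, e1, e2⟩
  · obtain ⟨Y, y1, y2, -⟩ := select (P.E d) J B hB ∅ m (by simp) lB
    obtain ⟨Z, z1, z2, -⟩ := select (P.E d) J C hC ∅ m (by simp) lC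
    obtain ⟨π1, p1⟩ := box_proj (K := K) j1 d d1
    obtain ⟨π2, p2⟩ := box_proj (K := K) j2 d d2
    obtain ⟨T, hT⟩ : ∃ T : Finset ((Fin m → K) × Finset (Fin m)),
      T = {Y, fun j => α * Y j + 0, Z, fun j => β * Z j + b0} ×ˢ univ := ⟨_, rfl⟩
    have cT : #T ≤ 4 * 2 ^ m := by
      rw [hT, card_product, card_univ, Fintype.card_finset, Fintype.card_fin]
      exact Nat.mul_le_mul_right _ card_le_four
    obtain ⟨X, x1, x2, x3⟩ := select (P.E d) J A hA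
      ((T.image fun t => (Submodule.span K (P.Bx (2 * j1 + 1) '' (t.1 '' t.2))).comap π1) ∪
        T.image fun t => (Submodule.span K (P.Bx (2 * j2 + 1) '' (t.1 '' t.2))).comap π2) m (by
        refine le_trans (Nat.mul_le_mul_right _ (Nat.mul_le_mul_left _
          ((card_union_le _ _).trans ((add_le_add card_image_le card_image_le).trans
            (by omega : _ ≤ 8 * 2 ^ m))))) (by omega)) lA
    refine P.core' A B C α β b0 hα hb sB sC hbad h8 X Y Z x1 y1 z1 x2 y2 z2 ad1 fun W hW θ => ?_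
    have mT : ∀ R, (W, R) ∈ T := fun R => by
      rw [hT, mem_product]
      exact ⟨by simpa only [mem_insert, mem_singleton] using hW, mem_univ _⟩
    refine ⟨fun hm => P.sm_gen (4 * j1) _ (P.mon_Bx j1) X W _ θ hm ?_ fun R hR Z hZ => ?_,
      fun hm => P.sm_gen (4 * j2) _ (P.mon_Bx j2) X W _ θ hm ?_ fun R hR Z hZ => ?_⟩
    · nlinarith
    · exact P.gen_ind π1 p1 A hg X W R Z hR hZ
        ((x3 _ (mem_union_left _ (mem_image.2 ⟨_, mT R, rfl⟩))).2 Z)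
    · nlinarith
    · exact P.gen_ind π2 p2 A hg X W R Z hR hZ
        ((x3 _ (mem_union_right _ (mem_image.2 ⟨_, mT R, rfl⟩))).2 Z)
  · obtain ⟨Y, y1, y2, y3⟩ := P.sep_two hN (by omega) A B α 0 hB lB s1
    obtain ⟨Z, z1, z2, z3⟩ := P.sep_two hN (by omega) A C β b0 hC lC s2
    obtain ⟨X, x1, x2, x3, x4⟩ := P.pick (m := m) A hA
      {⊥, Submodule.span K (P.E d '' B), Submodule.span K (P.E d '' ((fun y => α * y + 0) '' B)),
        Submodule.span K (P.E d '' C), Submodule.span K (P.E d '' ((fun y => β * y + b0) '' C))}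
      (mem_insert_self _ _)
      (le_trans (Nat.mul_le_mul_right _ (Nat.mul_le_mul_left _ card_le_five)) (by omega)) lA
    have hY := y3 X x2 x4 fun U hU => x3 U (by
      simp only [mem_insert, mem_singleton]
      tauto)
    have hZ := z3 X x2 x4 fun U hU => x3 U (by
      simp only [mem_insert, mem_singleton]
      tauto)
    refine P.core' A B C α β b0 hα hb sB sC hbad h8 X Y Z x1 y1 z1 x2 y2 z2 ad2 fun W hW θ => ?_
    have : P.Sm2 θ X W ((d * (3 ^ d + 1) : ℕ) * θ * (∑ i, P.ck (X i) + ∑ j, P.ck (W j))) := by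
      rcases hW with h | h | h | h
      · exact hY W (Or.inl h) θ
      · exact hY W (Or.inr h) θ
      · exact hZ W (Or.inl h) θ
      · exact hZ W (Or.inr h) θ
    exact ⟨fun _ => this, fun _ => this⟩
  · obtain ⟨r1, r2, r3⟩ := P.mode_eqv (by omega) (by omega : d < J) A B C α β b0 hα hb sB.a0
      sC.a0 hA (by omega) hn e1 e2
    exact ⟨r1, ⟨A, subset_rfl, by omega, r2⟩, B, subset_rfl, by omega, r3⟩

end Pool.Agent.Lib.MP_e5111b_co.FF
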