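import Pool.Agent.Lib.MP_e5111b_co.FF.Ext
import Pool.Agent.Lib.MP_e5111b_co.FF.Base

namespace Pool.Agent.Lib.MP_e5111b_co.FF

open Finset

/-- function field of `y ^ 2 = f` -/
abbrev FE (f : Polynomial ℝ) := QuadraticAlgebra (RatFunc ℝ) (algebraMap _ (RatFunc ℝ) f) 0

theorem places (f : Polynomial ℝ) (hf : f.natDegree ≤ 4)
    [Fact (∀ r : RatFunc ℝ, r ^ 2 ≠ algebraMap _ (RatFunc ℝ) f + 0 * r)] (δ : FE f)
    [Fact (∀ r, r ^ 2 ≠ δ + 0 * r)] : ∃ P : PS (QuadraticAlgebra (FE f) δ 0),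
      (∀ z, star (P.D z) = P.D (star z)) ∧
      (∀ s z, P.bad s → star z ≠ z → P.w s (z - star z) ≠ 0) ∧
      ∀ x : FE f, P.D (algebraMap (FE f) _ x) = 0 → ∃ a n : ℝ,
        x ^ 2 - algebraMap (RatFunc ℝ) _ (RatFunc.C a) * x +
          algebraMap (RatFunc ℝ) _ (RatFunc.C n) = 0 := by
  obtain ⟨Q0, h0, c0⟩ := base
  obtain ⟨Q1, a1, s1, p1⟩ := Q0.ext (algebraMap (Polynomial ℝ) (RatFunc ℝ) f)
  have hω : (QuadraticAlgebra.omega : FE f) ≠ 0 := by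
    intro h
    have := congrArg QuadraticAlgebra.im h
    simp at this
  obtain ⟨Q2, a2, p2⟩ := Q1.exists_scale QuadraticAlgebra.omega hω
  have m2 : ∀ s, -1 ≤ (Q2.mul s).order := by
    intro s2
    obtain ⟨s1, e1⟩ := p2 s2
    obtain ⟨s, e⟩ := p1 s1
    have := h0 f hf s
    rcases e with ⟨e2, e3⟩ | ⟨⟨k, e2⟩, e3, e4, -⟩ <;> omega
  obtain ⟨Q3, a3, s3, p3⟩ := Q2.ext δ
  have m3 : ∀ s, -2 ≤ (Q3.mul s).order := by
    intro s3
    obtain ⟨s, e⟩ := p3 s3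
    have := m2 s
    rcases e with ⟨e2, -⟩ | ⟨-, e3, -⟩ <;> omega
  obtain ⟨P, d, w⟩ := Q3.exists_PS m3
  refine ⟨P, fun z => by rw [d]; exact s3 z, fun s z hb hz => ?_, fun x hx => ?_⟩
  · obtain ⟨s3, b, hw⟩ := w s
    obtain ⟨s2, e⟩ := p3 s3
    have h1 := m2 s2
    have h2 := b hb
    rw [hw]
    rcases e with ⟨e2, -⟩ | ⟨-, -, -, e5⟩
    · omega
    · obtain ⟨k, hk⟩ := e5 z hz
      omega
  · rw [d, a3, map_eq_zero, a2] at hx
    have h1 : Q1.D x = 0 := (mul_eq_zero.mp hx).resolve_left hω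
    have h2 : Q1.D (star x) = 0 := by rw [← s1, h1, star_zero]
    have ht : Q0.D x.trace = 0 := by
      rw [← map_eq_zero (algebraMap (RatFunc ℝ) (FE f)), ← a1,
        QuadraticAlgebra.algebraMap_trace_eq_add_star, Q1.D_add, h1, h2, add_zero]
    have hn : Q0.D x.norm = 0 := by
      rw [← map_eq_zero (algebraMap (RatFunc ℝ) (FE f)), ← a1,
        QuadraticAlgebra.algebraMap_norm_eq_mul_star, Q1.D_mul, h1, h2, mul_zero, mul_zero,
        add_zero]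
    obtain ⟨a, ha⟩ := c0 _ ht
    obtain ⟨n, hn'⟩ := c0 _ hn
    refine ⟨a, n, ?_⟩
    rw [← ha, ← hn', QuadraticAlgebra.algebraMap_trace_eq_add_star,
      QuadraticAlgebra.algebraMap_norm_eq_mul_star]
    ring

end Pool.Agent.Lib.MP_e5111b_co.FF
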