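import Pool.Agent.Lib.MP_e5111b_co.FF.Tens
import Pool.Agent.Lib.MP_e5111b_co.FF.End

namespace Pool.Agent.Lib.MP_e5111b_co.FF

open Finset

variable {K : Type} [Field K]

/-- the statement of `nf` for fixed constants and a fixed field -/
def NF (P : PS K) (d J L : ℕ) : Prop := ∀ (α β b0 : K)
    (A B C : Finset K), α ≠ 1 → b0 * (α - 1) = 1 → PS.Sq (A : Set K) B α 0 →
    PS.Sq (A : Set K) C β b0 → (∀ s, P.bad s → P.w s α ≠ 0 ∨ P.w s (α - 1) ≠ 0) →
    Spread (P.E d) J A → Spread (P.E d) J B → Spread (P.E d) J C → L ≤ #A → L ≤ #B → L ≤ #C →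
    (P.Gen d A ∨ (P.Sep d A B α 0 ∧ P.Sep d A C β b0) ∨
      (¬ P.Gen d A ∧ P.Eqv d A B α 0 ∧ P.Eqv d A C β b0)) →
    P.D α = 0 ∧ (∃ A0 ⊆ A, 8 ≤ #A0 ∧ ∀ x ∈ A0, P.D x = 0) ∧
      ∃ B0 ⊆ B, 8 ≤ #B0 ∧ ∀ y ∈ B0, P.D y = 0

/-- a big spread set of points of `S` on the line `c x = a x + b` -/
structure Ln (P : PS K) (c : K →+* K) (S : Set K) (d J L : ℕ) (a b : K) (A : Finset K) : Prop where
  sub : (A : Set K) ⊆ S
  on : ∀ x ∈ A, c x = a * x + b
  spr : Spread (P.E d) J A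
  card : L + 2 ≤ #A

def Eq2 (P : PS K) (d : ℕ) (A B : Finset K) : Prop :=
  Le (P.E d) (A : Set K) B ∧ Le (P.E d) (B : Set K) A

variable {P : PS K} {c : K →+* K} {S : Set K} {d J L : ℕ}

theorem Ln.unit (hS : ∀ x ∈ S, ∀ y ∈ S, ∃ r, c r = r ∧ (x - y) * c (x - y) = r ^ 2) {a b : K}
    {A : Finset K} (h : Ln P c S d J L a b A) : ∃ ε, a * ε ^ 2 = 1 ∧ ε * c ε = 1 := by
  obtain ⟨x, hx, y, hy, hxy⟩ := Finset.one_lt_card.1 (show 1 < #A by have := h.card; omega)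
  obtain ⟨r, hr, h2⟩ := hS x (h.sub hx) y (h.sub hy)
  have h0 : x - y ≠ 0 := sub_ne_zero.2 hxy
  have hr0 : r ≠ 0 := by
    rintro rfl
    exact mul_ne_zero h0 ((map_ne_zero c).2 h0) (by rw [h2]; ring)
  have h3 : c (x - y) = a * (x - y) := by
    rw [map_sub, h.on x hx, h.on y hy]
    ring
  refine ⟨(x - y) / r, ?_, ?_⟩
  · rw [h3] at h2
    field_simp
    linear_combination h2
  · rw [map_div₀, hr]
    field_simp
    linear_combination h2

theorem centre [CharZero K] (hnf : NF P d J L) (hc : ∀ x, c (c x) = x)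
    (hD : ∀ x, c (P.D x) = P.D (c x)) (hbad : ∀ s x, P.bad s → c x ≠ x → P.w s (x - c x) ≠ 0)
    (hS : ∀ x ∈ S, ∀ y ∈ S, ∃ r, c r = r ∧ (x - y) * c (x - y) = r ^ 2)
    {a0 b0 a1 b1 a2 b2 : K} {A B C : Finset K} (hA : Ln P c S d J L a0 b0 A)
    (hB : Ln P c S d J L a1 b1 B) (hC : Ln P c S d J L a2 b2 C)
    (o1 : ∀ x ∈ A, c x ≠ a1 * x + b1) (o2 : ∀ x ∈ A, c x ≠ a2 * x + b2) (h01 : a1 ≠ a0)
    (hdet : (a1 - a0) * (b2 - b0) ≠ (a2 - a0) * (b1 - b0))
    (mode : P.Gen d A ∨ (¬ Eq2 P d A B ∧ ¬ Eq2 P d A C) ∨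
      (¬ P.Gen d A ∧ Eq2 P d A B ∧ Eq2 P d A C)) :
    ∀ x ∈ S, ∀ y ∈ S, ∀ x' ∈ S, ∀ y' ∈ S, P.D ((x - y) / (x' - y')) = 0 := by
  classical
  obtain ⟨e0, u0, v0⟩ := hA.unit hS
  obtain ⟨e1, u1, v1⟩ := hB.unit hS
  obtain ⟨e2, u2, -⟩ := hC.unit hS
  have n0 : a0 ≠ 0 := left_ne_zero_of_mul_eq_one u0
  have n1 : a1 ≠ 0 := left_ne_zero_of_mul_eq_one u1
  have n2 : a2 ≠ 0 := left_ne_zero_of_mul_eq_one u2
  have z0 : e0 ≠ 0 := left_ne_zero_of_mul_eq_one v0
  have z1 : e1 ≠ 0 := left_ne_zero_of_mul_eq_one v1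
  have n01 : a1 - a0 ≠ 0 := sub_ne_zero.2 h01
  have nd : (a1 - a0) * (b2 - b0) - (a2 - a0) * (b1 - b0) ≠ 0 := sub_ne_zero.2 hdet
  obtain ⟨o, ho⟩ : ∃ o, o * (a1 - a0) = b0 - b1 := ⟨(b0 - b1) / (a1 - a0), div_mul_cancel₀ _ n01⟩
  obtain ⟨t, ht⟩ : ∃ t, t * ((a1 - a0) * (b2 - b0) - (a2 - a0) * (b1 - b0)) = a0 ^ 2 :=
    ⟨_, div_mul_cancel₀ _ nd⟩
  have t0 : t ≠ 0 := by
    rintro rfl
    exact pow_ne_zero 2 n0 (by rw [← ht, zero_mul])
  have t1 : t / a0 ≠ 0 := div_ne_zero t0 n0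
  obtain ⟨φ, hφ⟩ : ∃ φ : K → K, φ = fun x => t * x + -(t * o) := ⟨_, rfl⟩
  obtain ⟨ψ, hψ⟩ : ∃ ψ : K → K, ψ = fun x => t / a0 * x + -(t * (b0 / a0 + o)) := ⟨_, rfl⟩
  have φi : Function.Injective φ := by
    rw [hφ]
    exact fun x y h => mul_left_cancel₀ t0 (add_right_cancel h)
  have ψi : Function.Injective ψ := by
    rw [hψ]
    exact fun x y h => mul_left_cancel₀ t1 (add_right_cancel h)
  obtain ⟨κ, hκ⟩ : ∃ κ, κ = t * ((a2 / a0 - 1) * o + (b2 - b0) / a0) := ⟨_, rfl⟩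
  have l0 : ∀ z, ψ (a0 * z + b0) = φ z := fun z => by
    simp only [hφ, hψ]
    field_simp
    ring
  have l1 : ∀ z, ψ (a1 * z + b1) = a1 / a0 * φ z + 0 := fun z => by
    simp only [hφ, hψ]
    field_simp
    linear_combination t * ho
  have l2 : ∀ z, ψ (a2 * z + b2) = a2 / a0 * φ z + κ := fun z => by
    simp only [hφ, hψ, hκ]
    field_simp
    ring
  have sq : ∀ x ∈ S, ∀ y ∈ S, IsSquare ((φ x - φ y) * (ψ (c x) - ψ (c y))) := by
    intro x hx y hy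
    obtain ⟨r, -, h2⟩ := hS x hx y hy
    refine ⟨r * e0 * t, ?_⟩
    rw [map_sub] at h2
    simp only [hφ, hψ]
    field_simp
    linear_combination h2 - r ^ 2 * u0
  have mkSq : ∀ (a b k : K) (Y : Finset K), Ln P c S d J L a b Y → a ≠ 0 →
      (∀ x ∈ A, c x ≠ a * x + b) → (∀ z, ψ (a * z + b) = a / a0 * φ z + k) →
      PS.Sq (A.image φ : Set K) (Y.image φ) (a / a0) k := by
    intro a b k Y hY ha off l
    simp only [coe_image]
    refine ⟨div_ne_zero ha n0, ?_, ?_, ?_, ?_⟩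
    · rintro _ ⟨x, hx, rfl⟩ _ ⟨y, hy, rfl⟩
      have := sq x (hA.sub hx) y (hY.sub hy)
      rwa [hA.on x hx, hY.on y hy, l0, l] at this
    · rintro _ ⟨x, hx, rfl⟩ _ ⟨y, hy, rfl⟩ h
      obtain rfl := φi h
      exact off x hx (hY.on x hy)
    · rintro _ ⟨x, hx, rfl⟩ _ ⟨y, hy, rfl⟩ h
      rw [← l0, ← l, ← hA.on x hx, ← hY.on y hy] at h
      obtain rfl := c.injective (ψi h)
      exact off x hx (hY.on x hy)
    · rintro _ ⟨x, hx, rfl⟩ h
      rw [← l, ← l0, ← hA.on x hx] at h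
      exact off x hx (ψi h)
  have imA : (A.image φ : Set K) = ψ '' (c '' (A : Set K)) := by
    rw [coe_image, Set.image_image]
    exact Set.image_congr fun x hx => by rw [hA.on x hx, l0]
  have imY : ∀ (a b k : K) (Y : Finset K), Ln P c S d J L a b Y →
      (∀ z, ψ (a * z + b) = a / a0 * φ z + k) →
      (fun y => a / a0 * y + k) '' (Y.image φ : Set K) = ψ '' (c '' (Y : Set K)) := by
    intro a b k Y hY l
    rw [coe_image, Set.image_image, Set.image_image]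
    exact Set.image_congr fun x hx => by rw [hY.on x hx, l]
  have leφ : ∀ X Y : Finset K, Le (P.E d) (X.image φ : Set K) (Y.image φ) ↔
      Le (P.E d) (X : Set K) Y := fun X Y => by
    rw [coe_image, coe_image, hφ]
    exact P.le_aff_iff d _ _ t0
  have leψ : ∀ X Y : Set K, Le (P.E d) (ψ '' (c '' X)) (ψ '' (c '' Y)) ↔ Le (P.E d) X Y :=
    fun X Y => by
      rw [hψ, P.le_aff_iff d _ _ t1]
      exact P.le_conj_iff d c hc hD
  have mkSep : ∀ (a b k : K) (Y : Finset K), Ln P c S d J L a b Y →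
      (∀ z, ψ (a * z + b) = a / a0 * φ z + k) → ¬ Eq2 P d A Y →
      P.Sep d (A.image φ) (Y.image φ) (a / a0) k := by
    intro a b k Y hY l h
    unfold PS.Sep
    rw [imY a b k Y hY l, leφ, leφ, imA, leψ, leψ]
    unfold Eq2 at h
    tauto
  have mkEqv : ∀ (a b k : K) (Y : Finset K), Ln P c S d J L a b Y →
      (∀ z, ψ (a * z + b) = a / a0 * φ z + k) → Eq2 P d A Y →
      P.Eqv d (A.image φ) (Y.image φ) (a / a0) k := by
    intro a b k Y hY l h
    unfold PS.Eqv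
    rw [imY a b k Y hY l, leφ, leφ, imA, leψ, leψ]
    exact ⟨h.1, h.2, h.1, h.2⟩
  have gen : P.Gen d (A.image φ) ↔ P.Gen d A := by
    rw [coe_image, hφ]
    exact P.gen_aff_iff d _ _ t0
  have spr : ∀ Y : Finset K, Spread (P.E d) J Y → Spread (P.E d) J (Y.image φ) := fun Y h => by
    rw [hφ]
    convert P.spread_aff d J _ _ t0 h
  have crd : ∀ Y : Finset K, L + 2 ≤ #Y → L ≤ #(Y.image φ) := fun Y h => by
    rw [card_image_of_injective _ φi]
    omega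
  have hη : a1 / a0 = (e0 / e1) ^ 2 := by
    field_simp
    linear_combination u1 - u0
  have hα : a1 / a0 ≠ 1 := fun h => h01 ((div_eq_one_iff_eq n0).1 h)
  have η0 : e0 / e1 ≠ 0 := div_ne_zero z0 z1
  have hcη : c (e0 / e1) = (e0 / e1)⁻¹ := by
    refine eq_inv_of_mul_eq_one_right ?_
    rw [map_div₀, div_mul_div_comm, v0, v1, div_one]
  have bd : ∀ s, P.bad s → P.w s (a1 / a0) ≠ 0 ∨ P.w s (a1 / a0 - 1) ≠ 0 := by
    intro s hs
    have h1 := hbad s (e0 / e1) hs fun h => hα (by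
      rw [hη, pow_two]
      nth_rewrite 2 [← h]
      rw [hcη, mul_inv_cancel₀ η0])
    have h2 : e0 / e1 - c (e0 / e1) = (a1 / a0 - 1) * (e0 / e1)⁻¹ := by
      rw [hcη, hη]
      field_simp
    rw [h2, P.w_mul s _ _ (sub_ne_zero.2 hα) (inv_ne_zero η0), P.w_inv] at h1
    have h3 : P.w s (a1 / a0) = P.w s (e0 / e1) + P.w s (e0 / e1) := by
      rw [hη, pow_two, P.w_mul s _ _ η0 η0]
    omega
  obtain ⟨d0, ⟨A0, sA, cA, dA⟩, B0, sB, cB, dB⟩ := hnf (a1 / a0) (a2 / a0) κ (A.image φ) (B.image φ)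
    (C.image φ) hα (by
      rw [hκ]
      field_simp
      linear_combination ht + t * (a2 - a0) * ho)
    (mkSq a1 b1 0 B hB n1 o1 l1) (mkSq a2 b2 κ C hC n2 o2 l2) bd (spr A hA.spr) (spr B hB.spr)
    (spr C hC.spr) (crd A hA.card) (crd B hB.card) (crd C hC.card) (by
      rcases mode with h | h | h
      · exact Or.inl (gen.2 h)
      · exact Or.inr (Or.inl ⟨mkSep a1 b1 0 B hB l1 h.1, mkSep a2 b2 κ C hC l2 h.2⟩)
      · exact Or.inr (Or.inr ⟨fun h' => h.1 (gen.1 h'), mkEqv a1 b1 0 B hB l1 h.2.1,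
          mkEqv a2 b2 κ C hC l2 h.2.2⟩))
  have nb : ∀ s, ¬ P.bad s := fun s hs => by
    rcases bd s hs with h | h
    · exact h (P.cst' s _ d0)
    · exact h (P.cst' s _ (by rw [P.D_sub, d0, P.D_one, sub_zero]))
  have α0 : a1 / a0 ≠ 0 := div_ne_zero n1 n0
  have all : ∀ z ∈ S, P.D (φ z) = 0 := by
    intro z hz
    by_cases h0 : c z = a0 * z + b0
    · by_cases h1 : c z = a1 * z + b1
      · have h2 : φ z * (a1 / a0 - 1) = 0 := by
          have := l1 z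
          rw [← h1, h0, l0] at this
          linear_combination -this
        rw [(mul_eq_zero.1 h2).resolve_right (sub_ne_zero.2 hα), P.D_zero]
      · refine (P.endgame nb B0 cB dB (φ z) (ψ (c z) / (a1 / a0)) (fun h => h1 (ψi ?_))
          fun x hx => ?_).1
        · rw [l1, h, mul_div_cancel₀ _ α0, add_zero]
        · obtain ⟨y, hy, rfl⟩ := mem_image.1 (sB hx)
          have h3 : ψ (c y) = a1 / a0 * φ y := by rw [hB.on y hy, l1, add_zero]
          refine ⟨fun h => ?_, fun h => ?_, ?_⟩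
          · obtain rfl := φi h
            exact h1 (hB.on _ hy)
          · rw [div_eq_iff α0, mul_comm, ← h3] at h
            obtain rfl := c.injective (ψi h)
            exact h1 (hB.on _ hy)
          · obtain ⟨r, hr⟩ := sq z hz y (hB.sub hy)
            refine ⟨r / (e0 / e1), ?_⟩
            rw [div_mul_div_comm, ← hr, ← pow_two, ← hη, h3]
            generalize a1 / a0 = q at α0
            field_simp
    · refine (P.endgame nb A0 cA dA (φ z) (ψ (c z)) (fun h => h0 (ψi ?_)) fun x hx => ?_).1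
      · rw [l0, h]
      · obtain ⟨y, hy, rfl⟩ := mem_image.1 (sA hx)
        have h3 : ψ (c y) = φ y := by rw [hA.on y hy, l0]
        refine ⟨fun h => ?_, fun h => ?_, ?_⟩
        · obtain rfl := φi h
          exact h0 (hA.on _ hy)
        · rw [← h3] at h
          obtain rfl := c.injective (ψi h)
          exact h0 (hA.on _ hy)
        · have := sq z hz y (hA.sub hy)
          rwa [h3] at this
  intro x hx y hy x' hx' y' hy'
  have e : (x - y) / (x' - y') = (φ x - φ y) / (φ x' - φ y') := by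
    rw [← mul_div_mul_left _ _ t0, hφ]
    congr 1 <;> ring
  rw [e]
  refine P.D_div_eq_zero ?_ ?_
  · rw [P.D_sub, all x hx, all y hy, sub_zero]
  · rw [P.D_sub, all x' hx', all y' hy', sub_zero]

end Pool.Agent.Lib.MP_e5111b_co.FF
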