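import Pool.Agent.Lib.MP_e5111b_co.FF.Nf
import Pool.Agent.Lib.MP_e5111b_co.FF.RawA

namespace Pool.Agent.Lib.MP_e5111b_co.FF

open Finset

variable {K : Type} [Field K] {P : PS K} {c : K →+* K} {S : Set K} {d J L : ℕ}

theorem Eq2.symm {A B : Finset K} (h : Eq2 P d A B) : Eq2 P d B A := ⟨h.2, h.1⟩

theorem Eq2.trans {A B C : Finset K} (h : Eq2 P d A B) (h' : Eq2 P d B C) : Eq2 P d A C :=
  ⟨h.1.trans h'.1, h'.2.trans h.2⟩

theorem centre' [CharZero K] (hnf : NF P d J L) (hc : ∀ x, c (c x) = x)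
    (hD : ∀ x, c (P.D x) = P.D (c x)) (hbad : ∀ s x, P.bad s → c x ≠ x → P.w s (x - c x) ≠ 0)
    (hS : ∀ x ∈ S, ∀ y ∈ S, ∃ r, c r = r ∧ (x - y) * c (x - y) = r ^ 2)
    {a0 b0 a1 b1 a2 b2 : K} {A B C : Finset K} (hA : Ln P c S d J L a0 b0 A)
    (hB : Ln P c S d J L a1 b1 B) (hC : Ln P c S d J L a2 b2 C)
    (o1 : ∀ x ∈ A, c x ≠ a1 * x + b1) (o2 : ∀ x ∈ A, c x ≠ a2 * x + b2)
    (hdet : (a1 - a0) * (b2 - b0) ≠ (a2 - a0) * (b1 - b0))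
    (mode : P.Gen d A ∨ (¬ Eq2 P d A B ∧ ¬ Eq2 P d A C) ∨
      (¬ P.Gen d A ∧ Eq2 P d A B ∧ Eq2 P d A C)) :
    ∀ x ∈ S, ∀ y ∈ S, ∀ x' ∈ S, ∀ y' ∈ S, P.D ((x - y) / (x' - y')) = 0 := by
  by_cases h01 : a1 = a0
  · refine centre hnf hc hD hbad hS hA hC hB o2 o1 (fun h => hdet ?_) hdet.symm (by tauto)
    rw [h01, h, sub_self, zero_mul, zero_mul]
  · exact centre hnf hc hD hbad hS hA hB hC o1 o2 h01 hdet mode

open Classical in
theorem card_off (c : K →+* K) {a b a1 b1 a2 b2 : K} (G : Finset K) (hG : ∀ x ∈ G, c x = a * x + b)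
    (hdet : (a1 - a) * (b2 - b) ≠ (a2 - a) * (b1 - b)) :
    #G ≤ #{x ∈ G | c x ≠ a1 * x + b1 ∧ c x ≠ a2 * x + b2} + 2 := by
  have one : ∀ a' b' : K, ¬ (a' = a ∧ b' = b) → #{x ∈ G | c x = a' * x + b'} ≤ 1 := by
    intro a' b' h
    refine card_le_one.2 fun x hx y hy => ?_
    rw [mem_filter] at hx hy
    by_contra hxy
    have h1 : (a' - a) * (x - y) = 0 := by
      linear_combination hG x hx.1 - hx.2 - hG y hy.1 + hy.2
    have h2 : a' = a := sub_eq_zero.1 ((mul_eq_zero.1 h1).resolve_right (sub_ne_zero.2 hxy))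
    exact h ⟨h2, by linear_combination hG x hx.1 - hx.2 - x * h2⟩
  have c1 := one a1 b1 fun h => hdet (by rw [h.1, h.2, sub_self, sub_self, zero_mul, mul_zero])
  have c2 := one a2 b2 fun h => hdet (by rw [h.1, h.2, sub_self, sub_self, zero_mul, mul_zero])
  have c3 : G ⊆ {x ∈ G | c x ≠ a1 * x + b1 ∧ c x ≠ a2 * x + b2} ∪
      ({x ∈ G | c x = a1 * x + b1} ∪ {x ∈ G | c x = a2 * x + b2}) := by
    intro x hx
    simp only [mem_union, mem_filter]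
    tauto
  have c4 := (card_le_card c3).trans (card_union_le _ _)
  have c5 := card_union_le {x ∈ G | c x = a1 * x + b1} {x ∈ G | c x = a2 * x + b2}
  omega

theorem raw : ∃ m : ℕ, ∀ (K : Type) [Field K] [CharZero K] (P : PS K) (c : K →+* K),
    (∀ x, c (c x) = x) → (∀ x, c (P.D x) = P.D (c x)) →
    (∀ s x, P.bad s → c x ≠ x → P.w s (x - c x) ≠ 0) →
    ∀ S : Set K, (∀ x ∈ S, ∀ y ∈ S, ∃ r, c r = r ∧ (x - y) * c (x - y) = r ^ 2) →
    ∀ (α β : Fin 3 → K) (G : Fin 3 → Finset K), (∀ i, (G i : Set K) ⊆ S) → (∀ i, m ≤ #(G i)) →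
    (∀ i, ∀ x ∈ G i, c x = α i * x + β i) →
    (α 1 - α 0) * (β 2 - β 0) ≠ (α 2 - α 0) * (β 1 - β 0) →
    ∀ x ∈ S, ∀ y ∈ S, ∀ x' ∈ S, ∀ y' ∈ S, P.D ((x - y) / (x' - y')) = 0 := by
  classical
  obtain ⟨d, J, L, hnf⟩ := nf
  obtain ⟨M, hM⟩ := exists_spread (Fintype.card (Fin d → Fin 3)) J (L + 2)
  refine ⟨M + 2, fun K _ _ P c hc hD hbad S hS α β G hG hm hon d0 => ?_⟩
  have hnf' : NF P d J L := hnf K P
  have d1 : (α 2 - α 1) * (β 0 - β 1) ≠ (α 0 - α 1) * (β 2 - β 1) := fun h =>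
    d0 (by linear_combination h)
  have d2 : (α 0 - α 2) * (β 1 - β 2) ≠ (α 1 - α 2) * (β 0 - β 2) := fun h =>
    d0 (by linear_combination h)
  have pick : ∀ i j k, (α j - α i) * (β k - β i) ≠ (α k - α i) * (β j - β i) →
      ∃ A, Ln P c S d J L (α i) (β i) A ∧ (∀ x ∈ A, c x ≠ α j * x + β j) ∧
        ∀ x ∈ A, c x ≠ α k * x + β k := by
    intro i j k h
    have h1 := card_off c (G i) (hon i) h
    have h2 := hm i
    obtain ⟨A, sA, cA, pA⟩ := hM K ((Fin d → Fin 3) → K) (Module.finrank_fintype_fun_eq_card K).le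
      (P.E d) {x ∈ G i | c x ≠ α j * x + β j ∧ c x ≠ α k * x + β k} (by omega)
    have h3 := fun (x : K) (hx : x ∈ A) => mem_filter.1 (sA hx)
    exact ⟨A, ⟨fun x hx => hG i (h3 x hx).1, fun x hx => hon i x (h3 x hx).1, pA, cA⟩,
      fun x hx => (h3 x hx).2.1, fun x hx => (h3 x hx).2.2⟩
  obtain ⟨A, hA, a1, a2⟩ := pick 0 1 2 d0
  obtain ⟨B, hB, b1, b2⟩ := pick 1 2 0 d1
  obtain ⟨C, hC, c1, c2⟩ := pick 2 0 1 d2
  have cA := centre' hnf' hc hD hbad hS hA hB hC a1 a2 d0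
  have cB := centre' hnf' hc hD hbad hS hB hC hA b1 b2 d1
  have cC := centre' hnf' hc hD hbad hS hC hA hB c1 c2 d2
  by_cases gA : P.Gen d A
  · exact cA (Or.inl gA)
  by_cases eB : Eq2 P d A B
  · by_cases eC : Eq2 P d A C
    · exact cA (Or.inr (Or.inr ⟨gA, eB, eC⟩))
    · exact cC (Or.inr (Or.inl ⟨fun h => eC h.symm, fun h => eC (eB.trans h.symm)⟩))
  · by_cases eC : Eq2 P d A C
    · exact cB (Or.inr (Or.inl ⟨fun h => eB (eC.trans h.symm), fun h => eB h.symm⟩))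
    · exact cA (Or.inr (Or.inl ⟨eB, eC⟩))

end Pool.Agent.Lib.MP_e5111b_co.FF
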